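import Pool.Agent.Helper86.CX.Ker

/-!
Row KNP: packed arithmetic of models with one corner. A control value `x + i y` (unit `2 ^ (-48)`)
is the number `(x + 2 ^ 160) + (y + 2 ^ 160) X`, `X = 2 ^ 256`; products are taken in the ring of
integers modulo `X ^ 2 + 1`.
-/

set_option autoImplicit false
noncomputable section
namespace Pool.Agent.Helper84.KNP

open Pool.Agent.Helper86.C75 (Z)
open Pool.Agent.Helper86.CX

/-! ### constants -/

/-- `2 ^ 256` -/
def X1 : Nat := (nat_lit 115792089237316195423570985008687907853269984665640564039457584007913129639936)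
/-- `2 ^ 512 + 1` -/
def MG : Nat := (nat_lit 13407807929942597099574024998205846127479365820592393377723561443721764030073546976801874298166903427690031858186486050853753882811946569946433649006084097)
/-- `2 ^ 512` -/
def NG1 : Nat := (nat_lit 13407807929942597099574024998205846127479365820592393377723561443721764030073546976801874298166903427690031858186486050853753882811946569946433649006084096)
/-- `2 ^ 160` -/
def OO : Nat := (nat_lit 1461501637330902918203684832716283019655932542976)
/-- `2 ^ 161` -/
def O1 : Nat := (nat_lit 2923003274661805836407369665432566039311865085952)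
/-- `2 ^ 160 (1 + X)` -/
def ZZ : Nat := (nat_lit 169230328010303641331690318856389386196071598838855992136870091590247882556497166032885768775485316605816066561425635658432512)
/-- `minus 2 ^ 160 (1 + X), modulo MG` -/
def CG : Nat := (nat_lit 13407807929942597099574024998036615799469062179260703058867172057525692431234690984665004206576655545133534692153600282078268566206130503385008013347651585)
/-- `2 ^ 208 (1 + X)` -/
def O8 : Nat := (nat_lit 47634102635436893179040485073748265163400240214004076398607741693502376385800057679244587001087747774885771953614505921018532047298727247872)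
/-- `2 ^ 210 (1 + X)` -/
def O10 : Nat := (nat_lit 190536410541747572716161940294993060653600960856016305594430966774009505543200230716978348004350991099543087814458023684074128189194908991488)
/-- `(2 ^ 161 - 1)(1 + X)` -/
def MK : Nat := (nat_lit 338460656020607282663380637712778772392143197677596192184502866985072194127985644157918267566304992647592675538843358187225087)
/-- `2 ^ 161 X` -/
def CJ : Nat := (nat_lit 338460656020607282663380637712778772392143197677711984273740183180495765112991409062496875745134225841966700556811959451779072)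
/-- `2 ^ 100` -/
def B100 : Nat := (nat_lit 1267650600228229401496703205376)
/-- `2 ^ 48` -/
def U48 : Nat := (nat_lit 281474976710656)
/-- `the number one` -/
def Z1 : Nat := (nat_lit 169230328010303641331690318856389386196071598838855992136870091590247882556497166032885768775485316605816066561707110635143168)
/-- `minus the offsets of the nine slots, modulo 2 ^ 2304` -/
def CP : Nat := (nat_lit 3742053650892133432367999773491091101939075056004859113419662228152790137828478732663195771216614764844602393765757242141300414971863604624276116065171788121734563282113451971553036322613323663361527870872334698395750081508448094604852397981101953494341450203032990537959070002547833587079256558477283808273272782702436293412063928456379000077474988366310672347911707571205921427796077968411848705653939830935899808685460052632125565162098113174899009086283515943041494533063176740878883204733526018030834231133467945435944914564920777188973397495198879822434602216598348483748223544247680229114776786532491524137709336888930788283780937639483590032019934437112166979103658008291225102473756672)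
/-- `offset 2 ^ 255 in the nine slots` -/
def SC1 : Nat := (nat_lit 1871026825446066716183999886769161229612964411763787934673629221857388127239586241236997880575614864626694998997878668093460198064341887307173708030584713089751434338833145753991855834341641635817078791323944486323653560896858453107221646736647080365267476951252133001328457872097694522420600377928767186716688278330708865686161029267144657449407487701311690973716443035965661022999314253327687828776410995801788781156965587263609715326599328293187017518987303885722372280682885301503915558342964973492047287451599068995659787742790895207638722168769866005616869112421885399924975074859139562836571418106717640748641020347763944440483085523393832772204956743819877359460055035121445025236385792)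
/-- `- 2 ^ 160, modulo 2 ^ 2304` -/
def CO : Nat := (nat_lit 3742053650892133432367999773538322459225928823527575869347258443714776254479140165467924450143929014376701328043796892084250680644651644268919891406030558009514559848402392186697349032657288467726728117428485865736692545611669179323917560467904459270003565249200768855069969069462910188335948939853235385655600614050799627402904169955617680686939217306230732743306013312855692685442723231659949822010462888578091073832552856131420378840703853686445535243055462767679945780563431553986820134725467051353840270015201262955847832589866641019681571016376279703475133297517542073557917754709550486937454822846451632280550418910946262563991699255138478726354745035758685418297148926929108800152535040)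
/-- `2 ^ 160 X` -/
def OX : Nat := (nat_lit 169230328010303641331690318856389386196071598838855992136870091590247882556495704531248437872567112920983350278405979725889536)
/-- `20 * 2 ^ 48` -/
def D20 : Nat := (nat_lit 5629499534213120)
/-- `2 ^ 200` -/
def B200 : Nat := (nat_lit 1606938044258990275541962092341162602522202993782792835301376)
/-- `2 ^ 110` -/
def B110 : Nat := (nat_lit 1298074214633706907132624082305024)

/-! ### models -/

/-- a model with one corner: control values, radius, bound, `|b - a|`, `|c - (a + b)/2|` -/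
structure MP where
  a : Nat
  c : Nat
  b : Nat
  r : Nat
  B : Nat
  d : Nat
  f : Nat

/-- real digit -/
def pr (v : Nat) : Nat := Nat.mod v X1
/-- imaginary digit -/
def pj (v : Nat) : Nat := Nat.div v X1

def dif (u1 u2 v1 v2 : Nat) : Nat := nb2 (absd u1 v1) (absd u2 v2)
/-- `|c - (a + b)/2|` from the digits -/
def sec (ar ai cr ci br bi : Nat) : Nat :=
  Nat.add (Nat.div (dif (Nat.add cr cr) (Nat.add ci ci) (Nat.add ar br) (Nat.add ai bi))
    (nat_lit 2)) (nat_lit 1)
/-- maximum of three numbers -/
def mx3 (x y z : Nat) : Nat := mx x (mx y z)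
/-- bound of the three controls from the digits -/
def bd (ar ai cr ci br bi : Nat) : Nat := mx3 (dif ar ai OO OO) (dif cr ci OO OO) (dif br bi OO OO)

def mk4 (a c b r B d f : Nat) : MP :=
  Bool.rec (motive := fun _ => MP) ⟨ZZ, ZZ, ZZ, Nat.add r B, nat_lit 0, nat_lit 0, nat_lit 0⟩
    ⟨a, c, b, r, B, d, f⟩ (Nat.ble B B100)
def mk2 (a c b r ar ai cr ci br bi : Nat) : MP :=
  mk4 a c b r (bd ar ai cr ci br bi) (dif br bi ar ai) (sec ar ai cr ci br bi)
def mkP (a c b r : Nat) : MP := mk2 a c b r (pr a) (pj a) (pr c) (pj c) (pr b) (pj b)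

/-! ### linear operations -/

def av (u v : Nat) : Nat := Nat.sub (Nat.add u v) ZZ
def sv (u v : Nat) : Nat := Nat.sub (Nat.add u ZZ) v
def cjv (v : Nat) : Nat := Nat.sub (Nat.add (Nat.add (pr v) (pr v)) CJ) v
def addP (x y : MP) : MP := mkP (av x.a y.a) (av x.c y.c) (av x.b y.b) (Nat.add x.r y.r)
def subP (x y : MP) : MP := mkP (sv x.a y.a) (sv x.c y.c) (sv x.b y.b) (Nat.add x.r y.r)
def cjP (x : MP) : MP := ⟨cjv x.a, cjv x.c, cjv x.b, x.r, x.B, x.d, x.f⟩
def rv (v : Nat) : Nat := Nat.add (pr v) OX
def jv (v : Nat) : Nat := Nat.add (pj v) OX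
def reP (x : MP) : MP := ⟨rv x.a, rv x.c, rv x.b, x.r, x.B, x.d, x.f⟩
def imP (x : MP) : MP := ⟨jv x.a, jv x.c, jv x.b, x.r, x.B, x.d, x.f⟩
def wdP (e : Nat) (x : MP) : MP := ⟨x.a, x.c, x.b, Nat.add x.r e, x.B, x.d, x.f⟩
def nbP (x : MP) : Nat := Nat.add x.B x.r

/-! ### products -/

/-- residue modulo `X ^ 2 + 1` -/
def gz (v : Nat) : Nat := Nat.add v CG
/-- residue of `b - a` -/
def gd (a b : Nat) : Nat := Nat.sub (Nat.add b MG) a
/-- rounding of a product at an end -/
def me (s : Nat) : Nat := Nat.land (Nat.shiftRight (Nat.mod (Nat.add s O8) MG) (nat_lit 48)) MK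
/-- rounding of `s - e / 4` -/
def mc (s e : Nat) : Nat :=
  Nat.land (Nat.shiftRight (Nat.mod (Nat.add (Nat.add (Nat.mul (nat_lit 4) s) (Nat.mul NG1 e)) O10)
    MG) (nat_lit 50)) MK

def rA (x y : MP) : Nat := Nat.add (Nat.mul x.r y.B) (Nat.mul y.r (Nat.add x.B x.r))
def rB (x y : MP) : Nat := Nat.add (Nat.mul x.d y.f) (Nat.mul x.f y.d)
def rC (x y : MP) : Nat := Nat.mul x.f y.f
/-- `(p + q / 10 + s / 4) / 2 ^ 48`, rounded up -/
def rF (p q s : Nat) : Nat :=
  Nat.add (Nat.div (Nat.add (Nat.mul (nat_lit 20) p) (Nat.add (Nat.mul (nat_lit 2) q)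
    (Nat.mul (nat_lit 5) s))) D20) (nat_lit 1)
def m1 (x y : Nat) : Nat := Nat.mul (gz x) (gz y)
def mulP (x y : MP) : MP :=
  mkP (me (m1 x.a y.a)) (mc (m1 x.c y.c) (Nat.mul (gd x.a x.b) (gd y.a y.b))) (me (m1 x.b y.b))
    (Nat.add (rF (rA x y) (rB x y) (rC x y)) (nat_lit 2))

def s3 (x y z : Nat) : Nat := Nat.add x (Nat.add y z)
def d3 (x y z a b c : Nat) : Nat := s3 (m1 x a) (m1 y b) (m1 z c)
/-- `x a + y b + z c` -/
def dotP (x y z a b c : MP) : MP :=
  mkP (me (d3 x.a y.a z.a a.a b.a c.a))
    (mc (d3 x.c y.c z.c a.c b.c c.c)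
      (s3 (Nat.mul (gd x.a x.b) (gd a.a a.b)) (Nat.mul (gd y.a y.b) (gd b.a b.b))
        (Nat.mul (gd z.a z.b) (gd c.a c.b))))
    (me (d3 x.b y.b z.b a.b b.b c.b))
    (Nat.add (rF (s3 (rA x a) (rA y b) (rA z c)) (s3 (rB x a) (rB y b) (rB z c))
      (s3 (rC x a) (rC y b) (rC z c))) (nat_lit 2))

/-! ### constants and conversions -/

def zoP (n : Nat) : Nat := Nat.add OO n
def zoM (n : Nat) : Nat := Nat.sub OO n
/-- digit of a signed integer -/
def zo (x : Z) : Nat := Z.rec (motive := fun _ => Nat) zoP zoM x
def cx (x : Cx) : Nat := Nat.add (zo x.re) (Nat.mul X1 (zo x.im))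
/-- a constant -/
def csP1 (v B : Nat) : MP := mk4 v v v (nat_lit 0) B (nat_lit 0) (nat_lit 0)
def csP (x : Cx) : MP := csP1 (cx x) (nb x)
def ofC (x : C3) (r B : Nat) : MP :=
  Bool.rec (motive := fun _ => MP) ⟨ZZ, ZZ, ZZ, Nat.add r B, nat_lit 0, nat_lit 0, nat_lit 0⟩
    (mkP (cx x.a) (cx x.c) (cx x.b) r) (Nat.ble B B100)
def hdC (l : List C3) : C3 := List.rec (motive := fun _ => C3) zero3 (fun x _ _ => x) l
/-- from the models of `Ker` -/
def ofM (x : Mo) : MP := ofC (hdC x.v) x.r x.B

/-! ### reciprocal -/

/-- a digit of the quotient -/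
def qd (P n k : Nat) : Nat := Nat.sub (Nat.add (Nat.div (Nat.mul P U48) n) OO) k
def quo2 (t n k : Nat) : Nat := Nat.add (qd (pr t) n k) (Nat.mul X1 (qd (pj t) n k))
def quo1 (t n : Nat) : Nat := quo2 t n (Nat.div X1 n)
/-- about `y / x` -/
def quo (y x : Nat) : Nat :=
  quo1 (Nat.mod (Nat.add (m1 y (cjv x)) O8) MG)
    (Nat.add (Nat.mul (absd (pr x) OO) (absd (pr x) OO)) (Nat.mul (absd (pj x) OO) (absd (pj x) OO)))
/-- `D D' / 4` -/
def q4 (x y : Nat) : Nat :=
  Nat.land (Nat.shiftRight (Nat.mod (Nat.add (Nat.mul x y) O10) MG) (nat_lit 50)) MK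
def inv0b (x : MP) (ia ib : Nat) : MP :=
  mkP ia (quo (Nat.add (q4 (gd x.a x.b) (gd ia ib)) U48) x.c) ib (nat_lit 0)
def inv0P (x : MP) : MP := inv0b x (quo Z1 x.a) (quo Z1 x.b)

/-- bound of three controls -/
def bv (a c b : Nat) : Nat := bd (pr a) (pj a) (pr c) (pj c) (pr b) (pj b)
/-- the residual of `f g = 1` -/
def res1P (x y : MP) : Nat :=
  Nat.add (bv (Nat.sub (me (m1 x.a y.a)) U48)
    (Nat.sub (mc (m1 x.c y.c) (Nat.mul (gd x.a x.b) (gd y.a y.b))) U48)
    (Nat.sub (me (m1 x.b y.b)) U48)) (nat_lit 2)
def etaP (x y : MP) : Nat :=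
  Nat.add (res1P x y) (rF (Nat.mul x.r y.B) (rB x y) (rC x y))
def inv1P (x y : MP) : MP :=
  ⟨y.a, y.c, y.b, Nat.add (Nat.div (Nat.mul (etaP x y) y.B) (Nat.sub U48 (etaP x y))) (nat_lit 1),
    y.B, y.d, y.f⟩
def invP (x : MP) : MP := inv1P x (inv0P x)
def okP (x : MP) : Bool := Nat.ble (etaP x (inv0P x)) (nat_lit 140737488355328)

/-! ### packed Hermitian forms -/

/-- packed Hermitian form: control values (nine slots of 256 bits, modulo `2 ^ 2304`; four times
the middle one), `b - a`, bounds, radii, `f`, `d` (six slots) -/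
structure HP where
  a : Nat
  c : Nat
  b : Nat
  d : Nat
  VB : Nat
  Vr : Nat
  Vf : Nat
  Vd : Nat
  ok : Bool

/-- `x + X y` -/
def hx (x y : Nat) : Nat := Nat.add x (Nat.mul X1 y)
/-- `x + X ^ 2 y` -/
def hy (x y : Nat) : Nat := Nat.add x (Nat.mul NG1 y)
def pc (a b c x y w : Nat) : Nat := Nat.add (hx a (hx b (hx c (hy x (hy y w))))) CP
def v6 (a b c x y w : Nat) : Nat := hx a (hx b (hx c (hx x (hx y w))))
def s6 (a b c x y w : Nat) : Nat := Nat.add (Nat.add (Nat.add a b) c) (Nat.add (Nat.add x y) w)
/-- six models of a Hermitian matrix, `00 11 22 01 02 12` -/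
structure HQ where
  a : MP
  b : MP
  c : MP
  x : MP
  y : MP
  w : MP
def pk2 (a c b : Nat) (h : HQ) : HP :=
  ⟨a, Nat.mul (nat_lit 4) c, b, md (Nat.add b (Nat.mul NG a)),
    v6 h.a.B h.b.B h.c.B h.x.B h.y.B h.w.B, v6 h.a.r h.b.r h.c.r h.x.r h.y.r h.w.r,
    v6 h.a.f h.b.f h.c.f h.x.f h.y.f h.w.f, v6 h.a.d h.b.d h.c.d h.x.d h.y.d h.w.d,
    Nat.ble (Nat.add (s6 h.a.r h.b.r h.c.r h.x.r h.y.r h.w.r)
      (Nat.add (s6 h.a.f h.b.f h.c.f h.x.f h.y.f h.w.f) (s6 h.a.d h.b.d h.c.d h.x.d h.y.d h.w.d))) B110⟩
def pkP (h : HQ) : HP :=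
  pk2 (pc (pr h.a.a) (pr h.b.a) (pr h.c.a) h.x.a h.y.a h.w.a)
    (pc (pr h.a.c) (pr h.b.c) (pr h.c.c) h.x.c h.y.c h.w.c)
    (pc (pr h.a.b) (pr h.b.b) (pr h.c.b) h.x.b h.y.b h.w.b) h

/-! ### the test `Σ s H ≥ 0` -/

/-- a real scalar and a form -/
structure SP where
  s : MP
  h : HP

/-- sums: controls, `20 *` radii, sizes of the scalars -/
structure AC where
  a : Nat
  c : Nat
  b : Nat
  R : Nat
  S : Nat
  ok : Bool

def ac0 : AC := ⟨nat_lit 0, nat_lit 0, nat_lit 0, nat_lit 0, nat_lit 0, true⟩
/-- radii of a term; bounds of the real scalar -/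
def rt (r B d f : Nat) (h : HP) : Nat :=
  Nat.add (Nat.add (Nat.mul (Nat.mul (nat_lit 20) r) h.VB)
      (Nat.mul (Nat.mul (nat_lit 20) (Nat.add B r)) h.Vr))
    (Nat.add (Nat.mul (Nat.add (Nat.mul (nat_lit 2) d) (Nat.mul (nat_lit 5) f)) h.Vf)
      (Nat.mul (Nat.mul (nat_lit 2) f) h.Vd))
def st4 (a c b r B d f : Nat) (h : HP) (z : AC) : AC :=
  ⟨Nat.add (Nat.mul (Nat.add a CO) h.a) z.a,
    Nat.add (Nat.add (Nat.mul (Nat.add c CO) h.c) (Nat.mul (Nat.sub (Nat.add a MM) b) h.d)) z.c,
    Nat.add (Nat.mul (Nat.add b CO) h.b) z.b,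
    Nat.add (rt r B d f h) z.R,
    Nat.add (Nat.add (Nat.add r B) (Nat.add d f)) z.S, andB h.ok z.ok⟩
def st3 (a c b r d f : Nat) (h : HP) (z : AC) : AC :=
  st4 a c b r (mx3 (absd a OO) (absd c OO) (absd b OO)) d f h z
def st2 (a c b r : Nat) (h : HP) (z : AC) : AC :=
  st3 a c b r (absd b a) (Nat.add (Nat.div (absd (Nat.add c c) (Nat.add a b)) (nat_lit 2)) (nat_lit 1)) h z
def st1 (x : SP) (z : AC) : AC := st2 (pr x.s.a) (pr x.s.c) (pr x.s.b) x.s.r x.h z
def sumT (l : List SP) : AC := List.rec (motive := fun _ => AC) ac0 (fun x _ ih => st1 x ih) l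

/-- scales of the basis -/
structure D3 where
  x : Nat
  y : Nat
  z : Nat

/-- digit `k` of the radii, divided by 20 and rounded up -/
def dg (R k : Nat) : Nat :=
  Nat.add (Nat.div (Nat.mod (Nat.shiftRight R k) X1) (nat_lit 20)) (nat_lit 1)
/-- `r d / d'` rounded up -/
def wr (r d d' : Nat) : Nat := Nat.add (Nat.div (Nat.mul r d) d') (nat_lit 1)
def tp (A C B R : Nat) : Bool :=
  andB (psd (md (Nat.add (Nat.add A SC1) (Nat.mul NG R))))
    (andB (psd (md (Nat.add (Nat.add B SC1) (Nat.mul NG R))))
      (psd (md (Nat.add (Nat.add C SC1) (Nat.mul NG (Nat.mul (nat_lit 4) R))))))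
def tq3 (A C B x y z : Nat) : Bool :=
  andB (Nat.ble (Nat.add (Nat.add x y) z) B200) (tp A C B (hx x (hx y z)))
def tq2 (d : D3) (A C B a b c x y w : Nat) : Bool :=
  tq3 A C B (Nat.add (Nat.add a (wr x d.x d.y)) (wr y d.x d.z))
    (Nat.add (Nat.add b (wr x d.y d.x)) (wr w d.y d.z))
    (Nat.add (Nat.add c (wr y d.z d.x)) (wr w d.z d.y))
def tq1 (d : D3) (A C B R : Nat) : Bool :=
  tq2 d A C B (dg R (nat_lit 0)) (dg R (nat_lit 256)) (dg R (nat_lit 512)) (dg R (nat_lit 768)) (dg R (nat_lit 1024)) (dg R (nat_lit 1280))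
def dOK (d : D3) : Bool :=
  andB (Nat.ble (nat_lit 1) d.x) (andB (Nat.ble (nat_lit 1) d.y) (Nat.ble (nat_lit 1) d.z))
def ltz (d : D3) (z : AC) : Bool :=
  andB z.ok (andB (Nat.ble z.S B100) (andB (dOK d) (tq1 d z.a z.c z.b z.R)))
def ltP (d : D3) (l : List SP) : Bool := ltz d (sumT l)

end Pool.Agent.Helper84.KNP
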