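import Pool.Agent.Helper84.KNP.KD
import Pool.Agent.Helper57.KNB.KA1
import Pool.Agent.Helper39.CX.NCK

/-!
Row KNP, kernel side of the families: the packed arithmetic as an instance of `Ar`, packed
matrices with complex scalars, and the test of a family of type A of one wall of an exact class.
-/

set_option autoImplicit false
noncomputable section
namespace Pool.Agent.Helper84.KNP

open Pool.Agent.Helper86.C75 (Z)
open Pool.Agent.Helper86.CX hiding gM
open Pool.Agent.Helper57.KNB (Ar H6 F9 SH AI LD FCg mkFg sG gG ptM dsq c0 c1 c2 dbl neg cR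
  mul9 ct9 XF up cg m48 segG)
open Pool.Agent.Helper39.KNF (C9 FD QT l3 M6 mkX)

/-! ### the instance -/

def qh (h : H6 MP) : HP := pkP ⟨h.a, h.b, h.c, h.x, h.y, h.w⟩
def sumS (l : List (SH MP HP)) : AC :=
  List.rec (motive := fun _ => AC) ac0 (fun x _ ih => st1 ⟨x.s, x.h⟩ ih) l
def ltS (d : Pool.Agent.Helper57.KNB.D3) (l : List (SH MP HP)) : Bool :=
  ltz ⟨d.x, d.y, d.z⟩ (sumS l)
/-- the control value as a complex integer -/
def dcx (v : Nat) : Cx := ⟨Z.sub (Z.p (pr v)) (Z.p OO), Z.sub (Z.p (pj v)) (Z.p OO)⟩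
def ctlP (x : MP) : List Cx := [dcx x.a, dcx x.c, dcx x.b]
def rdP (x : MP) : Nat := x.r

/-- THE PACKED ARITHMETIC -/
def arP : Ar MP HP :=
  ⟨addP, subP, mulP, cjP, reP, imP, invP, okP, csP, wdP, nbP, rdP, ctlP, dotP, qh, ltS⟩

/-- the coefficient of the unit matrix -/
def rAg (C : FCg MP) (a : MP) : MP := Pool.Agent.Helper57.KNB.rA arP C a

/-! ### packed matrices -/

/-- `2 ^ 162` -/
def O4 : Nat := (nat_lit 5846006549323611672814739330865132078623730171904)
/-- minus the offsets `2 ^ 161` of the nine slots, modulo `2 ^ 2304` -/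
def CP2 : Nat := (nat_lit 3742053650892133432367999773443859744652221288482142357492066012590804021177817299858467092289300515312503459487717592198350149299075564979632340724313018233954566715824511756408723612569358858996327624316183531054807617405227009885787235494299447718679335156865212220848170935632756985822564177101332230890944951354072959421223686957140319468010759426390611952517401829556150170149432705163747589297416773293708543538367249132830751483492372663352482929511569118403043285562921927770946274741584984707828192251734627916041996539974913358265223974021479941394071135679154893938529333785809971292098750218531415994868254866915314003570176023828699876183486507562730336225334373370321748862435328)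

/-- a packed matrix `G`: `G + G*` and `i G + (i G)*`: controls (four times the middle one),
`b - a`; bounds, radii, `f`, `d` (six slots, sums over the two entries) -/
structure HC where
  a : Nat
  c : Nat
  b : Nat
  d : Nat
  a' : Nat
  c' : Nat
  b' : Nat
  d' : Nat
  VB : Nat
  Vr : Nat
  Vf : Nat
  Vd : Nat
  ok : Bool

def hd (g : Nat) : Nat := Nat.add (pr g) (pr g)
def sd (g : Nat) : Nat := Nat.sub (Nat.sub O4 (pj g)) (pj g)
def ho (g g' : Nat) : Nat := Nat.add g (cjv g')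
def so (g g' : Nat) : Nat :=
  Nat.add (Nat.sub (Nat.sub O4 (pj g)) (pj g')) (Nat.mul X1 (Nat.sub (Nat.add (pr g) O1) (pr g')))
def pc2 (a b c x y w : Nat) : Nat := Nat.add (hx a (hx b (hx c (hy x (hy y w))))) CP2
/-- a control of `G + G*`: entries `00 11 22 01 10 02 20 12 21` -/
def hp (a b c x x' y y' w w' : Nat) : Nat :=
  pc2 (hd a) (hd b) (hd c) (ho x x') (ho y y') (ho w w')
/-- a control of `i G + (i G)*` -/
def sp (a b c x x' y y' w w' : Nat) : Nat :=
  pc2 (sd a) (sd b) (sd c) (so x x') (so y y') (so w w')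
/-- `b - a` -/
def dfm (a b : Nat) : Nat := md (Nat.add b (Nat.mul NG a))
/-- four times -/
def fou (c : Nat) : Nat := Nat.mul (nat_lit 4) c
def pg3 (a c b a' c' b' : Nat) (VB Vr Vf Vd : Nat) (ok : Bool) : HC :=
  ⟨a, fou c, b, dfm a b, a', fou c', b', dfm a' b', VB, Vr, Vf, Vd, ok⟩
/-- six sums -/
def g6 (f : MP → Nat) (G : F9 MP) : Nat :=
  v6 (Nat.add (f G.a) (f G.a)) (Nat.add (f G.e) (f G.e)) (Nat.add (f G.i) (f G.i))
    (Nat.add (f G.b) (f G.d)) (Nat.add (f G.c) (f G.g)) (Nat.add (f G.f) (f G.h))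
def t6 (f : MP → Nat) (G : F9 MP) : Nat :=
  s6 (Nat.add (f G.a) (f G.a)) (Nat.add (f G.e) (f G.e)) (Nat.add (f G.i) (f G.i))
    (Nat.add (f G.b) (f G.d)) (Nat.add (f G.c) (f G.g)) (Nat.add (f G.f) (f G.h))
def fB (x : MP) : Nat := x.B
def fr (x : MP) : Nat := x.r
def ff (x : MP) : Nat := x.f
def fd (x : MP) : Nat := x.d
/-- PACKING OF A MATRIX -/
def pgP (G : F9 MP) : HC :=
  pg3 (hp G.a.a G.e.a G.i.a G.b.a G.d.a G.c.a G.g.a G.f.a G.h.a)
    (hp G.a.c G.e.c G.i.c G.b.c G.d.c G.c.c G.g.c G.f.c G.h.c)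
    (hp G.a.b G.e.b G.i.b G.b.b G.d.b G.c.b G.g.b G.f.b G.h.b)
    (sp G.a.a G.e.a G.i.a G.b.a G.d.a G.c.a G.g.a G.f.a G.h.a)
    (sp G.a.c G.e.c G.i.c G.b.c G.d.c G.c.c G.g.c G.f.c G.h.c)
    (sp G.a.b G.e.b G.i.b G.b.b G.d.b G.c.b G.g.b G.f.b G.h.b)
    (g6 fB G) (g6 fr G) (g6 ff G) (g6 fd G)
    (Nat.ble (Nat.add (t6 fr G) (Nat.add (t6 ff G) (t6 fd G))) B110)

/-! ### a term with a complex scalar -/

def rt2 (r B d f VB Vr Vf Vd : Nat) : Nat :=
  Nat.add (Nat.add (Nat.mul (Nat.mul (nat_lit 20) r) VB)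
      (Nat.mul (Nat.mul (nat_lit 20) (Nat.add B r)) Vr))
    (Nat.add (Nat.mul (Nat.add (Nat.mul (nat_lit 2) d) (Nat.mul (nat_lit 5) f)) Vf)
      (Nat.mul (Nat.mul (nat_lit 2) f) Vd))
def sc4 (xa xc xb ya yc yb r B d f : Nat) (h : HC) (z : AC) : AC :=
  ⟨Nat.add (Nat.add (Nat.mul (Nat.add xa CO) h.a) (Nat.mul (Nat.add ya CO) h.a')) z.a,
    Nat.add (Nat.add
      (Nat.add (Nat.mul (Nat.add xc CO) h.c) (Nat.mul (Nat.sub (Nat.add xa MM) xb) h.d))
      (Nat.add (Nat.mul (Nat.add yc CO) h.c') (Nat.mul (Nat.sub (Nat.add ya MM) yb) h.d'))) z.c,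
    Nat.add (Nat.add (Nat.mul (Nat.add xb CO) h.b) (Nat.mul (Nat.add yb CO) h.b')) z.b,
    Nat.add (rt2 r B d f h.VB h.Vr h.Vf h.Vd) z.R,
    Nat.add (Nat.add (Nat.add r B) (Nat.add d f)) z.S, andB h.ok z.ok⟩
/-- `s G + (s G)*` -/
def stc (s : MP) (h : HC) (z : AC) : AC :=
  sc4 (pr s.a) (pr s.c) (pr s.b) (pj s.a) (pj s.c) (pj s.b) s.r s.B s.d s.f h z

/-! ### the test of a family -/

/-- the matrices of a family `N + a Q + r B`, and `E` -/
structure HG where
  h00 : HP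
  h11 : HP
  h22 : HP
  e : HP
  g01 : HC
  g02 : HC
  g12 : HC

def mkG2 (cn cq cp xn xq xp : F9 MP) (e : H6 MP) : HG :=
  ⟨qh (up (mul9 arP cn xn)), qh (up (mul9 arP cq xq)), qh (up (mul9 arP cp xp)), qh e,
    pgP (mul9 arP cn xq), pgP (mul9 arP cn xp), pgP (mul9 arP cq xp)⟩
def mkG1 (X : H6 MP) (N Q B : F9 MP) (e : H6 MP) : HG :=
  mkG2 (ct9 arP N) (ct9 arP Q) (ct9 arP B) (XF arP X N) (XF arP X Q) (XF arP X B) e
def mkG (X E : H6 MP) (C : FCg MP) (B : F9 MP) : HG :=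
  mkG1 X (mul9 arP C.n2 B) (mul9 arP C.n1 B) B (cg arP B E)

/-- `X00 + n X11 + n2 X22 + 2 Re (a X01 + r X02 + ar X12) - lam E` -/
def tG (d : D3) (H : HG) (n n2 a r ar lam : MP) : Bool :=
  ltz d (st1 ⟨c1 arP, H.h00⟩ (st1 ⟨n, H.h11⟩ (st1 ⟨n2, H.h22⟩ (st1 ⟨neg arP lam, H.e⟩
    (stc a H.g01 (stc r H.g02 (stc ar H.g12 ac0)))))))

/-- the multiplier of a test -/
def lP (q : QT) : MP :=
  ofC (l3 q.s q.t) (nat_lit 0) (Nat.mul (nat_lit 16777216) (Nat.add q.s q.t))
def dP (q : QT) : D3 := ⟨q.d0, q.d1, q.d2⟩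

def tQ1 (H : HG) (a r : MP) (q : QT) : Bool :=
  tG (dP q) H (mulP a (cjP a)) (mulP r (cjP r)) a r (mulP (cjP a) r) (lP q)
/-- powers `0, 1, ..` -/
def tQs (C : FCg MP) (H : HG) (c : MP) (L : List QT) : MP → Bool :=
  List.rec (motive := fun _ => MP → Bool) (fun _ => true)
    (fun q _ ih a => andB (tQ1 H a (rAg C a) q) (andB (okP (addP (c1 arP) a))
      (ih (subP (c1 arP) (mulP c (invP (addP (c1 arP) a))))))) L

/-! ### polygons -/

def mxN (a b : Nat) : Nat := Nat.add a (Nat.sub b a)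
/-- maximum of `f` -/
def mxV (f : Nat × Nat → Nat) (V : List (Nat × Nat)) : Nat :=
  List.rec (motive := fun _ => Nat) (nat_lit 0) (fun p _ ih => mxN (f p) ih) V
def smV (f : Nat × Nat → Nat) (V : List (Nat × Nat)) : Nat :=
  List.rec (motive := fun _ => Nat) (nat_lit 0) (fun p _ ih => Nat.add (f p) ih) V
def fx (p : Nat × Nat) : Nat := p.1
def fy (p : Nat × Nat) : Nat := p.2
def fo (_ : Nat × Nat) : Nat := (nat_lit 1)
/-- `2 ^ 30` -/
def K30 : Nat := (nat_lit 1073741824)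
def gx (p : Nat × Nat) : Nat := Nat.sub K30 p.1
def gy (p : Nat × Nat) : Nat := Nat.sub K30 p.2
/-- centre of the bounding interval -/
def ctr (hi lo : Nat) : Nat := Nat.div (Nat.sub (Nat.add hi K30) lo) (nat_lit 2)
def d2 (cx cy : Nat) (p : Nat × Nat) : Nat := Nat.add (dsq p.1 cx) (dsq p.2 cy)
def sq2 (p : Nat × Nat) : Nat := Nat.add (Nat.mul p.1 p.1) (Nat.mul p.2 p.2)
/-- a Newton step for the square root of `n` -/
def nst (n b : Nat) : Nat := Nat.add (Nat.div (Nat.add b (Nat.div n b)) (nat_lit 2)) (nat_lit 1)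
/-- at least the square root -/
def sqr (n b : Nat) : Nat := nst n (nst n (nst n b))
/-- bound of the coefficient of the unit matrix at a vertex -/
def rbv (C : FCg MP) (p : Nat × Nat) : Nat := nbP (rAg C (ptM arP p.1 p.2))

/-- a vertex; `e`, `f`, `g`: bounds of the deviations -/
def tW1 (H : HG) (x y R e f g rb : Nat) (a r : MP) (q : QT) : Bool :=
  andB (Nat.ble (Nat.add (nbP r) e) rb)
    (tG (dP q) H (wdP R (cR arP (Z.p (Nat.add (Nat.mul x x) (Nat.mul y y)))))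
      (wdP f (mulP r (cjP r))) a (wdP e r) (wdP g (mulP (cjP a) r)) (lP q))
def tW (C : FCg MP) (H : HG) (cx cy R B rb e f g : Nat) (q : QT) (p : Nat × Nat) : Bool :=
  andB (Nat.ble (Nat.add (dsq p.1 cx) (dsq p.2 cy)) R)
    (andB (Nat.ble (Nat.add (Nat.mul p.1 p.1) (Nat.mul p.2 p.2)) (Nat.mul B B))
      (tW1 H p.1 p.2 R e f g rb (ptM arP p.1 p.2) (rAg C (ptM arP p.1 p.2)) q))
def tPv (C : FCg MP) (H : HG) (cx cy R B rb e f g : Nat) (q : QT) (V : List (Nat × Nat)) : Bool :=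
  List.rec (motive := fun _ => Bool) true
    (fun p _ ih => andB (tW C H cx cy R B rb e f g q p) ih) V
def tP4 (C : FCg MP) (H : HG) (V : List (Nat × Nat)) (q : QT) (cx cy R B rb hn e B48 : Nat) :
    Bool :=
  tPv C H cx cy R B rb e (Nat.add (Nat.mul (nat_lit 4) (m48 (m48 hn e) (m48 B48 B48)))
    (Nat.mul (nat_lit 2) (m48 rb e))) (Nat.mul (nat_lit 3) (m48 e B48)) q V
def tP3 (C : FCg MP) (H : HG) (V : List (Nat × Nat)) (q : QT) (cx cy R B e : Nat) : Bool :=
  tP4 C H V q cx cy R B (Nat.add (mxV (rbv C) V) e) (nbP C.h) e (Nat.mul (nat_lit 16777216) B)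
def tP2 (C : FCg MP) (H : HG) (V : List (Nat × Nat)) (q : QT) (cx cy R : Nat) : Bool :=
  tP3 C H V q cx cy R (sqr (mxV sq2 V) (Nat.add (mxV fx V) (mxV fy V))) (m48 (nbP C.h) R)
/-- the better of two centres -/
def tP1 (C : FCg MP) (H : HG) (V : List (Nat × Nat)) (q : QT) (cx cy R cx' cy' R' : Nat) : Bool :=
  Bool.rec (motive := fun _ => Bool) (tP2 C H V q cx' cy' R') (tP2 C H V q cx cy R)
    (Nat.ble R R')
def tP0 (C : FCg MP) (H : HG) (V : List (Nat × Nat)) (q : QT) (cx cy cx' cy' : Nat) : Bool :=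
  tP1 C H V q cx cy (mxV (d2 cx cy) V) cx' cy' (mxV (d2 cx' cy') V)
/-- A POLYGON -/
def tP (C : FCg MP) (H : HG) (V : List (Nat × Nat)) (q : QT) : Bool :=
  tP0 C H V q (ctr (mxV fx V) (mxV gx V)) (ctr (mxV fy V) (mxV gy V))
    (Nat.div (smV fx V) (smV fo V)) (Nat.div (smV fy V) (smV fo V))
def tPs (C : FCg MP) (H : HG) (Vs : List (List (Nat × Nat))) : List QT → Bool :=
  List.rec (motive := fun _ => List QT → Bool) (fun _ => true)
    (fun V _ ih l => List.rec (motive := fun _ => Bool) false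
      (fun q t _ => andB (tP C H V q) (ih t)) l) Vs
/-- all multipliers are positive -/
def posL (L : List QT) : Bool :=
  List.rec (motive := fun _ => Bool) true
    (fun q _ ih => andB (Nat.ble (nat_lit 1) q.s) (andB (Nat.ble (nat_lit 1) q.t) ih)) L

/-! ### one wall -/

def f6 (K : M6) : H6 MP := ⟨ofM K.a, ofM K.b, ofM K.c, ofM K.x, ofM K.y, ofM K.w⟩
def f9 (B : C9) : F9 MP :=
  ⟨csP B.a, csP B.b, csP B.c, csP B.d, csP B.e, csP B.f, csP B.g, csP B.h, csP B.i⟩

def fP6 (D : FD) (C : FCg MP) (c : MP) (H : HG) : Bool :=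
  andB (segG (rdP c) D.rho (ctlP c) [D.Ta, D.Tc, D.Tb])
    (andB (tQs C H c D.L (c1 arP)) (tPs C H D.Vs D.lV))
def fP5 (D : FD) (X E : H6 MP) (B : F9 MP) (C : FCg MP) (c : MP) : Bool :=
  andB (okP (Pool.Agent.Helper57.KNB.famG2.det9G arP B)) (fP6 D C c (mkG X E C B))
def fP4 (D : FD) (X E : H6 MP) (B : F9 MP) (S S' g g' ss ee : MP) : Bool :=
  andB (okP ee) (fP5 D X E B (mkFg arP S S' g g' (invP g) ss)
    (mulP (dbl arP (dbl arP ss)) (invP ee)))
def fP3 (D : FD) (X E : H6 MP) (B : F9 MP) (S S' g g' : MP) : Bool :=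
  andB (okP g) (fP4 D X E B S S' g g' (mulP (addP (c1 arP) S) (addP (c1 arP) S'))
    (mulP (addP g (c2 arP)) (addP g' (c2 arP))))
def fP2 (D : FD) (X E : H6 MP) (B : F9 MP) (kk kk' l u z : MP) : Bool :=
  andB (okP kk) (andB (okP kk') (fP3 D X E B (sG arP kk) (sG arP kk') (gG arP l u) (gG arP l z)))
def fP1 (KTs : List K2) (D : FD) (l k k' u z : MP) : Bool :=
  andB (posL D.L) (andB (posL D.lV)
    (fP2 D (f6 (mkX (nat_lit 1) (kfs KTs D.kx))) (f6 (mkX (nat_lit 1) (kfs KTs D.ke))) (f9 D.B)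
      (mulP k k) (mulP k' k') l u z))
/-- THE FAMILY OF ONE WALL (same data as `famW`) -/
def famP (KTs : List K2) (D : FD) (l k k' u z : Mo) : Bool :=
  fP1 KTs D (ofM l) (ofM k) (ofM k') (ofM u) (ofM z)

end Pool.Agent.Helper84.KNP
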