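import Pool.Agent.Helper84.KNP.KS7
import Pool.Agent.Helper84.KNP.KE
import Pool.Agent.Helper57.KNB.KN6

/-!
Row KNP, soundness of the families, part 1: the packed arithmetic is sound.
-/

set_option autoImplicit false
set_option exponentiation.threshold 4000
noncomputable section
namespace Pool.Agent.Helper84.KNP

open Pool.Agent.Helper86.C75 (Z)
open Pool.Agent.Helper86.CX hiding gM
open Pool.Agent.Helper17
open Pool.Agent.Helper17.PAK (andB_iff)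
open Pool.Agent.Helper90.KMO (zv cz UU UU_pos zv_sub zv_p c_add c_mul)
open Pool.Agent.Helper90.C75
open Pool.Agent.Helper57.KNB (Ar ArS HOK SOK FOK H6 F9 SH)
open Complex ComplexConjugate

variable {t : ℝ}

theorem cz_dcx (v : ℕ) : cz (dcx v) = dc v := by
  have hO : ((OO : ℕ) : ℤ) = 2 ^ 160 := by
    rw [OO_eq, Nat.cast_pow, Nat.cast_ofNat]
  apply Complex.ext
  · show ((zv (Z.sub (Z.p (pr v)) (Z.p OO)) : ℤ) : ℝ) = _
    rw [zv_sub, zv_p, zv_p, hO]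
    rfl
  · show ((zv (Z.sub (Z.p (pj v)) (Z.p OO)) : ℤ) : ℝ) = _
    rw [zv_sub, zv_p, zv_p, hO]
    rfl

theorem PK.ctl (h0 : 0 ≤ t) (h1 : t ≤ 1) {f : ℂ} {P : MP} (hf : PK t f P) :
    ∃ q ∈ convexHull ℝ {z : ℂ | ∃ c ∈ ctlP P, z = cz c}, ‖(UU : ℂ) * f - q‖ ≤ rdP P := by
  have hb := Wts.bt h0 h1
  refine ⟨avg (bt t) (F3 P.a P.c P.b), ?_, hf.mod⟩
  have e : avg (bt t) (F3 P.a P.c P.b) = ∑ i, bt t i • F3 P.a P.c P.b i := by
    unfold avg
    refine Finset.sum_congr rfl fun i _ => ?_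
    rw [Complex.real_smul]
  rw [e]
  refine (convex_convexHull ℝ _).sum_mem (fun i _ => hb.nonneg i) hb.sum fun i _ => ?_
  refine subset_convexHull ℝ _ ?_
  fin_cases i
  · exact ⟨dcx P.a, by simp [ctlP], (cz_dcx _).symm⟩
  · exact ⟨dcx P.c, by simp [ctlP], (cz_dcx _).symm⟩
  · exact ⟨dcx P.b, by simp [ctlP], (cz_dcx _).symm⟩

theorem HKp.qh {K : Hm ℝ} {h : H6 MP} (hK : HOK (PK t) K h) : HKp t K (KNP.qh h) :=
  HKp.pk (h := ⟨h.a, h.b, h.c, h.x, h.y, h.w⟩) ⟨hK.a, hK.b, hK.c, hK.x, hK.y, hK.w⟩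

theorem sumS_eq (l : List (SH MP HP)) : sumS l = sumT (l.map fun x => ⟨x.s, x.h⟩) := by
  induction l with
  | nil => rfl
  | cons x l ih =>
    show st1 ⟨x.s, x.h⟩ (sumS l) = st1 ⟨x.s, x.h⟩ (sumT _)
    rw [ih]

/-- THE PACKED ARITHMETIC IS SOUND -/
theorem arP_ok (h0 : 0 ≤ t) (h1 : t ≤ 1) : ArS arP (PK t) (HKp t) where
  add := PK.add h0 h1
  sub := PK.sub h0 h1
  mul := PK.mul h0 h1
  cj := PK.cj
  re := PK.re
  im := PK.im
  inv := fun hf hok => PK.inv h0 h1 hf hok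
  cs := PK.cs h0 h1
  wd := PK.wd
  nb := PK.nb h0 h1
  ctl := PK.ctl h0 h1
  dot := PK.dot h0 h1
  pk := HKp.qh
  lt := by
    intro d l p h ht v
    have h2 : List.Forall₂ (fun (p : ℝ × Hm ℝ) (q : SP) => PK t (p.1 : ℂ) q.s ∧ HKp t p.2 q.h) p
        (l.map fun x => ⟨x.s, x.h⟩) := by
      clear ht
      induction h with
      | nil => exact List.Forall₂.nil
      | cons hab _ ih => exact List.Forall₂.cons ⟨hab.s, hab.h⟩ ih
    refine ltP_sound h0 h1 (d := ⟨d.x, d.y, d.z⟩) h2 ?_ v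
    show ltz ⟨d.x, d.y, d.z⟩ (sumT _) = true
    rw [← sumS_eq]
    exact ht

end Pool.Agent.Helper84.KNP
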