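import Pool.Agent.Helper84.KNP.KG1

/-!
Row KNP, soundness of the families, part 2: packed matrices.
-/

set_option autoImplicit false
set_option exponentiation.threshold 4000
noncomputable section
namespace Pool.Agent.Helper84.KNP

open Pool.Agent.Helper86.C75 (Z)
open Pool.Agent.Helper86.CX hiding gM
open Pool.Agent.Helper17
open Pool.Agent.Helper17.PAK (pk9 addH smulH idH cstH Bd rep_NG MM_eq)
open Pool.Agent.Helper90.KMO (zv cz UU UU_pos c_add c_mul)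
open Pool.Agent.Helper90.C75
open Pool.Agent.Helper57.KNB (F9 FOK M3)
open Complex ComplexConjugate

variable {t : ℝ}

/-! ### digits with the offset `2 ^ 161` -/

theorem CP2_rep : PAK.Rep MM CP2 (pk9 (2 ^ 256) (cstH (-2 ^ 161))) := by
  unfold PAK.Rep Int.ModEq
  decide +kernel

theorem O4_eq : O4 = 2 ^ 162 := by decide +kernel
theorem O1_eq : O1 = 2 ^ 161 := by decide +kernel

/-- `n` has the digits `x`, `y` with the offset `2 ^ 161` -/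
def D2 (n : ℕ) (x y : ℤ) : Prop := (n : ℤ) = (x + 2 ^ 161) + 2 ^ 256 * (y + 2 ^ 161)

theorem pc2_rep {a b c x y w : ℕ} {α β γ x0 x1 y0 y1 w0 w1 : ℤ} (ha : (a : ℤ) = α + 2 ^ 161)
    (hb : (b : ℤ) = β + 2 ^ 161) (hc : (c : ℤ) = γ + 2 ^ 161) (hx' : D2 x x0 x1) (hy' : D2 y y0 y1)
    (hw : D2 w w0 w1) :
    PAK.Rep MM (pc2 a b c x y w) (pk9 (2 ^ 256) ⟨α, β, γ, x0, x1, y0, y1, w0, w1⟩) := by
  have h := (PAK.Rep.nat MM (hx a (hx b (hx c (hy x (hy y w)))))).add CP2_rep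
  have e : ((hx a (hx b (hx c (hy x (hy y w)))) : ℕ) : ℤ) +
      pk9 (2 ^ 256) (cstH (-2 ^ 161)) = pk9 (2 ^ 256) ⟨α, β, γ, x0, x1, y0, y1, w0, w1⟩ := by
    rw [hx_eq, hx_eq, hx_eq, hy_eq, hy_eq]
    unfold D2 at hx' hy' hw
    simp only [Nat.cast_add, Nat.cast_mul, Nat.cast_pow, Nat.cast_ofNat]
    rw [ha, hb, hc, hx', hy', hw]
    simp only [pk9, cstH]
    ring
  rw [e] at h
  exact h

theorem pr_z (v : ℕ) : ((pr v : ℕ) : ℤ) = dr v + 2 ^ 160 := by unfold dr; ring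
theorem pj_z (v : ℕ) : ((pj v : ℕ) : ℤ) = dj v + 2 ^ 160 := by unfold dj; ring

theorem hd_z (v : ℕ) : ((hd v : ℕ) : ℤ) = 2 * dr v + 2 ^ 161 := by
  show ((pr v + pr v : ℕ) : ℤ) = _
  rw [Nat.cast_add, pr_z]
  ring

theorem sd_z {v : ℕ} (h : Sm v) : ((sd v : ℕ) : ℤ) = -(2 * dj v) + 2 ^ 161 := by
  obtain ⟨b1, b2, b3, b4⟩ := h.dg
  have e : sd v = 2 ^ 162 - pj v - pj v := by
    show O4 - pj v - pj v = _
    rw [O4_eq]
  rw [e, Nat.cast_sub (by norm_num at *; omega), Nat.cast_sub (by norm_num at *; omega), pj_z]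
  push_cast
  ring

theorem ho_z {u v : ℕ} (hv : Sm v) : D2 (ho u v) (dr u + dr v) (dj u - dj v) := by
  obtain ⟨b1, b2, b3, b4⟩ := hv.dg
  have e : ho u v = u + (pr v + 2 ^ 256 * (2 ^ 161 - pj v)) := by
    have h2 := dg_add v
    show u + (pr v + pr v + CJ - v) = _
    rw [CJ_eq]
    norm_num at *
    omega
  unfold D2
  rw [e]
  have h1 := dg_add u
  have h1' : ((pr u : ℕ) : ℤ) + 2 ^ 256 * ((pj u : ℕ) : ℤ) = u := by exact_mod_cast h1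
  rw [Nat.cast_add, Nat.cast_add, Nat.cast_mul, Nat.cast_sub (by norm_num at *; omega), ← h1',
    pr_z, pr_z, pj_z, pj_z]
  push_cast
  ring

theorem so_z {u v : ℕ} (hu : Sm u) (hv : Sm v) : D2 (so u v) (-(dj u + dj v)) (dr u - dr v) := by
  obtain ⟨a1, a2, a3, a4⟩ := hu.dg
  obtain ⟨b1, b2, b3, b4⟩ := hv.dg
  have e : so u v = (2 ^ 162 - pj u - pj v) + 2 ^ 256 * (pr u + 2 ^ 161 - pr v) := by
    show (O4 - pj u - pj v) + X1 * (pr u + O1 - pr v) = _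
    rw [O4_eq, O1_eq, X1_eq]
  unfold D2
  rw [e, Nat.cast_add, Nat.cast_mul, Nat.cast_sub (by norm_num at *; omega),
    Nat.cast_sub (by norm_num at *; omega), Nat.cast_sub (by norm_num at *; omega), Nat.cast_add,
    pr_z, pr_z, pj_z, pj_z]
  push_cast
  ring

/-! ### entries -/

theorem gc_eq {x y : ℤ} {z : ℂ} (h1 : (x : ℝ) = z.re) (h2 : (y : ℝ) = z.im) : gc x y = z :=
  Complex.ext h1 h2

theorem ent_hd (v : ℕ) : gc (2 * dr v) 0 = dc v + star (dc v) := by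
  apply gc_eq
  · rw [Complex.add_re, Complex.star_def, Complex.conj_re, dc_re]; push_cast; ring
  · rw [Complex.add_im, Complex.star_def, Complex.conj_im]; simp

theorem ent_sd (v : ℕ) : gc (-(2 * dj v)) 0 = I * (dc v - star (dc v)) := by
  apply gc_eq
  · simp [dc_im]; ring
  · simp

theorem ent_ho (u v : ℕ) : gc (dr u + dr v) (dj u - dj v) = dc u + star (dc v) := by
  apply gc_eq
  · simp [dc_re]
  · simp [dc_im]; ring

theorem ent_so (u v : ℕ) : gc (-(dj u + dj v)) (dr u - dr v) = I * (dc u - star (dc v)) := by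
  apply gc_eq
  · simp [dc_im]
  · simp [dc_re]

/-! ### the predicate -/

/-- packed controls -/
structure RP (t : ℝ) (P P' : Fin 6 → MP) (H : HC) (Ha Hc Hb Ka Kc Kb : Hm ℤ) : Prop where
  a : PAK.Rep MM H.a (pk9 (2 ^ 256) Ha)
  c : PAK.Rep MM H.c (pk9 (2 ^ 256) (smulH 4 Hc))
  b : PAK.Rep MM H.b (pk9 (2 ^ 256) Hb)
  d : PAK.Rep MM H.d (pk9 (2 ^ 256) (addH Hb (smulH (-1) Ha)))
  a' : PAK.Rep MM H.a' (pk9 (2 ^ 256) Ka)
  c' : PAK.Rep MM H.c' (pk9 (2 ^ 256) (smulH 4 Kc))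
  b' : PAK.Rep MM H.b' (pk9 (2 ^ 256) Kb)
  d' : PAK.Rep MM H.d' (pk9 (2 ^ 256) (addH Kb (smulH (-1) Ka)))
  ea : ∀ e, ent Ha e = dc (P e).a + star (dc (P' e).a)
  ec : ∀ e, ent Hc e = dc (P e).c + star (dc (P' e).c)
  eb : ∀ e, ent Hb e = dc (P e).b + star (dc (P' e).b)
  ka : ∀ e, ent Ka e = I * (dc (P e).a - star (dc (P' e).a))
  kc : ∀ e, ent Kc e = I * (dc (P e).c - star (dc (P' e).c))
  kb : ∀ e, ent Kb e = I * (dc (P e).b - star (dc (P' e).b))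
  vB : H.VB = v6f fun e => (P e).B + (P' e).B
  vr : H.Vr = v6f fun e => (P e).r + (P' e).r
  vf : H.Vf = v6f fun e => (P e).f + (P' e).f
  vd : H.Vd = v6f fun e => (P e).d + (P' e).d
  ok : H.ok = true → ∀ e, (P e).r + (P' e).r ≤ 2 ^ 110 ∧ (P e).f + (P' e).f ≤ 2 ^ 110 ∧
    (P e).d + (P' e).d ≤ 2 ^ 110

/-- a packed matrix: `U` upper entries, `U'` the transposed ones -/
def HCp (t : ℝ) (U U' : Fin 6 → ℂ) (H : HC) : Prop :=
  ∃ (P P' : Fin 6 → MP) (Ha Hc Hb Ka Kc Kb : Hm ℤ), RP t P P' H Ha Hc Hb Ka Kc Kb ∧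
    (∀ e, PK t (U e) (P e)) ∧ ∀ e, PK t (U' e) (P' e)

def up6 (G : M3) : Fin 6 → ℂ := ![G 0 0, G 1 1, G 2 2, G 0 1, G 0 2, G 1 2]
def lo6 (G : M3) : Fin 6 → ℂ := ![G 0 0, G 1 1, G 2 2, G 1 0, G 2 0, G 2 1]

theorem hp_rep {a b c x x' y y' w w' : ℕ} (hx' : Sm x') (hy' : Sm y') (hw' : Sm w') :
    PAK.Rep MM (hp a b c x x' y y' w w') (pk9 (2 ^ 256) ⟨2 * dr a, 2 * dr b, 2 * dr c,
      dr x + dr x', dj x - dj x', dr y + dr y', dj y - dj y', dr w + dr w', dj w - dj w'⟩) :=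
  pc2_rep (hd_z a) (hd_z b) (hd_z c) (ho_z hx') (ho_z hy') (ho_z hw')

theorem sp_rep {a b c x x' y y' w w' : ℕ} (ha : Sm a) (hb : Sm b) (hc : Sm c) (hx : Sm x)
    (hx' : Sm x') (hy : Sm y) (hy' : Sm y') (hw : Sm w) (hw' : Sm w') :
    PAK.Rep MM (sp a b c x x' y y' w w') (pk9 (2 ^ 256) ⟨-(2 * dj a), -(2 * dj b), -(2 * dj c),
      -(dj x + dj x'), dr x - dr x', -(dj y + dj y'), dr y - dr y', -(dj w + dj w'),
      dr w - dr w'⟩) :=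
  pc2_rep (sd_z ha) (sd_z hb) (sd_z hc) (so_z hx hx') (so_z hy hy') (so_z hw hw')

theorem rep4 {n : ℕ} {N : Hm ℤ} (h : PAK.Rep MM n (pk9 (2 ^ 256) N)) :
    PAK.Rep MM (fou n) (pk9 (2 ^ 256) (smulH 4 N)) := by
  unfold fou
  have h4 := (PAK.Rep.nat MM 4).mul h
  have e4 : ((4 : ℕ) : ℤ) = 4 := rfl
  rw [e4, PAK.pk9_smul] at h4
  exact h4

theorem repd {n m : ℕ} {N M : Hm ℤ} (h : PAK.Rep MM n (pk9 (2 ^ 256) N))
    (h' : PAK.Rep MM m (pk9 (2 ^ 256) M)) :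
    PAK.Rep MM (dfm n m) (pk9 (2 ^ 256) (addH M (smulH (-1) N))) := by
  unfold dfm
  have h5 := (h'.add (rep_NG.mul h)).mod
  rw [PAK.pk9_smul, PAK.pk9_add] at h5
  exact h5

theorem RP.pg3 {P P' : Fin 6 → MP} {Ha Hc Hb Ka Kc Kb : Hm ℤ} {a c b a' c' b' VB Vr Vf Vd : ℕ}
    {ok : Bool} (h1 : PAK.Rep MM a (pk9 (2 ^ 256) Ha)) (h2 : PAK.Rep MM c (pk9 (2 ^ 256) Hc))
    (h3 : PAK.Rep MM b (pk9 (2 ^ 256) Hb)) (k1 : PAK.Rep MM a' (pk9 (2 ^ 256) Ka))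
    (k2 : PAK.Rep MM c' (pk9 (2 ^ 256) Kc)) (k3 : PAK.Rep MM b' (pk9 (2 ^ 256) Kb))
    (ea : ∀ e, ent Ha e = dc (P e).a + star (dc (P' e).a))
    (ec : ∀ e, ent Hc e = dc (P e).c + star (dc (P' e).c))
    (eb : ∀ e, ent Hb e = dc (P e).b + star (dc (P' e).b))
    (ka : ∀ e, ent Ka e = I * (dc (P e).a - star (dc (P' e).a)))
    (kc : ∀ e, ent Kc e = I * (dc (P e).c - star (dc (P' e).c)))
    (kb : ∀ e, ent Kb e = I * (dc (P e).b - star (dc (P' e).b)))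
    (vB : VB = v6f fun e => (P e).B + (P' e).B) (vr : Vr = v6f fun e => (P e).r + (P' e).r)
    (vf : Vf = v6f fun e => (P e).f + (P' e).f) (vd : Vd = v6f fun e => (P e).d + (P' e).d)
    (hok : ok = true → ∀ e, (P e).r + (P' e).r ≤ 2 ^ 110 ∧ (P e).f + (P' e).f ≤ 2 ^ 110 ∧
      (P e).d + (P' e).d ≤ 2 ^ 110) :
    RP t P P' (pg3 a c b a' c' b' VB Vr Vf Vd ok) Ha Hc Hb Ka Kc Kb :=
  ⟨h1, rep4 h2, h3, repd h1 h3, k1, rep4 k2, k3, repd k1 k3, ea, ec, eb, ka, kc, kb, vB, vr, vf,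
    vd, hok⟩

/-- PACKING OF A MATRIX -/
theorem HCp.pg {G : M3} {m : F9 MP} (h : FOK (PK t) G m) : HCp t (up6 G) (lo6 G) (pgP m) := by
  have A : ∀ (f : MP → ℕ), (∀ {z : ℂ} {P : MP}, PK t z P → Sm (f P)) →
      Sm (f m.a) ∧ Sm (f m.e) ∧ Sm (f m.i) ∧ Sm (f m.b) ∧ Sm (f m.d) ∧ Sm (f m.c) ∧ Sm (f m.g) ∧
        Sm (f m.f) ∧ Sm (f m.h) := fun f hf =>
    ⟨hf h.a, hf h.e, hf h.i, hf h.b, hf h.d, hf h.c, hf h.g, hf h.f, hf h.h⟩
  obtain ⟨a1, a2, a3, a4, a5, a6, a7, a8, a9⟩ := A MP.a (fun h => h.sa)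
  obtain ⟨c1, c2, c3, c4, c5, c6, c7, c8, c9⟩ := A MP.c (fun h => h.sc)
  obtain ⟨b1, b2, b3, b4, b5, b6, b7, b8, b9⟩ := A MP.b (fun h => h.sb)
  have ha := hp_rep (a := m.a.a) (b := m.e.a) (c := m.i.a)
    (x := m.b.a) (x' := m.d.a) (y := m.c.a) (y' := m.g.a) (w := m.f.a) (w' := m.h.a) a5 a7 a9
  have hc := hp_rep (a := m.a.c) (b := m.e.c) (c := m.i.c)
    (x := m.b.c) (x' := m.d.c) (y := m.c.c) (y' := m.g.c) (w := m.f.c) (w' := m.h.c) c5 c7 c9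
  have hb := hp_rep (a := m.a.b) (b := m.e.b) (c := m.i.b)
    (x := m.b.b) (x' := m.d.b) (y := m.c.b) (y' := m.g.b) (w := m.f.b) (w' := m.h.b) b5 b7 b9
  have sa := sp_rep (a := m.a.a) (b := m.e.a) (c := m.i.a)
    (x := m.b.a) (x' := m.d.a) (y := m.c.a) (y' := m.g.a) (w := m.f.a) (w' := m.h.a) a1 a2 a3 a4 a5 a6
    a7 a8 a9
  have sc := sp_rep (a := m.a.c) (b := m.e.c) (c := m.i.c)
    (x := m.b.c) (x' := m.d.c) (y := m.c.c) (y' := m.g.c) (w := m.f.c) (w' := m.h.c) c1 c2 c3 c4 c5 c6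
    c7 c8 c9
  have sb := sp_rep (a := m.a.b) (b := m.e.b) (c := m.i.b)
    (x := m.b.b) (x' := m.d.b) (y := m.c.b) (y' := m.g.b) (w := m.f.b) (w' := m.h.b) b1 b2 b3 b4 b5 b6
    b7 b8 b9
  refine ⟨![m.a, m.e, m.i, m.b, m.c, m.f], ![m.a, m.e, m.i, m.d, m.g, m.h], _, _, _, _, _, _,
    RP.pg3 ha hc hb sa sc sb ?_ ?_ ?_ ?_ ?_ ?_ rfl rfl rfl rfl ?_, ?_, ?_⟩
  · exact fin6 (ent_hd _) (ent_hd _) (ent_hd _) (ent_ho _ _) (ent_ho _ _) (ent_ho _ _)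
  · exact fin6 (ent_hd _) (ent_hd _) (ent_hd _) (ent_ho _ _) (ent_ho _ _) (ent_ho _ _)
  · exact fin6 (ent_hd _) (ent_hd _) (ent_hd _) (ent_ho _ _) (ent_ho _ _) (ent_ho _ _)
  · exact fin6 (ent_sd _) (ent_sd _) (ent_sd _) (ent_so _ _) (ent_so _ _) (ent_so _ _)
  · exact fin6 (ent_sd _) (ent_sd _) (ent_sd _) (ent_so _ _) (ent_so _ _) (ent_so _ _)
  · exact fin6 (ent_sd _) (ent_sd _) (ent_sd _) (ent_so _ _) (ent_so _ _) (ent_so _ _)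
  · intro hok
    have h6 : t6 fr m + (t6 ff m + t6 fd m) ≤ B110 := Nat.le_of_ble_eq_true hok
    rw [B110_eq] at h6
    obtain ⟨p1, p2, p3, p4, p5, p6⟩ := s6_le (n := 2 ^ 110) (a := fr m.a + fr m.a)
      (b := fr m.e + fr m.e) (c := fr m.i + fr m.i) (x := fr m.b + fr m.d) (y := fr m.c + fr m.g)
      (w := fr m.f + fr m.h) (le_trans (Nat.le_add_right _ _) h6)
    obtain ⟨q1, q2, q3, q4, q5, q6⟩ := s6_le (n := 2 ^ 110) (a := ff m.a + ff m.a)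
      (b := ff m.e + ff m.e) (c := ff m.i + ff m.i) (x := ff m.b + ff m.d) (y := ff m.c + ff m.g)
      (w := ff m.f + ff m.h)
      (le_trans ((Nat.le_add_right _ _).trans (Nat.le_add_left _ _)) h6)
    obtain ⟨s1, s2, s3, s4, s5, s6⟩ := s6_le (n := 2 ^ 110) (a := fd m.a + fd m.a)
      (b := fd m.e + fd m.e) (c := fd m.i + fd m.i) (x := fd m.b + fd m.d) (y := fd m.c + fd m.g)
      (w := fd m.f + fd m.h)
      (le_trans ((Nat.le_add_left _ _).trans (Nat.le_add_left _ _)) h6)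
    exact fin6 ⟨p1, q1, s1⟩ ⟨p2, q2, s2⟩ ⟨p3, q3, s3⟩ ⟨p4, q4, s4⟩ ⟨p5, q5, s5⟩ ⟨p6, q6, s6⟩
  · exact fin6 h.a h.e h.i h.b h.c h.f
  · exact fin6 h.a h.e h.i h.d h.g h.h

end Pool.Agent.Helper84.KNP
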