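import Pool.Agent.Helper84.KNP.KG2

/-!
Row KNP, soundness of the families, part 3: a term with a complex scalar.
-/

set_option autoImplicit false
set_option exponentiation.threshold 4000
noncomputable section
namespace Pool.Agent.Helper84.KNP

open Pool.Agent.Helper86.C75 (Z)
open Pool.Agent.Helper86.CX hiding gM
open Pool.Agent.Helper17
open Pool.Agent.Helper17.PAK (pk9 addH smulH idH cstH Bd rep_NG MM_eq andB_iff)
open Pool.Agent.Helper90.KMO (zv cz UU UU_pos c_add c_mul)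
open Pool.Agent.Helper90.C75
open Pool.Agent.Helper57.KNB (F9 FOK M3 qf)
open Complex ComplexConjugate

variable {t : ℝ}

/-- radii of a term with a complex scalar -/
def cR2 (S P P' : MP) : ℕ :=
  20 * S.r * (P.B + P'.B) + 20 * (S.B + S.r) * (P.r + P'.r) +
    ((2 * S.d + 5 * S.f) * (P.f + P'.f) + 2 * S.f * (P.d + P'.d))

theorem rt2_eq {S : MP} {VB Vr Vf Vd : ℕ} {B r f d : Fin 6 → ℕ} (h1 : VB = v6f B)
    (h2 : Vr = v6f r) (h3 : Vf = v6f f) (h4 : Vd = v6f d) :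
    rt2 S.r S.B S.d S.f VB Vr Vf Vd = v6f fun e => 20 * S.r * B e + 20 * (S.B + S.r) * r e +
      ((2 * S.d + 5 * S.f) * f e + 2 * S.f * d e) := by
  show (20 * S.r * VB + 20 * (S.B + S.r) * Vr) + ((2 * S.d + 5 * S.f) * Vf +
    2 * S.f * Vd) = _
  rw [h1, h2, h3, h4, v6f_smul, v6f_smul, v6f_smul, v6f_smul, v6f_add, v6f_add, v6f_add]

theorem starUU : star (UU : ℂ) = UU := Complex.conj_ofReal _

theorem dcI (v : ℕ) : dc v = (dr v : ℂ) + I * (dj v : ℂ) := by
  apply Complex.ext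
  · simp [dc_re]
  · simp [dc_im]

/-- the product of the controls -/
theorem cterm (s p p' : ℂ) (x y : ℤ) (hs : s = (x : ℂ) + I * (y : ℂ)) :
    (x : ℂ) * (p + star p') + (y : ℂ) * (I * (p - star p')) = s * p + star (s * p') := by
  rw [hs, star_mul', star_add, star_mul']
  have h1 : star (x : ℂ) = x := by
    have : (x : ℂ) = ((x : ℝ) : ℂ) := by push_cast; rfl
    rw [this]; exact Complex.conj_ofReal _
  have h2 : star (y : ℂ) = y := by
    have : (y : ℂ) = ((y : ℝ) : ℂ) := by push_cast; rfl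
    rw [this]; exact Complex.conj_ofReal _
  have h3 : star I = -I := Complex.conj_I
  rw [h1, h2, h3]
  ring

theorem nrm4 {z w : ℂ} {B : ℝ} {T : ℝ} (hz : ‖z‖ ≤ B) (hw : ‖w‖ ≤ T) (hB : 0 ≤ B) :
    ‖z * w‖ ≤ B * T := by
  rw [norm_mul]
  exact mul_le_mul hz hw (norm_nonneg _) hB

theorem nrs {z : ℂ} {B : ℝ} (h : ‖z‖ ≤ B) : ‖star z‖ ≤ B := (norm_star z).le.trans h

theorem rM_eq (P Q : MP) : rM P Q = P.r * Q.B + Q.r * (P.B + P.r) +
    (P.d * Q.f + P.f * Q.d) / 10 + P.f * Q.f / 4 := by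
  unfold rM rA rB rC
  rw [c_add, c_mul, c_mul, c_add, c_add, c_mul, c_mul, c_mul]

theorem AK.stepC (h0 : 0 ≤ t) (h1 : t ≤ 1) {V : Fin 6 → ℂ} {z : AC} {Na Nc Nb : Hm ℤ}
    {R : Fin 6 → ℕ} (hz : AK t V z Na Nc Nb R) {s : ℂ} {S : MP} {U U' : Fin 6 → ℂ} {H : HC}
    (hs : PK t s S) (hH : HCp t U U' H) (hok : H.ok = true) :
    ∃ Na' Nc' Nb' R', AK t (fun e => (s * U e + star (s * U' e)) + V e) (stc S H z)
      Na' Nc' Nb' R' := by
  obtain ⟨P, P', Ha, Hc, Hb, Ka, Kc, Kb, rp, pP, pP'⟩ := hH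
  have h110 := rp.ok hok
  have hb := Wts.bt h0 h1
  refine ⟨addH (addH (smulH (dr S.a) Ha) (smulH (dj S.a) Ka)) Na,
    addH (addH (addH (smulH (dr S.c) (smulH 4 Hc)) (smulH (dr S.a - dr S.b)
      (addH Hb (smulH (-1) Ha)))) (addH (smulH (dj S.c) (smulH 4 Kc)) (smulH (dj S.a - dj S.b)
      (addH Kb (smulH (-1) Ka))))) Nc,
    addH (addH (smulH (dr S.b) Hb) (smulH (dj S.b) Kb)) Nb,
    fun e => cR2 S (P e) (P' e) + R e, ?_⟩
  have eS : (((stc S H z).S : ℕ) : ℝ) = (S.r + S.B) + (S.d + S.f) + z.S := by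
    show ((Nat.add (Nat.add (Nat.add S.r S.B) (Nat.add S.d S.f)) z.S : ℕ) : ℝ) = _
    rw [c_add, c_add, c_add, c_add]
  have nr : (0 : ℝ) ≤ S.r := Nat.cast_nonneg _
  have nB : (0 : ℝ) ≤ S.B := Nat.cast_nonneg _
  have nd : (0 : ℝ) ≤ S.d := Nat.cast_nonneg _
  have nf : (0 : ℝ) ≤ S.f := Nat.cast_nonneg _
  have sa : ‖dc S.a‖ ≤ S.B := hs.bd 0
  have sc : ‖dc S.c‖ ≤ S.B := hs.bd 1
  have sb : ‖dc S.b‖ ≤ S.B := hs.bd 2
  have b100 : ∀ {u : ℂ} {Q : MP}, PK t u Q → ∀ i, ‖FP Q i‖ ≤ 2 ^ 100 := fun h i => h.bd' i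
  -- the entries of the controls
  have ea : ∀ e, ent (addH (smulH (dr S.a) Ha) (smulH (dj S.a) Ka)) e =
      dc S.a * dc (P e).a + star (dc S.a * dc (P' e).a) := fun e => by
    rw [ent_add, ent_smul, ent_smul, rp.ea, rp.ka]
    exact cterm _ _ _ _ _ (dcI _)
  have eb : ∀ e, ent (addH (smulH (dr S.b) Hb) (smulH (dj S.b) Kb)) e =
      dc S.b * dc (P e).b + star (dc S.b * dc (P' e).b) := fun e => by
    rw [ent_add, ent_smul, ent_smul, rp.eb, rp.kb]
    exact cterm _ _ _ _ _ (dcI _)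
  have ec : ∀ e, ent (addH (addH (smulH (dr S.c) (smulH 4 Hc)) (smulH (dr S.a - dr S.b)
      (addH Hb (smulH (-1) Ha)))) (addH (smulH (dj S.c) (smulH 4 Kc)) (smulH (dj S.a - dj S.b)
      (addH Kb (smulH (-1) Ka))))) e =
      (4 * (dc S.c * dc (P e).c) - (dc S.b - dc S.a) * (dc (P e).b - dc (P e).a)) +
      star (4 * (dc S.c * dc (P' e).c) - (dc S.b - dc S.a) * (dc (P' e).b - dc (P' e).a)) :=
    fun e => by
    rw [ent_add, ent_add, ent_add, ent_smul, ent_smul, ent_smul, ent_smul, ent_smul, ent_smul,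
      ent_add, ent_add, ent_smul, ent_smul, rp.ea, rp.ec, rp.eb, rp.ka, rp.kc, rp.kb]
    have h4 := cterm (dc S.c) (dc (P e).c) (dc (P' e).c) _ _ (dcI _)
    have h5 := cterm (dc S.b - dc S.a) (dc (P e).b - dc (P e).a) (dc (P' e).b - dc (P' e).a)
      (dr S.b - dr S.a) (dj S.b - dj S.a) (by rw [dcI, dcI]; push_cast; ring)
    have e6 : star (4 * (dc S.c * dc (P' e).c) -
        (dc S.b - dc S.a) * (dc (P' e).b - dc (P' e).a)) = 4 * star (dc S.c * dc (P' e).c) -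
        star ((dc S.b - dc S.a) * (dc (P' e).b - dc (P' e).a)) := by
      rw [star_sub, star_mul' (4 : ℂ)]
      have : star (4 : ℂ) = 4 := by
        have := Complex.conj_ofReal 4
        push_cast at this
        exact this
      rw [this]
    rw [e6]
    have e7 : star (dc (P' e).b - dc (P' e).a) = star (dc (P' e).b) - star (dc (P' e).a) :=
      star_sub _ _
    rw [e7] at h5
    push_cast at h5 ⊢
    linear_combination 4 * h4 - h5
  refine ⟨?_, ?_, ?_, ?_, fun e => ?_, fun e => ?_, fun e => ?_, fun e => ?_, fun e => ?_⟩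
  · have h2 := (((CO_rep (pr S.a)).mul rp.a).add ((CO_rep (pj S.a)).mul rp.a')).add hz.ra
    rw [PAK.pk9_smul, PAK.pk9_smul, PAK.pk9_add, PAK.pk9_add] at h2
    exact h2
  · have h2 := ((((CO_rep (pr S.c)).mul rp.c).add ((dif_rep (a := pr S.a) (b := pr S.b)
      (((dg_lt _).le.trans X_le_MM).trans (Nat.le_add_left _ _))).mul rp.d)).add
      (((CO_rep (pj S.c)).mul rp.c').add ((dif_rep (a := pj S.a) (b := pj S.b)
      ?_).mul rp.d'))).add hz.rc
    · rw [PAK.pk9_smul, PAK.pk9_smul, PAK.pk9_smul, PAK.pk9_smul, PAK.pk9_add, PAK.pk9_add,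
        PAK.pk9_add, PAK.pk9_add] at h2
      have e2 : (pr S.a : ℤ) - pr S.b = dr S.a - dr S.b := by unfold dr; ring
      have e3 : (pj S.a : ℤ) - pj S.b = dj S.a - dj S.b := by unfold dj; ring
      rw [e2, e3] at h2
      exact h2
    · obtain ⟨-, -, -, b4⟩ := hs.sb.dg
      have : (2 : ℕ) ^ 160 + 2 ^ 100 ≤ 2 ^ 256 := by norm_num
      exact ((b4.trans this).trans X_le_MM).trans (Nat.le_add_left _ _)
  · have h2 := (((CO_rep (pr S.b)).mul rp.b).add ((CO_rep (pj S.b)).mul rp.b')).add hz.rb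
    rw [PAK.pk9_smul, PAK.pk9_smul, PAK.pk9_add, PAK.pk9_add] at h2
    exact h2
  · show rt2 S.r S.B S.d S.f H.VB H.Vr H.Vf H.Vd + z.R = _
    rw [rt2_eq rp.vB rp.vr rp.vf rp.vd, hz.rR, v6f_add]
    rfl
  · have m1 := hs.mod_mul h0 h1 (pP e)
    have m2 := (hs.mod_mul h0 h1 (pP' e)).star
    have m3 := (m1.add m2).add (hz.md e)
    have e1 : UU * s * (UU * U e) + star (UU * s * (UU * U' e)) + UU * UU * V e =
        UU * UU * ((s * U e + star (s * U' e)) + V e) := by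
      have : star ((UU : ℂ) * s * (UU * U' e)) = UU * UU * star (s * U' e) := by
        have h5 : (UU : ℂ) * s * (UU * U' e) = UU * (UU * (s * U' e)) := by ring
        rw [h5, star_mul', star_mul', starUU]
        ring
      rw [this]
      ring
    rw [e1] at m3
    have e2 : rM S (P e) + rM S (P' e) + (R e : ℝ) / 20 =
        ((cR2 S (P e) (P' e) + R e : ℕ) : ℝ) / 20 := by
      rw [rM_eq, rM_eq]
      unfold cR2
      push_cast
      ring
    rw [e2] at m3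
    have e3 : (fun v => (p3 (FP S) (FP (P e)) v + star (p3 (FP S) (FP (P' e)) v)) +
        (![ent Na e, ent Nc e / 4, ent Nb e] : Fin 3 → ℂ) v) =
        ![ent (addH (addH (smulH (dr S.a) Ha) (smulH (dj S.a) Ka)) Na) e,
          ent (addH (addH (addH (smulH (dr S.c) (smulH 4 Hc)) (smulH (dr S.a - dr S.b)
            (addH Hb (smulH (-1) Ha)))) (addH (smulH (dj S.c) (smulH 4 Kc))
            (smulH (dj S.a - dj S.b) (addH Kb (smulH (-1) Ka))))) Nc) e / 4,
          ent (addH (addH (smulH (dr S.b) Hb) (smulH (dj S.b) Kb)) Nb) e] := by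
      funext v
      fin_cases v
      · show (p3 (FP S) (FP (P e)) 0 + star (p3 (FP S) (FP (P' e)) 0)) + ent Na e =
          ent (addH (addH (smulH (dr S.a) Ha) (smulH (dj S.a) Ka)) Na) e
        rw [ent_add, ea, p3_0, p3_0]
        rfl
      · show (p3 (FP S) (FP (P e)) 1 + star (p3 (FP S) (FP (P' e)) 1)) + ent Nc e / 4 =
          ent (addH (addH (addH (smulH (dr S.c) (smulH 4 Hc)) (smulH (dr S.a - dr S.b)
            (addH Hb (smulH (-1) Ha)))) (addH (smulH (dj S.c) (smulH 4 Kc))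
            (smulH (dj S.a - dj S.b) (addH Kb (smulH (-1) Ka))))) Nc) e / 4
        rw [ent_add, ec, p3_1, p3_1]
        have e4 : ∀ w : ℂ, w + star w = w + star w := fun _ => rfl
        have e5 : ∀ Q : MP, FP S 1 * FP Q 1 - (FP S 2 - FP S 0) * (FP Q 2 - FP Q 0) / 4 =
            (4 * (dc S.c * dc Q.c) - (dc S.b - dc S.a) * (dc Q.b - dc Q.a)) / 4 := by
          intro Q
          show dc S.c * dc Q.c - (dc S.b - dc S.a) * (dc Q.b - dc Q.a) / 4 = _
          ring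
        have e6 : ∀ w : ℂ, star (w / 4) = star w / 4 := by
          intro w
          rw [Complex.star_def, map_div₀]
          congr 1
          have := Complex.conj_ofReal 4
          push_cast at this
          exact this
        rw [e5, e5, e6]
        ring
      · show (p3 (FP S) (FP (P e)) 2 + star (p3 (FP S) (FP (P' e)) 2)) + ent Nb e =
          ent (addH (addH (smulH (dr S.b) Hb) (smulH (dj S.b) Kb)) Nb) e
        rw [ent_add, eb, p3_2, p3_2]
        rfl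
    rw [e3] at m3
    exact m3
  · rw [eS, ent_add, ea]
    refine (norm_add_le _ _).trans (le_trans (add_le_add ((norm_add_le _ _).trans (add_le_add
      (nrm4 sa (b100 (pP e) 0) nB) (nrs (nrm4 sa (b100 (pP' e) 0) nB))))
      (hz.ba e)) ?_)
    have e4 : (2 : ℝ) ^ 103 = 8 * 2 ^ 100 := by norm_num
    rw [e4]
    have hT : (0 : ℝ) ≤ 2 ^ 100 := by positivity
    generalize (2 : ℝ) ^ 100 = T at *
    nlinarith [mul_nonneg nr hT, mul_nonneg nB hT, mul_nonneg nd hT, mul_nonneg nf hT]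
  · rw [eS, ent_add, ec]
    have k : ∀ Q : MP, (∀ i, ‖FP Q i‖ ≤ 2 ^ 100) →
        ‖4 * (dc S.c * dc Q.c) - (dc S.b - dc S.a) * (dc Q.b - dc Q.a)‖ ≤
          4 * (S.B * 2 ^ 100) + S.d * (2 * 2 ^ 100) := by
      intro Q hQ
      refine (norm_sub_le _ _).trans (add_le_add ?_ (nrm4 hs.dif ?_ nd))
      · rw [norm_mul]
        have e5 : ‖(4 : ℂ)‖ = 4 := by norm_num
        rw [e5]
        exact mul_le_mul_of_nonneg_left (nrm4 sc (hQ 1) nB) (by norm_num)
      · refine (norm_sub_le _ _).trans ?_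
        have q2 : ‖dc Q.b‖ ≤ 2 ^ 100 := hQ 2
        have q0 : ‖dc Q.a‖ ≤ 2 ^ 100 := hQ 0
        linarith
    refine (norm_add_le _ _).trans (le_trans (add_le_add ((norm_add_le _ _).trans (add_le_add
      (k _ (b100 (pP e))) (nrs (k _ (b100 (pP' e)))))) (hz.bc e)) ?_)
    have e4 : (2 : ℝ) ^ 103 = 8 * 2 ^ 100 := by norm_num
    rw [e4]
    have hT : (0 : ℝ) ≤ 2 ^ 100 := by positivity
    generalize (2 : ℝ) ^ 100 = T at *
    nlinarith [mul_nonneg nr hT, mul_nonneg nB hT, mul_nonneg nd hT, mul_nonneg nf hT]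
  · rw [eS, ent_add, eb]
    refine (norm_add_le _ _).trans (le_trans (add_le_add ((norm_add_le _ _).trans (add_le_add
      (nrm4 sb (b100 (pP e) 2) nB) (nrs (nrm4 sb (b100 (pP' e) 2) nB))))
      (hz.bb e)) ?_)
    have e4 : (2 : ℝ) ^ 103 = 8 * 2 ^ 100 := by norm_num
    rw [e4]
    have hT : (0 : ℝ) ≤ 2 ^ 100 := by positivity
    generalize (2 : ℝ) ^ 100 = T at *
    nlinarith [mul_nonneg nr hT, mul_nonneg nB hT, mul_nonneg nd hT, mul_nonneg nf hT]
  · have eN : (stc S H z).S = (S.r + S.B) + (S.d + S.f) + z.S := rfl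
    rw [eN]
    have h3 := hz.bR e
    obtain ⟨q1, q2, q3⟩ := h110 e
    have q0 : (P e).B + (P' e).B ≤ 2 ^ 110 := by
      have a1 := (pP e).sm
      have a2 := (pP' e).sm
      have a3 : 2 ^ 100 + 2 ^ 100 ≤ 2 ^ 110 := by norm_num
      omega
    show cR2 S (P e) (P' e) + R e ≤ _
    unfold cR2
    have e4 : 2 ^ 116 = 64 * 2 ^ 110 := by norm_num
    rw [e4] at h3 ⊢
    have g1 : 20 * S.r * ((P e).B + (P' e).B) ≤ 20 * S.r * 2 ^ 110 := Nat.mul_le_mul_left _ q0
    have g2 : 20 * (S.B + S.r) * ((P e).r + (P' e).r) ≤ 20 * (S.B + S.r) * 2 ^ 110 :=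
      Nat.mul_le_mul_left _ q1
    have g3 : (2 * S.d + 5 * S.f) * ((P e).f + (P' e).f) ≤ (2 * S.d + 5 * S.f) * 2 ^ 110 :=
      Nat.mul_le_mul_left _ q2
    have g4 : 2 * S.f * ((P e).d + (P' e).d) ≤ 2 * S.f * 2 ^ 110 := Nat.mul_le_mul_left _ q3
    generalize (2 : ℕ) ^ 110 = T at *
    nlinarith [g1, g2, g3, g4, h3]

end Pool.Agent.Helper84.KNP
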