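import Pool.Agent.Helper84.KNP.KG3
import Pool.Agent.Helper57.KNB.KA5

/-!
Row KNP, soundness of the families, part 4: the test of a family and the tests at the powers.
-/

set_option autoImplicit false
set_option exponentiation.threshold 4000
noncomputable section
namespace Pool.Agent.Helper84.KNP

open Pool.Agent.Helper86.C75 (Z)
open Pool.Agent.Helper86.CX hiding gM
open Pool.Agent.Helper17
open Pool.Agent.Helper17.PAK (andB_iff)
open Pool.Agent.Helper90.KMO (zv cz UU UU_pos zv_p ct)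
open Pool.Agent.Helper90.C75 (avg bt Mod Wts avg_bt)
open Pool.Agent.Helper57
open Pool.Agent.Helper57.KNB (Ar ArS HOK FOK H6 F9 M3 qf cgH ev_cgH qf_FXG FXF_herm XF up cg
  mul9 ct9 FCg FgK okE ok1 okN c1 neg normSq_cj ev_plane Le rAc dA famI_of fnm_basis hs)
open Pool.Agent.Helper39.KNF (QT l3 lv T2d N1t FamI)
open Pool.Agent.Helper42.CH (powA)
open Complex ComplexConjugate Matrix

variable {t : ℝ}

/-! ### the form of a matrix with a scalar -/

theorem qe_G (s : ℂ) (G : M3) (v : Fin 3 → ℂ) :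
    qe (fun e => s * up6 G e + star (s * lo6 G e)) v = 2 * (s * qf G v).re := by
  rw [qe_six]
  have d : ∀ z : ℂ, (z + star z).re = 2 * z.re := by
    intro z
    rw [Complex.add_re, Complex.star_def, Complex.conj_re]; ring
  have c : ∀ (x y u w : ℂ), (conj u * (x + star y) * w).re =
      (x * (conj u * w)).re + (y * (conj w * u)).re := by
    intro x y u w
    simp only [Complex.mul_re, Complex.mul_im, Complex.add_re, Complex.add_im, Complex.star_def,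
      Complex.conj_re, Complex.conj_im]
    ring
  have e : qf G v = G 0 0 * (conj (v 0) * v 0) + G 1 1 * (conj (v 1) * v 1) +
      G 2 2 * (conj (v 2) * v 2) + (G 0 1 * (conj (v 0) * v 1) + G 1 0 * (conj (v 1) * v 0)) +
      (G 0 2 * (conj (v 0) * v 2) + G 2 0 * (conj (v 2) * v 0)) +
      (G 1 2 * (conj (v 1) * v 2) + G 2 1 * (conj (v 2) * v 1)) := by
    unfold qf
    simp only [dotProduct, Matrix.mulVec, Fin.sum_univ_three, Pi.star_apply, Complex.star_def]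
    ring
  have n : ∀ u : ℂ, conj u * u = ((normSq u : ℝ) : ℂ) := fun u => by
    rw [mul_comm]; exact Complex.mul_conj u
  rw [e, n, n, n]
  show (s * G 0 0 + star (s * G 0 0)).re * normSq (v 0) +
    (s * G 1 1 + star (s * G 1 1)).re * normSq (v 1) +
    (s * G 2 2 + star (s * G 2 2)).re * normSq (v 2) +
    2 * (conj (v 0) * (s * G 0 1 + star (s * G 1 0)) * v 1).re +
    2 * (conj (v 0) * (s * G 0 2 + star (s * G 2 0)) * v 2).re +
    2 * (conj (v 1) * (s * G 1 2 + star (s * G 2 1)) * v 2).re = _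
  rw [d, d, d, c, c, c]
  have m : ∀ (x : ℂ) (r : ℝ), (x * (r : ℂ)).re = x.re * r := fun x r => by simp
  have e2 : s * (G 0 0 * ((normSq (v 0) : ℝ) : ℂ) + G 1 1 * ((normSq (v 1) : ℝ) : ℂ) +
      G 2 2 * ((normSq (v 2) : ℝ) : ℂ) +
      (G 0 1 * (conj (v 0) * v 1) + G 1 0 * (conj (v 1) * v 0)) +
      (G 0 2 * (conj (v 0) * v 2) + G 2 0 * (conj (v 2) * v 0)) +
      (G 1 2 * (conj (v 1) * v 2) + G 2 1 * (conj (v 2) * v 1))) =
      s * G 0 0 * ((normSq (v 0) : ℝ) : ℂ) + s * G 1 1 * ((normSq (v 1) : ℝ) : ℂ) +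
      s * G 2 2 * ((normSq (v 2) : ℝ) : ℂ) +
      (s * G 0 1 * (conj (v 0) * v 1) + s * G 1 0 * (conj (v 1) * v 0)) +
      (s * G 0 2 * (conj (v 0) * v 2) + s * G 2 0 * (conj (v 2) * v 0)) +
      (s * G 1 2 * (conj (v 1) * v 2) + s * G 2 1 * (conj (v 2) * v 1)) := by ring
  rw [e2]
  simp only [Complex.add_re]
  rw [m, m, m]
  ring

/-! ### the matrices of a family -/

structure HGK (t : ℝ) (X E : Hm ℝ) (N Q B : M3) (H : HG) : Prop where
  h00 : HKp t (cgH N X) H.h00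
  h11 : HKp t (cgH Q X) H.h11
  h22 : HKp t (cgH B X) H.h22
  e : HKp t (cgH B E) H.e
  g01 : HCp t (up6 (Nᴴ * (KNB.MK X * Q))) (lo6 (Nᴴ * (KNB.MK X * Q))) H.g01
  g02 : HCp t (up6 (Nᴴ * (KNB.MK X * B))) (lo6 (Nᴴ * (KNB.MK X * B))) H.g02
  g12 : HCp t (up6 (Qᴴ * (KNB.MK X * B))) (lo6 (Qᴴ * (KNB.MK X * B))) H.g12

theorem HGK.mk1 (h0 : 0 ≤ t) (h1 : t ≤ 1) {X E : Hm ℝ} {x e : H6 MP} (hX : HOK (PK t) X x)
    (hE : HOK (PK t) E e) {N Q B : M3} {n q b : F9 MP} (hN : FOK (PK t) N n)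
    (hQ : FOK (PK t) Q q) (hB : FOK (PK t) B b) :
    HGK t X E N Q B (mkG1 x n q b (cg arP b e)) := by
  have hA := arP_ok h0 h1
  have cn := hN.ct9 hA
  have cq := hQ.ct9 hA
  have cb := hB.ct9 hA
  have xn := FOK.XF hA hX hN
  have xq := FOK.XF hA hX hQ
  have xb := FOK.XF hA hX hB
  exact ⟨HKp.qh (HOK.up (FXF_herm X N) (cn.mul9 hA xn)),
    HKp.qh (HOK.up (FXF_herm X Q) (cq.mul9 hA xq)),
    HKp.qh (HOK.up (FXF_herm X B) (cb.mul9 hA xb)), HKp.qh (HOK.cg hA hE hB),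
    HCp.pg (cn.mul9 hA xq), HCp.pg (cn.mul9 hA xb), HCp.pg (cq.mul9 hA xb)⟩

/-- THE TEST -/
theorem tG_sound (h0 : 0 ≤ t) (h1 : t ≤ 1) {X E : Hm ℝ} {N Q B : M3} {H : HG}
    (hH : HGK t X E N Q B H) {d : D3} {n n2 lam : ℝ} {a r ar : ℂ} {n' n2' a' r' ar' l' : MP}
    (hn : PK t (n : ℂ) n') (hn2 : PK t (n2 : ℂ) n2') (ha : PK t a a') (hr : PK t r r')
    (har : PK t ar ar') (hl : PK t (lam : ℂ) l') (h : tG d H n' n2' a' r' ar' l' = true)
    (u : Fin 3 → ℂ) :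
    0 ≤ ev X (N.mulVec u) + n * ev X (Q.mulVec u) + n2 * ev X (B.mulVec u) +
      2 * (a * hs X (N.mulVec u) (Q.mulVec u)).re +
      2 * (r * hs X (N.mulVec u) (B.mulVec u)).re +
      2 * (ar * hs X (Q.mulVec u) (B.mulVec u)).re - lam * ev E (B.mulVec u) := by
  have hA := arP_ok h0 h1
  have ok : andB H.h00.ok (andB H.h11.ok (andB H.h22.ok (andB H.e.ok (andB H.g01.ok
    (andB H.g02.ok (andB H.g12.ok true)))))) = true := (andB_iff.1 h).1
  obtain ⟨o1, ok⟩ := andB_iff.1 ok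
  obtain ⟨o2, ok⟩ := andB_iff.1 ok
  obtain ⟨o3, ok⟩ := andB_iff.1 ok
  obtain ⟨o4, ok⟩ := andB_iff.1 ok
  obtain ⟨o5, ok⟩ := andB_iff.1 ok
  obtain ⟨o6, ok⟩ := andB_iff.1 ok
  obtain ⟨o7, -⟩ := andB_iff.1 ok
  obtain ⟨_, _, _, _, z1⟩ := AK.zero.stepC h0 h1 har hH.g12 o7
  obtain ⟨_, _, _, _, z2⟩ := z1.stepC h0 h1 hr hH.g02 o6
  obtain ⟨_, _, _, _, z3⟩ := z2.stepC h0 h1 ha hH.g01 o5
  obtain ⟨_, _, _, _, z4⟩ := z3.step h0 h1 (x := ⟨neg arP l', H.e⟩) (s := -lam)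
    (okE (okN hA hl) (by push_cast; rfl)) hH.e o4
  obtain ⟨_, _, _, _, z5⟩ := z4.step h0 h1 (x := ⟨n2', H.h22⟩) hn2 hH.h22 o3
  obtain ⟨_, _, _, _, z6⟩ := z5.step h0 h1 (x := ⟨n', H.h11⟩) hn hH.h11 o2
  obtain ⟨_, _, _, _, z7⟩ := z6.step h0 h1 (x := ⟨c1 arP, H.h00⟩) (s := 1)
    (okE (ok1 hA) (by push_cast; rfl)) hH.h00 o1
  have h2 := ltz_sound h0 h1 z7 h u
  rw [qe_add, qe_smul, qe_add, qe_smul, qe_add, qe_smul, qe_add, qe_smul, qe_add, qe_G, qe_add,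
    qe_G, qe_add, qe_G, ← ev_qe, ← ev_qe, ← ev_qe, ← ev_qe, ev_cgH, ev_cgH, ev_cgH, ev_cgH,
    qf_FXG, qf_FXG, qf_FXG] at h2
  have e0 : qe (fun _ => (0 : ℂ)) u = 0 := by
    unfold qe
    simp
  rw [e0] at h2
  linarith

/-! ### multipliers -/

theorem lv_pos (h0 : 0 ≤ t) (h1 : t ≤ 1) {q : QT} (hs : 1 ≤ q.s) (ht : 1 ≤ q.t) : 0 < lv t q := by
  unfold lv
  have a1 : (1 : ℝ) ≤ q.s := by exact_mod_cast hs
  have a2 : (1 : ℝ) ≤ q.t := by exact_mod_cast ht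
  have a3 : (0 : ℝ) ≤ 1 - t := by linarith
  have b1 : (1 - t) * 1 ≤ (1 - t) * q.s := mul_le_mul_of_nonneg_left a1 a3
  have b2 : t * 1 ≤ t * q.t := mul_le_mul_of_nonneg_left a2 h0
  apply div_pos _ (by norm_num)
  linarith

theorem PK.l (h0 : 0 ≤ t) (h1 : t ≤ 1) (q : QT) : PK t ((lv t q : ℝ) : ℂ) (lP q) := by
  unfold lP
  have hB : ((Nat.mul (nat_lit 16777216) (Nat.add q.s q.t) : ℕ) : ℝ) =
      16777216 * ((q.s : ℝ) + q.t) := by
    show ((16777216 * (q.s + q.t) : ℕ) : ℝ) = _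
    push_cast; rfl
  have ns : (0 : ℝ) ≤ q.s := Nat.cast_nonneg _
  have nt : (0 : ℝ) ≤ q.t := Nat.cast_nonneg _
  have ca : ct (l3 q.s q.t) 0 = ((16777216 * (q.s : ℝ) : ℝ) : ℂ) := by
    apply Complex.ext
    · show ((zv (Z.p (Nat.mul (nat_lit 16777216) q.s)) : ℤ) : ℝ) = _
      rw [zv_p]
      show (((16777216 * q.s : ℕ) : ℤ) : ℝ) = (((16777216 * (q.s : ℝ) : ℝ) : ℂ)).re
      rw [Complex.ofReal_re]
      push_cast; ring
    · show ((zv Pool.Agent.Helper39.KNF.z0 : ℤ) : ℝ) = _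
      rw [Pool.Agent.Helper39.KNF.z0_v, Complex.ofReal_im]
  have cc : ct (l3 q.s q.t) 1 = ((8388608 * ((q.s : ℝ) + q.t) : ℝ) : ℂ) := by
    apply Complex.ext
    · show ((zv (Z.p (Nat.mul (nat_lit 8388608) (Nat.add q.s q.t))) : ℤ) : ℝ) = _
      rw [zv_p]
      show (((8388608 * (q.s + q.t) : ℕ) : ℤ) : ℝ) = (((8388608 * ((q.s : ℝ) + q.t) : ℝ) : ℂ)).re
      rw [Complex.ofReal_re]
      push_cast; ring
    · show ((zv Pool.Agent.Helper39.KNF.z0 : ℤ) : ℝ) = _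
      rw [Pool.Agent.Helper39.KNF.z0_v, Complex.ofReal_im]
  have cb : ct (l3 q.s q.t) 2 = ((16777216 * (q.t : ℝ) : ℝ) : ℂ) := by
    apply Complex.ext
    · show ((zv (Z.p (Nat.mul (nat_lit 16777216) q.t)) : ℤ) : ℝ) = _
      rw [zv_p]
      show (((16777216 * q.t : ℕ) : ℤ) : ℝ) = (((16777216 * (q.t : ℝ) : ℝ) : ℂ)).re
      rw [Complex.ofReal_re]
      push_cast; ring
    · show ((zv Pool.Agent.Helper39.KNF.z0 : ℤ) : ℝ) = _
      rw [Pool.Agent.Helper39.KNF.z0_v, Complex.ofReal_im]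
  refine PK.ofC h0 h1 ?_ ?_
  · show ‖(UU : ℂ) * ((lv t q : ℝ) : ℂ) - avg (bt t) (ct (l3 q.s q.t))‖ ≤ _
    rw [avg_bt, ca, cc, cb]
    refine le_of_eq_of_le ?_ (Nat.cast_nonneg _)
    rw [norm_eq_zero]
    unfold lv UU
    push_cast
    ring
  · intro i
    rw [hB]
    fin_cases i
    · show ‖ct (l3 q.s q.t) 0‖ ≤ _
      rw [ca, Complex.norm_real, Real.norm_eq_abs, abs_of_nonneg (by positivity)]
      linarith
    · show ‖ct (l3 q.s q.t) 1‖ ≤ _
      rw [cc, Complex.norm_real, Real.norm_eq_abs, abs_of_nonneg (by positivity)]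
      linarith
    · show ‖ct (l3 q.s q.t) 2‖ ≤ _
      rw [cb, Complex.norm_real, Real.norm_eq_abs, abs_of_nonneg (by positivity)]
      linarith

theorem posL_mem {L : List QT} (h : posL L = true) {q : QT} (hq : q ∈ L) :
    1 ≤ q.s ∧ 1 ≤ q.t := by
  induction L with
  | nil => cases hq
  | cons x L ih =>
    obtain ⟨a1, h⟩ := andB_iff.1 (show andB (Nat.ble (nat_lit 1) x.s) (andB (Nat.ble (nat_lit 1) x.t)
      (posL L)) = true from h)
    obtain ⟨a2, a3⟩ := andB_iff.1 h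
    rcases List.mem_cons.1 hq with rfl | hq
    · exact ⟨Nat.le_of_ble_eq_true a1, Nat.le_of_ble_eq_true a2⟩
    · exact ih a3 hq

/-! ### the powers -/

section

variable {S S' g g' o : ℂ} {X E : Hm ℝ} {N Q B : M3} {C : FCg MP} {H : HG}

theorem tQ1_sound (h0 : 0 ≤ t) (h1 : t ≤ 1) (hH : HGK t X E N Q B H) {a r : ℂ} {a' r' : MP}
    (ha : PK t a a') (hr : PK t r r') {q : QT} (h : tQ1 H a' r' q = true) (u : Fin 3 → ℂ) :
    lv t q * ev E (B.mulVec u) ≤ ev X ((N + a • Q + r • B).mulVec u) := by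
  have hA := arP_ok h0 h1
  have h2 := tG_sound h0 h1 hH (n := normSq a) (n2 := normSq r) (ar := star a * r)
    (okE (hA.mul ha (hA.cj ha)) (normSq_cj a).symm) (okE (hA.mul hr (hA.cj hr)) (normSq_cj r).symm)
    ha hr (hA.mul (hA.cj ha) hr) (PK.l h0 h1 q) h u
  have e : (N + a • Q + r • B).mulVec u = N.mulVec u + a • Q.mulVec u + r • B.mulVec u := by
    rw [add_mulVec, add_mulVec, smul_mulVec, smul_mulVec]
  rw [e, ev_plane]
  have e1 : (conj a * r : ℂ) = star a * r := rfl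
  rw [e1]
  linarith

theorem tQs_sound (h0 : 0 ≤ t) (h1 : t ≤ 1) (hC : FgK (PK t) S S' g g' o C)
    (hH : HGK t X E (T2d S S' g g' o (dA S S') * B) (N1t S S' g g' o * B) B H)
    (hB : B.det ≠ 0) {c : ℂ} {c' : MP} (hc : PK t c c') :
    ∀ (L : List QT), posL L = true → ∀ {m : ℕ} {a' : MP},
      PK t (powA (1 - c) m) a' → tQs C H c' L a' = true →
      ∀ j < L.length, FamI X E S S' g g' o (powA (1 - c) (m + j)) := by
  have hA := arP_ok h0 h1
  intro L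
  induction L with
  | nil =>
    intro _ m a' _ _ j hj
    exact absurd hj (Nat.not_lt_zero _)
  | cons q L ih =>
    intro hL m a' ha h j hj
    have h' : andB (tQ1 H a' (rAg C a') q) (andB (okP (addP (c1 arP) a'))
      (tQs C H c' L (subP (c1 arP) (mulP c' (invP (addP (c1 arP) a')))))) = true := h
    obtain ⟨h1', h2⟩ := andB_iff.1 h'
    obtain ⟨h3, h4⟩ := andB_iff.1 h2
    obtain ⟨p1, p2⟩ := posL_mem hL (List.mem_cons_self ..)
    obtain ⟨-, hL'⟩ := andB_iff.1 (show andB (Nat.ble (nat_lit 1) q.s)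
      (andB (Nat.ble (nat_lit 1) q.t) (posL L)) = true from hL)
    obtain ⟨-, hL'⟩ := andB_iff.1 hL'
    obtain ⟨n0, hi⟩ := hA.inv (hA.add (ok1 hA) ha) h3
    rcases j with _ | j
    · exact famI_of hB (lv_pos h0 h1 p1 p2) fun u => tQ1_sound h0 h1 hH ha (hC.r hA ha) h1' u
    · have e : powA (1 - c) (m + 1) = 1 - c * (1 + powA (1 - c) m)⁻¹ := by
        show (powA (1 - c) m + (1 - c)) / (1 + powA (1 - c) m) = _
        field_simp
        ring
      have ha1 : PK t (powA (1 - c) (m + 1))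
          (subP (c1 arP) (mulP c' (invP (addP (c1 arP) a')))) :=
        okE (hA.sub (ok1 hA) (hA.mul hc hi)) e.symm
      have h5 := ih hL' ha1 h4 j (by simpa using hj)
      have e2 : m + (j + 1) = m + 1 + j := by ring
      rw [e2]
      exact h5

end

end Pool.Agent.Helper84.KNP
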