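import Pool.Agent.Helper84.KNP.KG4

/-!
Row KNP, soundness of the families, part 5: polygons.
-/

set_option autoImplicit false
set_option exponentiation.threshold 4000
noncomputable section
namespace Pool.Agent.Helper84.KNP

open Pool.Agent.Helper86.C75 (Z)
open Pool.Agent.Helper86.CX hiding gM
open Pool.Agent.Helper17
open Pool.Agent.Helper17.PAK (andB_iff)
open Pool.Agent.Helper90.KMO (zv cz UU UU_pos zv_p ct)
open Pool.Agent.Helper90.C75 (avg bt Mod Wts avg_bt)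
open Pool.Agent.Helper57
open Pool.Agent.Helper57.KNB (Ar ArS HOK FOK H6 F9 M3 qf cgH ev_cgH qf_FXG FXF_herm XF up cg
  mul9 ct9 FCg FgK okE ok1 okN okR cR c1 neg normSq_cj ev_plane Le rAc dA famI_of fnm_basis hs
  dsq dsq_cast pt_eq ok_ptM ptM tA_point m48 m48_le U24 nmul nadd)
open Pool.Agent.Helper39.KNF (QT l3 lv T2d N1t FamI)
open Pool.Agent.Helper42.CH (powA)
open Pool.Agent.Helper32.C75 (InHull pt Near)
open Complex ComplexConjugate Matrix

variable {t : ℝ}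

section

variable {S S' g g' o : ℂ} {X E : Hm ℝ} {N Q B : M3} {C : FCg MP} {H : HG}

/-- a vertex -/
theorem tW_sound (h0 : 0 ≤ t) (h1 : t ≤ 1) (hC : FgK (PK t) S S' g g' o C)
    (hH : HGK t X E N Q B H) {cx cy R Bd rb e f gg : ℕ} {q : QT} {p : ℕ × ℕ}
    (h : tW C H cx cy R Bd rb e f gg q p = true) :
    (dsq p.1 cx + dsq p.2 cy ≤ R ∧ p.1 * p.1 + p.2 * p.2 ≤ Bd * Bd) ∧
      ‖rAc S S' g g' (pt p.1 p.2)‖ * UU + e ≤ rb ∧ ∀ u,
      ∀ (n n2 : ℝ) (rr ar : ℂ), |n - normSq (pt p.1 p.2)| * UU ≤ R →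
      |n2 - normSq (rAc S S' g g' (pt p.1 p.2))| * UU ≤ f →
      ‖rr - rAc S S' g g' (pt p.1 p.2)‖ * UU ≤ e →
      ‖ar - star (pt p.1 p.2) * rAc S S' g g' (pt p.1 p.2)‖ * UU ≤ gg →
      0 ≤ ev X (N.mulVec u) + n * ev X (Q.mulVec u) + n2 * ev X (B.mulVec u) +
        2 * (pt p.1 p.2 * hs X (N.mulVec u) (Q.mulVec u)).re +
        2 * (rr * hs X (N.mulVec u) (B.mulVec u)).re +
        2 * (ar * hs X (Q.mulVec u) (B.mulVec u)).re - lv t q * ev E (B.mulVec u) := by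
  have hA := arP_ok h0 h1
  obtain ⟨h2, h⟩ := andB_iff.1 h
  obtain ⟨h3, h⟩ := andB_iff.1 h
  obtain ⟨h4, h5⟩ := andB_iff.1 h
  have hp : PK t (pt p.1 p.2) (ptM arP p.1 p.2) := ok_ptM hA p.1 p.2
  have hr : PK t (rAc S S' g g' (pt p.1 p.2)) (rAg C (ptM arP p.1 p.2)) := hC.r hA hp
  have hnb := hA.nb hr
  refine ⟨⟨Nat.le_of_ble_eq_true h2, Nat.le_of_ble_eq_true h3⟩, ?_, ?_⟩
  · have h6 : nbP (rAg C (ptM arP p.1 p.2)) + e ≤ rb := Nat.le_of_ble_eq_true h4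
    have h7 : ((nbP (rAg C (ptM arP p.1 p.2)) : ℕ) : ℝ) + e ≤ rb := by exact_mod_cast h6
    have h8 : ‖rAc S S' g g' (pt p.1 p.2)‖ * UU ≤ ((nbP (rAg C (ptM arP p.1 p.2)) : ℕ) : ℝ) := hnb
    linarith
  · intro u n n2 rr ar q1 q2 q3 q4
    have hns : normSq (pt p.1 p.2) = ((p.1 * p.1 + p.2 * p.2 : ℕ) : ℝ) / UU := by
      rw [pt_eq, normSq_mk]
      push_cast
      unfold UU
      ring
    have hn : PK t (n : ℂ) (wdP R (cR arP (Z.p (Nat.add (Nat.mul p.1 p.1) (Nat.mul p.2 p.2))))) := by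
      refine hA.wd (okR hA _) ?_
      have e1 : ((zv (Z.p (Nat.add (Nat.mul p.1 p.1) (Nat.mul p.2 p.2))) : ℤ) : ℝ) =
          ((p.1 * p.1 + p.2 * p.2 : ℕ) : ℝ) := by
        show (((Nat.add (Nat.mul p.1 p.1) (Nat.mul p.2 p.2) : ℕ) : ℤ) : ℝ) = _
        rw [Int.cast_natCast]
        rfl
      rw [e1, ← hns, ← Complex.ofReal_sub, Complex.norm_real, Real.norm_eq_abs]
      exact q1
    have hrr : PK t rr (wdP e (rAg C (ptM arP p.1 p.2))) := hA.wd hr q3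
    have hn2 : PK t (n2 : ℂ) (wdP f (mulP (rAg C (ptM arP p.1 p.2))
        (cjP (rAg C (ptM arP p.1 p.2))))) := by
      refine hA.wd (hA.mul hr (hA.cj hr)) ?_
      rw [← normSq_cj, ← Complex.ofReal_sub, Complex.norm_real, Real.norm_eq_abs]
      exact q2
    have har : PK t ar (wdP gg (mulP (cjP (ptM arP p.1 p.2)) (rAg C (ptM arP p.1 p.2)))) :=
      hA.wd (hA.mul (hA.cj hp) hr) q4
    exact tG_sound h0 h1 hH hn hn2 hp hrr har (PK.l h0 h1 q) h5 u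

theorem tPv_mem {cx cy R Bd rb e f gg : ℕ} {q : QT} {V : List (ℕ × ℕ)}
    (h : tPv C H cx cy R Bd rb e f gg q V = true) {x : ℕ × ℕ} (hx : x ∈ V) :
    tW C H cx cy R Bd rb e f gg q x = true := by
  induction V with
  | nil => cases hx
  | cons y l ih =>
    obtain ⟨h1, h2⟩ := andB_iff.1 (show andB (tW C H cx cy R Bd rb e f gg q y)
      (tPv C H cx cy R Bd rb e f gg q l) = true from h)
    rcases List.mem_cons.1 hx with rfl | hx
    · exact h1
    · exact ih h2 hx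

/-- a polygon with its circle and bounds -/
theorem tP4_sound (h0 : 0 ≤ t) (h1 : t ≤ 1) (hC : FgK (PK t) S S' g g' o C)
    (hH : HGK t X E (T2d S S' g g' o (dA S S') * B) (N1t S S' g g' o * B) B H)
    (hB : B.det ≠ 0) {V : List (ℕ × ℕ)} {q : QT} (hq : 1 ≤ q.s ∧ 1 ≤ q.t) {cx cy R Bd rb : ℕ}
    (h : tP4 C H V q cx cy R Bd rb (nbP C.h) (m48 (nbP C.h) R)
      (Nat.mul (nat_lit 16777216) Bd) = true) {a : ℂ}
    (ha : InHull V a) : FamI X E S S' g g' o a := by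
  have hA := arP_ok h0 h1
  obtain ⟨w, w0, w1, ha⟩ := ha
  have hU := UU_pos
  set hn := nbP C.h with hhn
  set e := m48 hn R with he
  set B48 := Nat.mul (nat_lit 16777216) Bd with hB48
  set f := Nat.add (Nat.mul (nat_lit 4) (m48 (m48 hn e) (m48 B48 B48)))
    (Nat.mul (nat_lit 2) (m48 rb e)) with hf
  set gg := Nat.mul (nat_lit 3) (m48 e B48) with hgg
  have h' : tPv C H cx cy R Bd rb e f gg q V = true := h
  have hv : ∀ i : Fin V.length, tW C H cx cy R Bd rb e f gg q (V.get i) = true := fun i =>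
    tPv_mem h' (List.get_mem V i)
  have hs := fun i => tW_sound h0 h1 hC hH (hv i)
  have hhb : ‖(1 / 2 * ((g + 2) * (g' + 2)) : ℂ)‖ * UU ≤ hn := hA.nb hC.h
  have hB48' : ((B48 : ℕ) : ℝ) = (Bd : ℝ) / 16777216 * UU := by
    rw [hB48, nmul, U24]
    norm_num
    ring
  have b0 : (0 : ℝ) ≤ (Bd : ℝ) / 16777216 := by positivity
  have r0 : (0 : ℝ) ≤ (R : ℝ) / UU := by positivity
  have he1 : ‖(1 / 2 * ((g + 2) * (g' + 2)) : ℂ)‖ * ((R : ℝ) / UU) * UU ≤ e :=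
    m48_le (norm_nonneg _) r0 hhb (by rw [div_mul_cancel₀ _ hU.ne'])
  have ee0 : (0 : ℝ) ≤ (e : ℝ) / UU := by positivity
  have hee : (e : ℝ) / UU * UU ≤ e := by rw [div_mul_cancel₀ _ hU.ne']
  refine famI_of hB (lv_pos h0 h1 hq.1 hq.2) fun u => ?_
  refine tA_point (R := R / UU) (c := pt cx cy) (Bd := Bd / 16777216) (e := e / UU)
    (f := f / UU) (g := gg / UU) (rb := rb / UU) w0 w1 ha ?_ ?_ ?_ ?_ ?_ ?_ u ?_
  · intro i
    have h1 := (hs i).1.1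
    have h2 : ((dsq (V.get i).1 cx : ℕ) : ℝ) + ((dsq (V.get i).2 cy : ℕ) : ℝ) ≤ R := by
      exact_mod_cast h1
    rw [dsq_cast, dsq_cast] at h2
    rw [pt_eq, pt_eq, normSq_apply, le_div_iff₀ hU, U24]
    simp only [Complex.sub_re, Complex.sub_im]
    calc _ = ((((V.get i).1 : ℕ) : ℝ) - cx) ^ 2 + ((((V.get i).2 : ℕ) : ℝ) - cy) ^ 2 := by
          ring
      _ ≤ _ := h2
  · intro i
    have h1 := (hs i).1.2
    have h2 : (((V.get i).1 : ℕ) : ℝ) * (V.get i).1 + (((V.get i).2 : ℕ) : ℝ) * (V.get i).2 ≤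
        (Bd : ℝ) * Bd := by exact_mod_cast h1
    rw [← sq_le_sq₀ (norm_nonneg _) b0, ← normSq_eq_norm_sq, pt_eq, normSq_mk]
    have e1 : ∀ x y : ℝ, x / 16777216 * (x / 16777216) + y / 16777216 * (y / 16777216) =
        (x * x + y * y) / 16777216 ^ 2 := fun x y => by ring
    rw [e1, div_pow]
    exact div_le_div_of_nonneg_right (by rw [sq]; exact h2) (by positivity)
  · rw [← mul_le_mul_iff_left₀ hU, div_mul_cancel₀ _ hU.ne']
    exact he1
  · intro i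
    have h1 := (hs i).2.1
    have e2 : (1 / 2 * ((g + 2) * (g' + 2))) * (pt (V.get i).1 (V.get i).2 *
        pt (V.get i).1 (V.get i).2 - 1) + dA S S' =
        rAc S S' g g' (pt (V.get i).1 (V.get i).2) := rfl
    rw [e2, ← mul_le_mul_iff_left₀ hU, add_mul, div_mul_cancel₀ _ hU.ne', div_mul_cancel₀ _ hU.ne']
    exact h1
  · have k1 : ‖(1 / 2 * ((g + 2) * (g' + 2)) : ℂ)‖ * ((e : ℝ) / UU) * UU ≤ m48 hn e :=
      m48_le (norm_nonneg _) ee0 hhb hee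
    have k2 : (Bd : ℝ) / 16777216 * ((Bd : ℝ) / 16777216) * UU ≤ m48 B48 B48 :=
      m48_le b0 b0 hB48'.ge hB48'.ge
    have k3 := m48_le (mul_nonneg (norm_nonneg _) ee0) (mul_nonneg b0 b0) k1 k2
    have k4 : (rb : ℝ) / UU * ((e : ℝ) / UU) * UU ≤ m48 rb e :=
      m48_le (by positivity) ee0 (by rw [div_mul_cancel₀ _ hU.ne']) hee
    rw [← mul_le_mul_iff_left₀ hU, div_mul_cancel₀ _ hU.ne', hf, nadd, nmul, nmul]
    have g4 : ((nat_lit 4 : ℕ) : ℝ) = 4 := by norm_num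
    have g2 : ((nat_lit 2 : ℕ) : ℝ) = 2 := by norm_num
    rw [g4, g2]
    linarith
  · have k1 : (e : ℝ) / UU * ((Bd : ℝ) / 16777216) * UU ≤ m48 e B48 :=
      m48_le ee0 b0 hee hB48'.ge
    rw [← mul_le_mul_iff_left₀ hU, div_mul_cancel₀ _ hU.ne', hgg, nmul]
    have g3 : ((nat_lit 3 : ℕ) : ℝ) = 3 := by norm_num
    rw [g3]
    linarith
  · intro i n n2 rr ar q1 q2 q3 q4
    exact (hs i).2.2 u n n2 rr ar ((le_div_iff₀ hU).1 q1) ((le_div_iff₀ hU).1 q2)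
      ((le_div_iff₀ hU).1 q3) ((le_div_iff₀ hU).1 q4)

theorem tP1_ex {V : List (ℕ × ℕ)} {q : QT} {cx cy R cx' cy' R' : ℕ}
    (h : tP1 C H V q cx cy R cx' cy' R' = true) :
    ∃ x y r, tP2 C H V q x y r = true := by
  unfold tP1 at h
  cases hb : Nat.ble R R' with
  | false =>
    rw [hb] at h
    exact ⟨_, _, _, h⟩
  | true =>
    rw [hb] at h
    exact ⟨_, _, _, h⟩

theorem tP_ex {V : List (ℕ × ℕ)} {q : QT} (h : tP C H V q = true) :
    ∃ x y r, tP2 C H V q x y r = true := by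
  unfold tP tP0 at h
  exact tP1_ex h

/-- SOUNDNESS OF A POLYGON -/
theorem tP_sound (h0 : 0 ≤ t) (h1 : t ≤ 1) (hC : FgK (PK t) S S' g g' o C)
    (hH : HGK t X E (T2d S S' g g' o (dA S S') * B) (N1t S S' g g' o * B) B H)
    (hB : B.det ≠ 0) {V : List (ℕ × ℕ)} {q : QT} (hq : 1 ≤ q.s ∧ 1 ≤ q.t)
    (h : tP C H V q = true) {a : ℂ} (ha : InHull V a) : FamI X E S S' g g' o a := by
  obtain ⟨x, y, r, h2⟩ := tP_ex h
  unfold tP2 tP3 at h2
  exact tP4_sound h0 h1 hC hH hB hq h2 ha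

theorem tPs_mem : ∀ {Vs : List (List (ℕ × ℕ))} {l : List QT}, tPs C H Vs l = true →
    ∀ V ∈ Vs, ∃ q ∈ l, tP C H V q = true := by
  intro Vs
  induction Vs with
  | nil =>
    intro l _ V hV
    cases hV
  | cons W Vs ih =>
    intro l h V hV
    cases l with
    | nil => cases h
    | cons q l =>
      obtain ⟨h1, h2⟩ := andB_iff.1 (show andB (tP C H W q) (tPs C H Vs l) = true from h)
      rcases List.mem_cons.1 hV with rfl | hV
      · exact ⟨q, List.mem_cons_self .., h1⟩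
      · obtain ⟨q', hq', h3⟩ := ih h2 V hV
        exact ⟨q', List.mem_cons_of_mem _ hq', h3⟩

end

end Pool.Agent.Helper84.KNP
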