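import Pool.Agent.Helper84.KNP.KG5
import Pool.Agent.Helper39.CX.NCM

/-!
Row KNP, soundness of the families, part 6: THE PACKED TEST OF A FAMILY IS SOUND.
-/

set_option autoImplicit false
set_option exponentiation.threshold 4000
noncomputable section
namespace Pool.Agent.Helper84.KNP

open Pool.Agent.Helper86.C75 (Z)
open Pool.Agent.Helper86.CX hiding gM
open Pool.Agent.Helper17
open Pool.Agent.Helper17.PAK (andB_iff)
open Pool.Agent.Helper90.KMO (zv cz UU UU_pos MOK)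
open Pool.Agent.Helper90.C75 (avg bt Mod Wts avg_bt)
open Pool.Agent.Helper57
open Pool.Agent.Helper57.KNB (Ar ArS HOK FOK H6 F9 M3 FCg FgK okE ok1 ok2 okN okD c1 c2 dbl
  rAc dA sG_ok gG_ok det9G_ok near_gen PowOK powC_ok sG gG mkFg segG)
open Pool.Agent.Helper39.KNF (QT FD AD C9 M6 mkX KIh lv T2d N1t FamI WallC wall_kap tau_re_im
  tauA_eq one_SbP famC lenL_eq XOK)
open Pool.Agent.Helper39.NCL (FamOK)
open Pool.Agent.Helper6.MONO (SbP kapA tauA nfm_tau)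
open Pool.Agent.Helper6.PIE (w1 w1_wts)
open Pool.Agent.Helper42.CH (powA tau_cond)
open Pool.Agent.Helper32.C75 (InHull pt Near powA_im)
open Complex ComplexConjugate Matrix

variable {t : ℝ}

theorem HOK.f6 (h0 : 0 ≤ t) (h1 : t ≤ 1) {K : Hm ℝ} {P : M6} (h : XOK 1 w1 t K P) :
    HOK (PK t) K (KNP.f6 P) :=
  ⟨PK.ofM h0 h1 w1_wts h.a, PK.ofM h0 h1 w1_wts h.b, PK.ofM h0 h1 w1_wts h.c,
    PK.ofM h0 h1 w1_wts h.x, PK.ofM h0 h1 w1_wts h.y, PK.ofM h0 h1 w1_wts h.w⟩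

theorem FOK.f9 (h0 : 0 ≤ t) (h1 : t ≤ 1) (B : C9) :
    FOK (PK t) (Pool.Agent.Helper39.KNF.Sm B) (KNP.f9 B) :=
  ⟨PK.cs h0 h1 _, PK.cs h0 h1 _, PK.cs h0 h1 _, PK.cs h0 h1 _, PK.cs h0 h1 _, PK.cs h0 h1 _,
    PK.cs h0 h1 _, PK.cs h0 h1 _, PK.cs h0 h1 _⟩

/-- soundness for packed inputs -/
theorem fP1_sound (h0 : 0 ≤ t) (h1 : t ≤ 1) {k k' c x0 : ℝ} (hc : WallC k k' c x0) {x z : ℂ}
    (hz : z ≠ 0) (hzx : z + z⁻¹ = x) (hre : x.re = x0) (him : 0 ≤ x.im) {K K' L U Zm : MP}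
    (hK : PK t (k : ℂ) K) (hK' : PK t (k' : ℂ) K') (hL : PK t ((2 * c / (k * k') : ℝ) : ℂ) L)
    (hU : PK t z⁻¹ U) (hZ : PK t z Zm) {KT : K2} {D : FD}
    (h : fP1 [KT] D L K K' U Zm = true) (hp : PowOK [D.Ta, D.Tc, D.Tb] D.rho D.L.length D.Vs)
    {o o' : ℂ} (hg : o⁻¹ = 2 * (1 + ((2 * c / (k * k') : ℝ) : ℂ) * z⁻¹))
    (hg' : o'⁻¹ = 2 * (1 + ((2 * c / (k * k') : ℝ) : ℂ) * z)) (ho : o ≠ 0) (ho' : o' ≠ 0)
    (i : ℕ) :
    FamI (KIh 1 w1 t (kfs [KT] D.kx)) (KIh 1 w1 t (kfs [KT] D.ke)) (SbP k) (SbP k') o⁻¹ o'⁻¹ o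
      (powA (tauA k k' o o') i) := by
  have hA := arP_ok h0 h1
  have p1 := ok1 hA
  have p2 := ok2 hA
  obtain ⟨l1, h⟩ := andB_iff.1 h
  obtain ⟨l2, h⟩ := andB_iff.1 h
  obtain ⟨b1, h⟩ := andB_iff.1 h
  obtain ⟨b2, h⟩ := andB_iff.1 h
  have hS := sG_ok hA hc.hk.ne' hK b1
  have hS' := sG_ok hA hc.hk'.ne' hK' b2
  have hG := gG_ok hA hL hU
  have hG' := gG_ok hA hL hZ
  rw [← hg] at hG
  rw [← hg'] at hG'
  obtain ⟨b3, h⟩ := andB_iff.1 h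
  have hO := (hA.inv hG b3).2
  rw [inv_inv] at hO
  have hss := hA.mul (hA.add p1 hS) (hA.add p1 hS')
  have hEE := hA.mul (hA.add hG p2) (hA.add hG' p2)
  obtain ⟨b5, h⟩ := andB_iff.1 h
  obtain ⟨hEne, hEi⟩ := hA.inv hEE b5
  obtain ⟨b4, h⟩ := andB_iff.1 h
  have hX := HOK.f6 h0 h1 (XOK.mkX (n := 1) (wc := w1) (t := t) one_pos (X := kfs [KT] D.kx) rfl)
  have hE := HOK.f6 h0 h1 (XOK.mkX (n := 1) (wc := w1) (t := t) one_pos (X := kfs [KT] D.ke) rfl)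
  have hB := FOK.f9 h0 h1 D.B
  have hdet := (hA.inv (det9G_ok hA hB) b4).1
  have hC := FgK.mk' hA hS hS' hG hG' hO hss
  have hH := HGK.mk1 h0 h1 hX hE (hC.n2.mul9 hA hB) (hC.n1.mul9 hA hB) hB
  have hcc := hA.mul (okD hA (okD hA hss)) hEi
  have hs0 : (1 + (SbP k : ℂ)) ≠ 0 := by
    rw [one_SbP hc.hk.ne']
    have := hc.hk
    exact Complex.ofReal_ne_zero.2 (by positivity)
  have hs0' : (1 + (SbP k' : ℂ)) ≠ 0 := by
    rw [one_SbP hc.hk'.ne']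
    have := hc.hk'
    exact Complex.ofReal_ne_zero.2 (by positivity)
  have hτ := nfm_tau ho ho' hs0 hs0' (left_ne_zero_of_mul hEne) (right_ne_zero_of_mul hEne)
  have hτ2 : tauA k k' o o' = 1 - 2 * (2 * ((1 + (SbP k : ℂ)) * (1 + (SbP k' : ℂ)))) *
      ((o⁻¹ + 2) * (o'⁻¹ + 2))⁻¹ := by
    rw [hτ]
    ring
  obtain ⟨k1, k2⟩ := wall_kap hc hz hzx hre him ho ho' hg hg'
  obtain ⟨t1, t2, t3⟩ := tau_re_im k1 k2
  have t4 := tau_cond k1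
  rw [← tauA_eq] at t1 t2 t3 t4
  obtain ⟨b6, h⟩ := andB_iff.1 h
  obtain ⟨b7, b8⟩ := andB_iff.1 h
  have hN := near_gen hA hcc b6
  rw [← hτ2] at hN
  rcases lt_or_ge i D.L.length with hi | hi
  · have hq := tQs_sound h0 h1 hC hH hdet hcc D.L l1 (m := 0) p1 b7 i hi
    rw [← hτ2, zero_add] at hq
    exact hq
  · obtain ⟨V, hV, hV2⟩ := hp _ hN t1 t2 (fun i => powA_im t2 t3 t4 i) i hi
    obtain ⟨q, hq, h3⟩ := tPs_mem b8 V hV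
    exact tP_sound h0 h1 hC hH hdet (posL_mem l2 hq) h3 hV2

/-- THE PACKED TEST OF A FAMILY IS SOUND -/
theorem famOK_famP : FamOK famP := by
  intro t h0 h1 k k' c x0 hc x z hz hzx hre him K K' L U Zm hK hK' hL hU hZ KT D h A hA o o' hg
    hg' ho ho' i
  have hp : PowOK [D.Ta, D.Tc, D.Tb] D.rho D.L.length D.Vs := by
    have h2 := powC_ok (Ts := [D.Ta, D.Tc, D.Tb]) (rho := D.rho) (n := famC.lenL D.L)
      (Vs := D.Vs) (D := A) hA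
    rw [lenL_eq] at h2
    exact h2
  exact fP1_sound h0 h1 hc hz hzx hre him (PK.ofM h0 h1 w1_wts hK) (PK.ofM h0 h1 w1_wts hK')
    (PK.ofM h0 h1 w1_wts hL) (PK.ofM h0 h1 w1_wts hU) (PK.ofM h0 h1 w1_wts hZ) h hp hg hg' ho ho' i

end Pool.Agent.Helper84.KNP
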