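import Pool.Agent.Helper84.KNP.KD
import Pool.Agent.Helper17.C75.Kp1
import Pool.Agent.Helper90.CX.KM4

/-!
Row KNP, soundness, part 1: digits, residues, rounding.
-/

set_option autoImplicit false
set_option exponentiation.threshold 4000
noncomputable section
namespace Pool.Agent.Helper84.KNP

open Pool.Agent.Helper86.C75 (Z)
open Pool.Agent.Helper86.CX
open Pool.Agent.Helper17
open Pool.Agent.Helper90.KMO (zv cz UU UU_pos nb2_le norm_le_of_comp c_add c_mul)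
open Pool.Agent.Helper90.C75

/-! ### constants -/

theorem X1_eq : X1 = 2 ^ 256 := by decide +kernel
theorem MG_eq : MG = 2 ^ 512 + 1 := by decide +kernel
theorem NG1_eq : NG1 = 2 ^ 512 := by decide +kernel
theorem OO_eq : OO = 2 ^ 160 := by decide +kernel
theorem ZZ_eq : ZZ = 2 ^ 160 + 2 ^ 256 * 2 ^ 160 := by decide +kernel
theorem CG_eq : CG + ZZ = MG := by decide +kernel
theorem O8_eq : O8 = 2 ^ 208 + 2 ^ 256 * 2 ^ 208 := by decide +kernel
theorem O10_eq : O10 = 2 ^ 210 + 2 ^ 256 * 2 ^ 210 := by decide +kernel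
theorem MK_eq : MK = 2 ^ 256 * (2 ^ 161 - 1) + (2 ^ 161 - 1) := by decide +kernel
theorem CJ_eq : CJ = 2 ^ 256 * 2 ^ 161 := by decide +kernel
theorem B100_eq : B100 = 2 ^ 100 := by decide +kernel
theorem U48_eq : U48 = 2 ^ 48 := by decide +kernel
theorem OX_eq : OX = 2 ^ 256 * 2 ^ 160 := by decide +kernel

theorem pr_eq (v : ℕ) : pr v = v % 2 ^ 256 := by
  show v % X1 = _
  rw [X1_eq]

theorem pj_eq (v : ℕ) : pj v = v / 2 ^ 256 := by
  show v / X1 = _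
  rw [X1_eq]

theorem dg_lt (v : ℕ) : pr v < 2 ^ 256 := by
  rw [pr_eq]; exact Nat.mod_lt _ (by norm_num)

theorem dg_add (v : ℕ) : pr v + 2 ^ 256 * pj v = v := by
  rw [pr_eq, pj_eq]; exact Nat.mod_add_div _ _

theorem pr_mk {p q : ℕ} (h : p < 2 ^ 256) : pr (p + 2 ^ 256 * q) = p := by
  rw [pr_eq, Nat.add_mul_mod_self_left, Nat.mod_eq_of_lt h]

theorem pj_mk {p q : ℕ} (h : p < 2 ^ 256) : pj (p + 2 ^ 256 * q) = q := by
  rw [pj_eq, Nat.add_mul_div_left _ _ (by norm_num), Nat.div_eq_of_lt h, zero_add]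

/-! ### decoding -/

/-- real part -/
def dr (v : ℕ) : ℤ := (pr v : ℤ) - 2 ^ 160
/-- imaginary part -/
def dj (v : ℕ) : ℤ := (pj v : ℤ) - 2 ^ 160
def dc (v : ℕ) : ℂ := ⟨(dr v : ℝ), (dj v : ℝ)⟩

theorem dc_re (v : ℕ) : (dc v).re = dr v := rfl
theorem dc_im (v : ℕ) : (dc v).im = dj v := rfl

theorem dc_mk {p q : ℕ} {x y : ℤ} (h : p < 2 ^ 256) (hx : (p : ℤ) = x + 2 ^ 160)
    (hy : (q : ℤ) = y + 2 ^ 160) : dr (p + 2 ^ 256 * q) = x ∧ dj (p + 2 ^ 256 * q) = y := by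
  unfold dr dj
  rw [pr_mk h, pj_mk h]
  constructor <;> linarith

theorem absd_eq (a b : ℕ) : ((absd a b : ℕ) : ℝ) = |(a : ℝ) - b| := by
  show (((a - b) + (b - a) : ℕ) : ℝ) = _
  rcases le_total a b with h | h
  · rw [Nat.sub_eq_zero_of_le h, zero_add, Nat.cast_sub h, abs_sub_comm, abs_of_nonneg]
    have : (a : ℝ) ≤ b := by exact_mod_cast h
    linarith
  · rw [Nat.sub_eq_zero_of_le h, add_zero, Nat.cast_sub h, abs_of_nonneg]
    have : (b : ℝ) ≤ a := by exact_mod_cast h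
    linarith

theorem dif_le {u1 u2 v1 v2 : ℕ} {z : ℂ} (h1 : z.re = (u1 : ℝ) - v1) (h2 : z.im = (u2 : ℝ) - v2) :
    ‖z‖ ≤ dif u1 u2 v1 v2 := by
  apply nb2_le
  · rw [absd_eq, h1]
  · rw [absd_eq, h2]

theorem dr_c (v : ℕ) : ((dr v : ℤ) : ℝ) = (pr v : ℝ) - 2 ^ 160 := by
  unfold dr; rw [Int.cast_sub, Int.cast_natCast, Int.cast_pow, Int.cast_ofNat]
theorem dj_c (v : ℕ) : ((dj v : ℤ) : ℝ) = (pj v : ℝ) - 2 ^ 160 := by
  unfold dj; rw [Int.cast_sub, Int.cast_natCast, Int.cast_pow, Int.cast_ofNat]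

/-! ### the mask -/

theorem land_MK (w : ℕ) : w &&& MK = w % 2 ^ 161 + 2 ^ 256 * (w / 2 ^ 256 % 2 ^ 161) := by
  have h161 : w % 2 ^ 161 < 2 ^ 256 :=
    lt_of_lt_of_le (Nat.mod_lt _ (by norm_num)) (by norm_num)
  rw [MK_eq, add_comm (w % 2 ^ 161)]
  apply Nat.eq_of_testBit_eq
  intro i
  rw [Nat.testBit_and, Nat.testBit_two_pow_mul_add _ (by norm_num),
    Nat.testBit_two_pow_mul_add _ h161]
  by_cases hi : i < 256
  · rw [if_pos hi, if_pos hi, Nat.testBit_two_pow_sub_one, Nat.testBit_mod_two_pow, Bool.and_comm]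
  · rw [if_neg hi, if_neg hi, Nat.testBit_two_pow_sub_one, Nat.testBit_mod_two_pow,
      Nat.testBit_div_two_pow, Bool.and_comm]
    congr 2
    omega

theorem shr_land {P Q k : ℕ} (hk : k ≤ 50) (hP : P < 2 ^ (161 + k)) (hQ : Q < 2 ^ (161 + k)) :
    Nat.land (Nat.shiftRight (P + 2 ^ 256 * Q) k) MK = P / 2 ^ k + 2 ^ 256 * (Q / 2 ^ k) := by
  have hP2 : P < 2 ^ 256 := lt_of_lt_of_le hP (Nat.pow_le_pow_right (by norm_num) (by omega))
  have e0 : (2 : ℕ) ^ 256 = 2 ^ k * 2 ^ (256 - k) := by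
    rw [← pow_add]; congr 1; omega
  have e1 : Nat.shiftRight (P + 2 ^ 256 * Q) k = (P + 2 ^ 256 * Q) / 2 ^ k := by
    show (P + 2 ^ 256 * Q) >>> k = _
    rw [Nat.shiftRight_eq_div_pow]
  have e2 : (P + 2 ^ 256 * Q) / 2 ^ k = P / 2 ^ k + 2 ^ (256 - k) * Q := by
    rw [e0, mul_assoc, Nat.add_mul_div_left _ _ (by positivity)]
  have hPk : P / 2 ^ k < 2 ^ 161 := by
    rw [Nat.div_lt_iff_lt_mul (by positivity), ← pow_add]; exact hP
  have hQk : Q / 2 ^ k < 2 ^ 161 := by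
    rw [Nat.div_lt_iff_lt_mul (by positivity), ← pow_add]; exact hQ
  show Nat.shiftRight (P + 2 ^ 256 * Q) k &&& MK = _
  rw [land_MK, e1]
  have e3 : (P + 2 ^ 256 * Q) / 2 ^ k / 2 ^ 256 = Q / 2 ^ k := by
    rw [Nat.div_div_eq_div_mul, mul_comm (2 ^ k), ← Nat.div_div_eq_div_mul,
      Nat.add_mul_div_left _ _ (by positivity), Nat.div_eq_of_lt hP2, zero_add]
  have e4 : (P + 2 ^ 256 * Q) / 2 ^ k % 2 ^ 161 = P / 2 ^ k := by
    have e5 : (2 : ℕ) ^ (256 - k) = 2 ^ 161 * 2 ^ (95 - k) := by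
      rw [← pow_add]; congr 1; omega
    rw [e2, e5, mul_assoc, Nat.add_mul_mod_self_left, Nat.mod_eq_of_lt hPk]
  rw [e3, e4, Nat.mod_eq_of_lt hQk]

/-! ### residues -/

/-- the Gaussian integer `x + i y` -/
def G (x y : ℤ) : ℤ := x + 2 ^ 256 * y

theorem G_add (x y x' y' : ℤ) : G x y + G x' y' = G (x + x') (y + y') := by
  unfold G; ring

theorem G_smul (c x y : ℤ) : c * G x y = G (c * x) (c * y) := by
  unfold G; ring

theorem rep_gz (v : ℕ) : PAK.Rep MG (gz v) (G (dr v) (dj v)) := by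
  have e : ((gz v : ℕ) : ℤ) = G (dr v) (dj v) + MG := by
    show ((v + CG : ℕ) : ℤ) = _
    have h1 := dg_add v
    have h2 := CG_eq
    rw [ZZ_eq] at h2
    unfold G dr dj
    have h1' : (pr v : ℤ) + 2 ^ 256 * pj v = v := by
      rw [← h1, Nat.cast_add, Nat.cast_mul, Nat.cast_pow, Nat.cast_ofNat]
      rw [h1]
    have h2' : (CG : ℤ) + (2 ^ 160 + 2 ^ 256 * 2 ^ 160) = MG := by
      rw [← h2]
      simp only [Nat.cast_add, Nat.cast_mul, Nat.cast_pow, Nat.cast_ofNat]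
    rw [Nat.cast_add]
    linarith
  unfold PAK.Rep
  rw [e]
  exact Int.add_modEq_right

theorem gmul {m n : ℕ} {x y x' y' : ℤ} (h : PAK.Rep MG m (G x y)) (h' : PAK.Rep MG n (G x' y')) :
    PAK.Rep MG (m * n) (G (x * x' - y * y') (x * y' + y * x')) := by
  have h1 := h.mul h'
  unfold PAK.Rep at *
  refine h1.trans ?_
  have e : G x y * G x' y' = G (x * x' - y * y') (x * y' + y * x') + (MG : ℤ) * (y * y') := by
    unfold G
    rw [MG_eq]
    simp only [Nat.cast_add, Nat.cast_pow, Nat.cast_ofNat, Nat.cast_one]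
    ring
  rw [e]
  exact Int.modEq_add_fac_self

theorem rep_gd {a b : ℕ} (h : a ≤ b + MG) : PAK.Rep MG (gd a b) (G (dr b - dr a) (dj b - dj a)) := by
  have e : ((gd a b : ℕ) : ℤ) = G (dr b - dr a) (dj b - dj a) + MG := by
    show ((b + MG - a : ℕ) : ℤ) = _
    rw [Nat.cast_sub h]
    have h1 : (pr a : ℤ) + 2 ^ 256 * pj a = a := by exact_mod_cast dg_add a
    have h2 : (pr b : ℤ) + 2 ^ 256 * pj b = b := by exact_mod_cast dg_add b
    unfold G dr dj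
    push_cast
    linarith
  unfold PAK.Rep
  rw [e]
  exact Int.add_modEq_right

theorem rep_NG1 : PAK.Rep MG NG1 (-1) := by
  unfold PAK.Rep Int.ModEq
  decide +kernel

/-- decoding of a residue with an offset -/
theorem mod_off {s o k : ℕ} {x y : ℤ} (hs : PAK.Rep MG s (G x y)) (ho : o = 2 ^ k + 2 ^ 256 * 2 ^ k)
    (hk : k ≤ 210) (hx : |x| < 2 ^ k) (hy : |y| < 2 ^ k) :
    ∃ P Q : ℕ, Nat.mod (Nat.add s o) MG = P + 2 ^ 256 * Q ∧ (P : ℤ) = x + 2 ^ k ∧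
      (Q : ℤ) = y + 2 ^ k := by
  have hx' := abs_lt.1 hx
  have hy' := abs_lt.1 hy
  refine ⟨(x + 2 ^ k).toNat, (y + 2 ^ k).toNat, ?_, Int.toNat_of_nonneg (by linarith),
    Int.toNat_of_nonneg (by linarith)⟩
  have h1 : PAK.Rep MG (s + o) (G (x + 2 ^ k) (y + 2 ^ k)) := by
    have h2 := hs.add (PAK.Rep.nat MG o)
    have e : G x y + (o : ℤ) = G (x + 2 ^ k) (y + 2 ^ k) := by
      rw [ho]; unfold G; push_cast; ring
    rw [e] at h2
    exact h2
  have hk2 : (2 : ℤ) ^ k ≤ 2 ^ 210 := pow_le_pow_right₀ (by norm_num) hk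
  have h3 := h1.mod_eq (by rw [MG_eq]; norm_num) (by unfold G; nlinarith) (by
    unfold G; rw [MG_eq]; push_cast
    have e1 : x + 2 ^ k < 2 * 2 ^ 210 := by linarith
    have e2 : y + 2 ^ k < 2 * 2 ^ 210 := by linarith
    have e3 : (2 : ℤ) ^ 256 * (y + 2 ^ k) ≤ 2 ^ 256 * (2 * 2 ^ 210) := by
      apply mul_le_mul_of_nonneg_left e2.le (by norm_num)
    have e4 : (2 : ℤ) * 2 ^ 210 + 2 ^ 256 * (2 * 2 ^ 210) < 2 ^ 512 + 1 := by norm_num
    linarith)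
  have h4 : (((s + o) % MG : ℕ) : ℤ) = (((x + 2 ^ k).toNat + 2 ^ 256 * (y + 2 ^ k).toNat : ℕ) : ℤ) := by
    rw [h3]
    push_cast
    rw [Int.toNat_of_nonneg (by linarith), Int.toNat_of_nonneg (by linarith)]
    rfl
  exact_mod_cast h4

end Pool.Agent.Helper84.KNP
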