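import Pool.Agent.Helper84.KNP.KS1

/-!
Row KNP, soundness, part 2: models and linear operations.
-/

set_option autoImplicit false
set_option exponentiation.threshold 4000
noncomputable section
namespace Pool.Agent.Helper84.KNP

open Pool.Agent.Helper86.C75 (Z)
open Pool.Agent.Helper86.CX
open Pool.Agent.Helper17
open Pool.Agent.Helper90.KMO (zv cz UU UU_pos nb2_le norm_le_of_comp c_add c_mul div_ub)
open Pool.Agent.Helper90.C75

/-- the three control values -/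
def F3 (a c b : ℕ) : Fin 3 → ℂ := ![dc a, dc c, dc b]

/-- `P` is a model of the number `f` at the point `t` -/
structure PK (t : ℝ) (f : ℂ) (P : MP) : Prop where
  mod : Mod (bt t) (UU * f) (F3 P.a P.c P.b) P.r
  bd : ∀ i, ‖F3 P.a P.c P.b i‖ ≤ P.B
  dif : ‖dc P.b - dc P.a‖ ≤ P.d
  sec : ‖dc P.c - (dc P.a + dc P.b) / 2‖ ≤ P.f
  sm : P.B ≤ 2 ^ 100

variable {t : ℝ}

theorem PK.val_eq {f g : ℂ} {P : MP} (h : PK t f P) (e : f = g) : PK t g P := e ▸ h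

theorem dif3 (a b : ℕ) : ‖dc b - dc a‖ ≤ dif (pr b) (pj b) (pr a) (pj a) := by
  apply dif_le
  · rw [Complex.sub_re, dc_re, dc_re, dr_c, dr_c]; ring
  · rw [Complex.sub_im, dc_im, dc_im, dj_c, dj_c]; ring

theorem nat2 (a b : ℕ) : ((Nat.add a b : ℕ) : ℝ) = a + b := c_add a b

theorem half_ub (a : ℕ) : (a : ℝ) / 2 ≤ (Nat.add (Nat.div a (nat_lit 2)) (nat_lit 1) : ℕ) := by
  rw [c_add]
  have := div_ub a (b := 2) (by norm_num)
  norm_num at this ⊢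
  exact this

theorem sec3 (a c b : ℕ) : ‖dc c - (dc a + dc b) / 2‖ ≤
    KNP.sec (pr a) (pj a) (pr c) (pj c) (pr b) (pj b) := by
  have e : dc c - (dc a + dc b) / 2 = (2 * dc c - (dc a + dc b)) / 2 := by ring
  have h := dif_le (z := 2 * dc c - (dc a + dc b)) (u1 := Nat.add (pr c) (pr c))
    (u2 := Nat.add (pj c) (pj c)) (v1 := Nat.add (pr a) (pr b)) (v2 := Nat.add (pj a) (pj b))
    (by rw [c_add, c_add]; simp [dc_re, dr_c]; ring) (by rw [c_add, c_add]; simp [dc_im, dj_c]; ring)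
  rw [e, norm_div]
  have e2 : ‖(2 : ℂ)‖ = 2 := by norm_num
  rw [e2]
  refine le_trans ?_ (half_ub _)
  linarith

theorem mid3 (c : ℕ) : ‖dc c‖ ≤ KNP.dif (pr c) (pj c) OO OO := by
  apply dif_le
  · rw [dc_re, dr_c, OO_eq, Nat.cast_pow, Nat.cast_ofNat]
  · rw [dc_im, dj_c, OO_eq, Nat.cast_pow, Nat.cast_ofNat]

theorem mx_le1 (a b : ℕ) : (a : ℝ) ≤ mx a b := Pool.Agent.Helper90.KMO.mx_l a b
theorem mx_le2 (a b : ℕ) : (b : ℝ) ≤ mx a b := Pool.Agent.Helper90.KMO.mx_r a b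

theorem mx3_1 (x y z : ℕ) : (x : ℝ) ≤ mx3 x y z := mx_le1 _ _
theorem mx3_2 (x y z : ℕ) : (y : ℝ) ≤ mx3 x y z := (mx_le1 y z).trans (mx_le2 _ _)
theorem mx3_3 (x y z : ℕ) : (z : ℝ) ≤ mx3 x y z := (mx_le2 y z).trans (mx_le2 _ _)

/-- the bound of the three controls -/
theorem bv_le (a c b : ℕ) (i : Fin 3) : ‖F3 a c b i‖ ≤ bv a c b := by
  unfold bv bd
  fin_cases i
  · exact (mid3 a).trans (mx3_1 _ _ _)
  · exact (mid3 c).trans (mx3_2 _ _ _)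
  · exact (mid3 b).trans (mx3_3 _ _ _)

theorem dc_ZZ : dc ZZ = 0 := by
  obtain ⟨h1, h2⟩ := dc_mk (p := 2 ^ 160) (q := 2 ^ 160) (x := 0) (y := 0) (by norm_num)
    (by norm_num) (by norm_num)
  rw [← ZZ_eq] at h1 h2
  apply Complex.ext
  · rw [dc_re, h1]; norm_num
  · rw [dc_im, h2]; norm_num

theorem F3_ZZ : F3 ZZ ZZ ZZ = fun _ => 0 := by
  funext i
  fin_cases i <;> exact dc_ZZ

/-- the fallback -/
theorem PK.zero (h0 : 0 ≤ t) (h1 : t ≤ 1) {f : ℂ} {r : ℕ} (h : ‖(UU : ℂ) * f‖ ≤ r) :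
    PK t f ⟨ZZ, ZZ, ZZ, r, nat_lit 0, nat_lit 0, nat_lit 0⟩ := by
  have hb := Wts.bt h0 h1
  refine ⟨?_, fun i => ?_, ?_, ?_, ?_⟩
  · show ‖(UU : ℂ) * f - avg (bt t) (F3 ZZ ZZ ZZ)‖ ≤ r
    rw [F3_ZZ, avg_const hb, sub_zero]
    exact h
  · show ‖F3 ZZ ZZ ZZ i‖ ≤ _
    rw [F3_ZZ]; simp
  · show ‖dc ZZ - dc ZZ‖ ≤ _
    rw [sub_self]; simp
  · show ‖dc ZZ - (dc ZZ + dc ZZ) / 2‖ ≤ _
    rw [dc_ZZ]; simp
  · exact Nat.zero_le _

/-- guarded record -/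
theorem PK.mk4 (h0 : 0 ≤ t) (h1 : t ≤ 1) {f : ℂ} {a c b r B d e : ℕ}
    (h : Nat.ble B B100 = true → PK t f ⟨a, c, b, r, B, d, e⟩)
    (h' : Nat.ble B B100 = false → ‖(UU : ℂ) * f‖ ≤ (Nat.add r B : ℕ)) :
    PK t f (KNP.mk4 a c b r B d e) := by
  unfold KNP.mk4
  cases hB : Nat.ble B B100 with
  | true => exact h hB
  | false => exact PK.zero h0 h1 (h' hB)

theorem ble100 {B : ℕ} (h : Nat.ble B B100 = true) : B ≤ 2 ^ 100 := by
  have := Nat.le_of_ble_eq_true h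
  rwa [B100_eq] at this

theorem norm_of_mod (h0 : 0 ≤ t) (h1 : t ≤ 1) {f : ℂ} {F : Fin 3 → ℂ} {r B : ℝ}
    (h : Mod (bt t) f F r) (hB : ∀ i, ‖F i‖ ≤ B) : ‖f‖ ≤ r + B := by
  have h2 := norm_avg_le (Wts.bt h0 h1) hB
  have h3 : ‖f - avg (bt t) F‖ ≤ r := h
  have e : f = (f - avg (bt t) F) + avg (bt t) F := by ring
  rw [e]
  exact (norm_add_le _ _).trans (add_le_add h3 h2)

/-- recomputed bounds -/
theorem PK.mkP (h0 : 0 ≤ t) (h1 : t ≤ 1) {f : ℂ} {a c b r : ℕ}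
    (h : Mod (bt t) (UU * f) (F3 a c b) r) : PK t f (KNP.mkP a c b r) := by
  refine PK.mk4 h0 h1 (fun hB => ⟨h, bv_le a c b, dif3 a b, sec3 a c b, ble100 hB⟩) (fun _ => ?_)
  rw [c_add]
  exact norm_of_mod h0 h1 h (bv_le a c b)

/-! ### small numbers -/

theorem small {v B : ℕ} (h : ‖dc v‖ ≤ B) (hB : B ≤ 2 ^ 100) :
    |dr v| ≤ 2 ^ 100 ∧ |dj v| ≤ 2 ^ 100 := by
  have hB' : (B : ℝ) ≤ 2 ^ 100 := by exact_mod_cast hB
  constructor
  · have h1 := (Complex.abs_re_le_norm (dc v)).trans (h.trans hB')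
    rw [dc_re] at h1
    exact_mod_cast h1
  · have h1 := (Complex.abs_im_le_norm (dc v)).trans (h.trans hB')
    rw [dc_im] at h1
    exact_mod_cast h1

/-- digits near `2 ^ 160` -/
def Sm (v : ℕ) : Prop := |dr v| ≤ 2 ^ 100 ∧ |dj v| ≤ 2 ^ 100

theorem PK.sa {f : ℂ} {P : MP} (h : PK t f P) : Sm P.a := small (h.bd 0) h.sm
theorem PK.sc {f : ℂ} {P : MP} (h : PK t f P) : Sm P.c := small (h.bd 1) h.sm
theorem PK.sb {f : ℂ} {P : MP} (h : PK t f P) : Sm P.b := small (h.bd 2) h.sm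

theorem Sm.dg {v : ℕ} (h : Sm v) : 2 ^ 160 - 2 ^ 100 ≤ pr v ∧ pr v ≤ 2 ^ 160 + 2 ^ 100 ∧
    2 ^ 160 - 2 ^ 100 ≤ pj v ∧ pj v ≤ 2 ^ 160 + 2 ^ 100 := by
  obtain ⟨h1, h2⟩ := h
  have a1 := abs_le.1 h1
  have a2 := abs_le.1 h2
  unfold dr at a1
  unfold dj at a2
  norm_num at a1 a2 ⊢
  omega

theorem av_eq {u v : ℕ} (hu : Sm u) (hv : Sm v) : dc (av u v) = dc u + dc v := by
  obtain ⟨a1, a2, a3, a4⟩ := hu.dg
  obtain ⟨b1, b2, b3, b4⟩ := hv.dg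
  have e : av u v = (pr u + pr v - 2 ^ 160) + 2 ^ 256 * (pj u + pj v - 2 ^ 160) := by
    have h1 := dg_add u
    have h2 := dg_add v
    show u + v - ZZ = _
    rw [ZZ_eq]
    norm_num at *
    omega
  obtain ⟨c1, c2⟩ := dc_mk (p := pr u + pr v - 2 ^ 160) (q := pj u + pj v - 2 ^ 160)
    (x := dr u + dr v) (y := dj u + dj v) (by norm_num at *; omega)
    (by unfold dr; rw [Nat.cast_sub (by norm_num at *; omega)]; push_cast; ring)
    (by unfold dj; rw [Nat.cast_sub (by norm_num at *; omega)]; push_cast; ring)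
  rw [← e] at c1 c2
  apply Complex.ext
  · rw [Complex.add_re, dc_re, dc_re, dc_re, c1]; push_cast; rfl
  · rw [Complex.add_im, dc_im, dc_im, dc_im, c2]; push_cast; rfl

theorem sv_eq {u v : ℕ} (hu : Sm u) (hv : Sm v) : dc (sv u v) = dc u - dc v := by
  obtain ⟨a1, a2, a3, a4⟩ := hu.dg
  obtain ⟨b1, b2, b3, b4⟩ := hv.dg
  have e : sv u v = (pr u + 2 ^ 160 - pr v) + 2 ^ 256 * (pj u + 2 ^ 160 - pj v) := by
    have h1 := dg_add u
    have h2 := dg_add v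
    show u + ZZ - v = _
    rw [ZZ_eq]
    norm_num at *
    omega
  obtain ⟨c1, c2⟩ := dc_mk (p := pr u + 2 ^ 160 - pr v) (q := pj u + 2 ^ 160 - pj v)
    (x := dr u - dr v) (y := dj u - dj v) (by norm_num at *; omega)
    (by unfold dr; rw [Nat.cast_sub (by norm_num at *; omega)]; push_cast; ring)
    (by unfold dj; rw [Nat.cast_sub (by norm_num at *; omega)]; push_cast; ring)
  rw [← e] at c1 c2
  apply Complex.ext
  · rw [Complex.sub_re, dc_re, dc_re, dc_re, c1]; push_cast; rfl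
  · rw [Complex.sub_im, dc_im, dc_im, dc_im, c2]; push_cast; rfl

theorem cjv_eq {v : ℕ} (hv : Sm v) : dc (cjv v) = star (dc v) := by
  obtain ⟨b1, b2, b3, b4⟩ := hv.dg
  have e : cjv v = pr v + 2 ^ 256 * (2 ^ 161 - pj v) := by
    have h2 := dg_add v
    show pr v + pr v + CJ - v = _
    rw [CJ_eq]
    norm_num at *
    omega
  obtain ⟨c1, c2⟩ := dc_mk (p := pr v) (q := 2 ^ 161 - pj v)
    (x := dr v) (y := - dj v) (dg_lt v)
    (by unfold dr; ring)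
    (by unfold dj; rw [Nat.cast_sub (by norm_num at *; omega)]; push_cast; ring)
  rw [← e] at c1 c2
  apply Complex.ext
  · rw [dc_re, c1]; rfl
  · rw [dc_im, c2]
    show ((-dj v : ℤ) : ℝ) = -(dj v : ℝ)
    push_cast; rfl

theorem rv_eq (v : ℕ) : dc (rv v) = ((dc v).re : ℂ) := by
  have e : rv v = pr v + 2 ^ 256 * 2 ^ 160 := by
    show pr v + OX = _
    rw [OX_eq]
  obtain ⟨c1, c2⟩ := dc_mk (p := pr v) (q := 2 ^ 160)
    (x := dr v) (y := 0) (dg_lt v) (by unfold dr; ring) (by norm_num)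
  rw [← e] at c1 c2
  apply Complex.ext
  · rw [dc_re, c1]; rfl
  · rw [dc_im, c2]; simp

theorem jv_eq {v : ℕ} (hv : Sm v) : dc (jv v) = ((dc v).im : ℂ) := by
  obtain ⟨b1, b2, b3, b4⟩ := hv.dg
  have e : jv v = pj v + 2 ^ 256 * 2 ^ 160 := by
    show pj v + OX = _
    rw [OX_eq]
  obtain ⟨c1, c2⟩ := dc_mk (p := pj v) (q := 2 ^ 160)
    (x := dj v) (y := 0) (by norm_num at *; omega) (by unfold dj; ring) (by norm_num)
  rw [← e] at c1 c2
  apply Complex.ext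
  · rw [dc_re, c1]; rfl
  · rw [dc_im, c2]; simp

/-! ### linear operations -/

theorem PK.add (h0 : 0 ≤ t) (h1 : t ≤ 1) {f g : ℂ} {P Q : MP} (hf : PK t f P) (hg : PK t g Q) :
    PK t (f + g) (addP P Q) := by
  apply PK.mkP h0 h1
  have h := hf.mod.add hg.mod
  have e : (UU : ℂ) * f + UU * g = UU * (f + g) := by ring
  rw [e] at h
  have e2 : F3 (av P.a Q.a) (av P.c Q.c) (av P.b Q.b) =
      fun v => F3 P.a P.c P.b v + F3 Q.a Q.c Q.b v := by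
    funext i
    fin_cases i
    · exact av_eq hf.sa hg.sa
    · exact av_eq hf.sc hg.sc
    · exact av_eq hf.sb hg.sb
  rw [e2, c_add]
  exact h

theorem PK.sub (h0 : 0 ≤ t) (h1 : t ≤ 1) {f g : ℂ} {P Q : MP} (hf : PK t f P) (hg : PK t g Q) :
    PK t (f - g) (subP P Q) := by
  apply PK.mkP h0 h1
  have h := hf.mod.sub hg.mod
  have e : (UU : ℂ) * f - UU * g = UU * (f - g) := by ring
  rw [e] at h
  have e2 : F3 (sv P.a Q.a) (sv P.c Q.c) (sv P.b Q.b) =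
      fun v => F3 P.a P.c P.b v - F3 Q.a Q.c Q.b v := by
    funext i
    fin_cases i
    · exact sv_eq hf.sa hg.sa
    · exact sv_eq hf.sc hg.sc
    · exact sv_eq hf.sb hg.sb
  rw [e2, c_add]
  exact h

theorem PK.cj {f : ℂ} {P : MP} (hf : PK t f P) : PK t (star f) (cjP P) := by
  have e2 : F3 (cjv P.a) (cjv P.c) (cjv P.b) = fun v => star (F3 P.a P.c P.b v) := by
    funext i
    fin_cases i
    · exact cjv_eq hf.sa
    · exact cjv_eq hf.sc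
    · exact cjv_eq hf.sb
  refine ⟨?_, fun i => ?_, ?_, ?_, hf.sm⟩
  · show Mod (bt t) (UU * star f) (F3 (cjv P.a) (cjv P.c) (cjv P.b)) P.r
    have h := hf.mod.star
    have e3 : star ((UU : ℂ) * f) = UU * star f := by simp
    rw [e3] at h
    rw [e2]
    exact h
  · show ‖F3 (cjv P.a) (cjv P.c) (cjv P.b) i‖ ≤ P.B
    rw [e2, norm_star]
    exact hf.bd i
  · show ‖dc (cjv P.b) - dc (cjv P.a)‖ ≤ P.d
    rw [cjv_eq hf.sa, cjv_eq hf.sb, ← star_sub, norm_star]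
    exact hf.dif
  · show ‖dc (cjv P.c) - (dc (cjv P.a) + dc (cjv P.b)) / 2‖ ≤ P.f
    rw [cjv_eq hf.sa, cjv_eq hf.sb, cjv_eq hf.sc]
    have e4 : star (dc P.c) - (star (dc P.a) + star (dc P.b)) / 2 =
        star (dc P.c - (dc P.a + dc P.b) / 2) := by simp
    rw [e4, norm_star]
    exact hf.sec

theorem PK.wd {f g : ℂ} {P : MP} {e : ℕ} (hf : PK t f P) (h : ‖g - f‖ * UU ≤ e) :
    PK t g (wdP e P) := by
  refine ⟨?_, hf.bd, hf.dif, hf.sec, hf.sm⟩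
  show ‖(UU : ℂ) * g - avg (bt t) (F3 P.a P.c P.b)‖ ≤ ((Nat.add P.r e : ℕ) : ℝ)
  have h1 : ‖(UU : ℂ) * f - avg (bt t) (F3 P.a P.c P.b)‖ ≤ P.r := hf.mod
  have e1 : (UU : ℂ) * g - avg (bt t) (F3 P.a P.c P.b) =
      ((UU : ℂ) * f - avg (bt t) (F3 P.a P.c P.b)) + (UU : ℂ) * (g - f) := by ring
  rw [e1, c_add]
  refine (norm_add_le _ _).trans (add_le_add h1 ?_)
  rw [norm_mul, Complex.norm_real, Real.norm_of_nonneg UU_pos.le, mul_comm]
  exact h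

theorem PK.nb (h0 : 0 ≤ t) (h1 : t ≤ 1) {f : ℂ} {P : MP} (hf : PK t f P) :
    ‖f‖ * UU ≤ nbP P := by
  have h := norm_of_mod h0 h1 hf.mod hf.bd
  rw [norm_mul, Complex.norm_real, Real.norm_of_nonneg UU_pos.le] at h
  unfold nbP
  rw [c_add]
  linarith

/-- real parts -/
theorem PK.re {f : ℂ} {P : MP} (hf : PK t f P) : PK t (f.re : ℂ) (reP P) := by
  have er : ∀ z : ℂ, ‖((z.re : ℝ) : ℂ)‖ ≤ ‖z‖ := fun z => by
    rw [Complex.norm_real]; exact Complex.abs_re_le_norm z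
  have e2 : F3 (rv P.a) (rv P.c) (rv P.b) = fun v => ((F3 P.a P.c P.b v).re : ℂ) := by
    funext i
    fin_cases i
    · exact rv_eq _
    · exact rv_eq _
    · exact rv_eq _
  refine ⟨?_, fun i => ?_, ?_, ?_, hf.sm⟩
  · show ‖(UU : ℂ) * (f.re : ℂ) - avg (bt t) (F3 (rv P.a) (rv P.c) (rv P.b))‖ ≤ P.r
    have h : ‖(UU : ℂ) * f - avg (bt t) (F3 P.a P.c P.b)‖ ≤ P.r := hf.mod
    have e3 : (UU : ℂ) * (f.re : ℂ) - avg (bt t) (F3 (rv P.a) (rv P.c) (rv P.b)) =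
        (((UU : ℂ) * f - avg (bt t) (F3 P.a P.c P.b)).re : ℂ) := by
      rw [e2, Complex.sub_re, Complex.re_ofReal_mul, avg_re]
      unfold avg
      push_cast
      rfl
    rw [e3]
    exact (er _).trans h
  · show ‖F3 (rv P.a) (rv P.c) (rv P.b) i‖ ≤ P.B
    rw [e2]
    exact (er _).trans (hf.bd i)
  · show ‖dc (rv P.b) - dc (rv P.a)‖ ≤ P.d
    rw [rv_eq, rv_eq, ← Complex.ofReal_sub, ← Complex.sub_re]
    exact (er _).trans hf.dif
  · show ‖dc (rv P.c) - (dc (rv P.a) + dc (rv P.b)) / 2‖ ≤ P.f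
    rw [rv_eq, rv_eq, rv_eq]
    have e4 : ((dc P.c).re : ℂ) - (((dc P.a).re : ℂ) + ((dc P.b).re : ℂ)) / 2 =
        ((dc P.c - (dc P.a + dc P.b) / 2).re : ℂ) := by
      have : ((dc P.a + dc P.b) / 2).re = ((dc P.a).re + (dc P.b).re) / 2 := by
        have e0 : (2 : ℂ) = ((2 : ℝ) : ℂ) := by norm_num
        rw [e0, Complex.div_ofReal_re, Complex.add_re]
      rw [Complex.sub_re, this]
      push_cast
      rfl
    rw [e4]
    exact (er _).trans hf.sec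

/-- imaginary parts -/
theorem PK.im {f : ℂ} {P : MP} (hf : PK t f P) : PK t (f.im : ℂ) (imP P) := by
  have er : ∀ z : ℂ, ‖((z.im : ℝ) : ℂ)‖ ≤ ‖z‖ := fun z => by
    rw [Complex.norm_real]; exact Complex.abs_im_le_norm z
  have e2 : F3 (jv P.a) (jv P.c) (jv P.b) = fun v => ((F3 P.a P.c P.b v).im : ℂ) := by
    funext i
    fin_cases i
    · exact jv_eq hf.sa
    · exact jv_eq hf.sc
    · exact jv_eq hf.sb
  refine ⟨?_, fun i => ?_, ?_, ?_, hf.sm⟩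
  · show ‖(UU : ℂ) * (f.im : ℂ) - avg (bt t) (F3 (jv P.a) (jv P.c) (jv P.b))‖ ≤ P.r
    have h : ‖(UU : ℂ) * f - avg (bt t) (F3 P.a P.c P.b)‖ ≤ P.r := hf.mod
    have e3 : (UU : ℂ) * (f.im : ℂ) - avg (bt t) (F3 (jv P.a) (jv P.c) (jv P.b)) =
        (((UU : ℂ) * f - avg (bt t) (F3 P.a P.c P.b)).im : ℂ) := by
      rw [e2, Complex.sub_im, Complex.im_ofReal_mul, avg_im]
      unfold avg
      push_cast
      rfl
    rw [e3]
    exact (er _).trans h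
  · show ‖F3 (jv P.a) (jv P.c) (jv P.b) i‖ ≤ P.B
    rw [e2]
    exact (er _).trans (hf.bd i)
  · show ‖dc (jv P.b) - dc (jv P.a)‖ ≤ P.d
    rw [jv_eq hf.sa, jv_eq hf.sb, ← Complex.ofReal_sub, ← Complex.sub_im]
    exact (er _).trans hf.dif
  · show ‖dc (jv P.c) - (dc (jv P.a) + dc (jv P.b)) / 2‖ ≤ P.f
    rw [jv_eq hf.sa, jv_eq hf.sb, jv_eq hf.sc]
    have e4 : ((dc P.c).im : ℂ) - (((dc P.a).im : ℂ) + ((dc P.b).im : ℂ)) / 2 =
        ((dc P.c - (dc P.a + dc P.b) / 2).im : ℂ) := by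
      have : ((dc P.a + dc P.b) / 2).im = ((dc P.a).im + (dc P.b).im) / 2 := by
        have e0 : (2 : ℂ) = ((2 : ℝ) : ℂ) := by norm_num
        rw [e0, Complex.div_ofReal_im, Complex.add_im]
      rw [Complex.sub_im, this]
      push_cast
      rfl
    rw [e4]
    exact (er _).trans hf.sec

end Pool.Agent.Helper84.KNP
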