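import Pool.Agent.Helper84.KNP.KS2

/-!
Row KNP, soundness, part 3: products.
-/

set_option autoImplicit false
set_option exponentiation.threshold 4000
noncomputable section
namespace Pool.Agent.Helper84.KNP

open Pool.Agent.Helper86.C75 (Z)
open Pool.Agent.Helper86.CX
open Pool.Agent.Helper17
open Pool.Agent.Helper90.KMO (zv cz UU UU_pos nb2_le norm_le_of_comp c_add c_mul div_ub UUc_ne norm_UU)
open Pool.Agent.Helper90.C75

variable {t : ℝ}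

/-- a Gaussian integer -/
def gc (x y : ℤ) : ℂ := ⟨(x : ℝ), (y : ℝ)⟩

theorem gc_dc (v : ℕ) : dc v = gc (dr v) (dj v) := rfl

theorem gc_mul (x y x' y' : ℤ) : gc x y * gc x' y' = gc (x * x' - y * y') (x * y' + y * x') := by
  apply Complex.ext
  · rw [Complex.mul_re]; simp [gc]
  · rw [Complex.mul_im]; simp [gc]

theorem gc_add (x y x' y' : ℤ) : gc x y + gc x' y' = gc (x + x') (y + y') := by
  apply Complex.ext <;> simp [gc]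

theorem gc_sub (x y x' y' : ℤ) : gc x y - gc x' y' = gc (x - x') (y - y') := by
  apply Complex.ext <;> simp [gc]

theorem gc_lt {x y : ℤ} {k : ℕ} (h : ‖gc x y‖ < 2 ^ k) : |x| < 2 ^ k ∧ |y| < 2 ^ k := by
  constructor
  · have h1 := (Complex.abs_re_le_norm (gc x y)).trans_lt h
    have h2 : |(x : ℝ)| < 2 ^ k := h1
    exact_mod_cast h2
  · have h1 := (Complex.abs_im_le_norm (gc x y)).trans_lt h
    have h2 : |(y : ℝ)| < 2 ^ k := h1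
    exact_mod_cast h2

theorem div_near (P k : ℕ) : |((P / 2 ^ k : ℕ) : ℝ) - P / 2 ^ k| ≤ 1 := by
  have h1 : P / 2 ^ k * 2 ^ k ≤ P := Nat.div_mul_le_self _ _
  have h2 : P < (P / 2 ^ k + 1) * 2 ^ k := by
    have := Nat.lt_div_mul_add (a := P) (b := 2 ^ k) (by positivity)
    linarith
  have h1' : ((P / 2 ^ k : ℕ) : ℝ) * 2 ^ k ≤ P := by exact_mod_cast h1
  have h2' : (P : ℝ) < (((P / 2 ^ k : ℕ) : ℝ) + 1) * 2 ^ k := by exact_mod_cast h2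
  have hk : (0 : ℝ) < 2 ^ k := by positivity
  have h3 : ((P / 2 ^ k : ℕ) : ℝ) ≤ P / 2 ^ k := by rw [le_div_iff₀ hk]; exact h1'
  have h4 : (P : ℝ) / 2 ^ k ≤ ((P / 2 ^ k : ℕ) : ℝ) + 1 := by rw [div_le_iff₀ hk]; exact h2'.le
  rw [abs_le]
  constructor <;> linarith

/-- rounding of a residue -/
theorem rnd {s o k : ℕ} {x y : ℤ} (hs : PAK.Rep MG s (G x y))
    (ho : o = 2 ^ (160 + k) + 2 ^ 256 * 2 ^ (160 + k)) (hk : k ≤ 50)
    (h : ‖gc x y‖ < 2 ^ (160 + k)) :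
    ‖dc (Nat.land (Nat.shiftRight (Nat.mod (Nat.add s o) MG) k) MK) - gc x y / 2 ^ k‖ ≤ 3 / 2 := by
  obtain ⟨hx, hy⟩ := gc_lt h
  obtain ⟨P, Q, e, hP, hQ⟩ := mod_off hs ho (by omega) hx hy
  have hx' := abs_lt.1 hx
  have hy' := abs_lt.1 hy
  have e0 : (2 : ℤ) ^ (161 + k) = 2 ^ (160 + k) + 2 ^ (160 + k) := by
    rw [show 161 + k = (160 + k) + 1 by ring, pow_succ]; ring
  have hP2 : P < 2 ^ (161 + k) := by
    have : (P : ℤ) < 2 ^ (161 + k) := by rw [e0, hP]; linarith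
    exact_mod_cast this
  have hQ2 : Q < 2 ^ (161 + k) := by
    have : (Q : ℤ) < 2 ^ (161 + k) := by rw [e0, hQ]; linarith
    exact_mod_cast this
  rw [e, shr_land hk hP2 hQ2]
  have hPk : P / 2 ^ k < 2 ^ 256 := by
    refine lt_of_le_of_lt (Nat.div_le_self _ _) (lt_of_lt_of_le hP2 ?_)
    exact Nat.pow_le_pow_right (by norm_num) (by omega)
  have hk0 : (0 : ℝ) < 2 ^ k := by positivity
  have e160 : ((2 : ℝ) ^ (160 + k)) / 2 ^ k = 2 ^ 160 := by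
    rw [pow_add]; field_simp
  have ek : (2 : ℂ) ^ k = (((2 : ℝ) ^ k : ℝ) : ℂ) := by push_cast; rfl
  apply norm_le_of_comp
  · rw [Complex.sub_re, dc_re, dr_c, pr_mk hPk, ek, Complex.div_ofReal_re]
    have h1 := div_near P k
    have h2 : (x : ℝ) = P - 2 ^ (160 + k) := by
      have : (P : ℝ) = ((P : ℤ) : ℝ) := by push_cast; rfl
      rw [this, hP]; push_cast; ring
    have h3 : (gc x y).re = x := rfl
    rw [h3, h2, sub_div, e160]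
    have e5 : ((P / 2 ^ k : ℕ) : ℝ) - 2 ^ 160 - ((P : ℝ) / 2 ^ k - 2 ^ 160) =
        ((P / 2 ^ k : ℕ) : ℝ) - P / 2 ^ k := by ring
    rw [e5]
    exact h1
  · rw [Complex.sub_im, dc_im, dj_c, pj_mk hPk, ek, Complex.div_ofReal_im]
    have h1 := div_near Q k
    have h2 : (y : ℝ) = Q - 2 ^ (160 + k) := by
      have : (Q : ℝ) = ((Q : ℤ) : ℝ) := by push_cast; rfl
      rw [this, hQ]; push_cast; ring
    have h3 : (gc x y).im = y := rfl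
    rw [h3, h2, sub_div, e160]
    have e5 : ((Q / 2 ^ k : ℕ) : ℝ) - 2 ^ 160 - ((Q : ℝ) / 2 ^ k - 2 ^ 160) =
        ((Q / 2 ^ k : ℕ) : ℝ) - Q / 2 ^ k := by ring
    rw [e5]
    exact h1

/-- the residue `s` represents the complex number `z` -/
def RC (s : ℕ) (z : ℂ) : Prop := ∃ x y : ℤ, PAK.Rep MG s (G x y) ∧ z = gc x y

theorem RC.gz (v : ℕ) : RC (gz v) (dc v) := ⟨dr v, dj v, rep_gz v, rfl⟩

theorem RC.gd {a b : ℕ} (h : a ≤ b + MG) : RC (gd a b) (dc b - dc a) :=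
  ⟨dr b - dr a, dj b - dj a, rep_gd h, by rw [gc_dc, gc_dc, gc_sub]⟩

theorem RC.mul {s s' : ℕ} {z z' : ℂ} (h : RC s z) (h' : RC s' z') : RC (Nat.mul s s') (z * z') := by
  obtain ⟨x, y, h1, rfl⟩ := h
  obtain ⟨x', y', h2, rfl⟩ := h'
  exact ⟨_, _, gmul h1 h2, gc_mul _ _ _ _⟩

theorem RC.add {s s' : ℕ} {z z' : ℂ} (h : RC s z) (h' : RC s' z') : RC (Nat.add s s') (z + z') := by
  obtain ⟨x, y, h1, rfl⟩ := h
  obtain ⟨x', y', h2, rfl⟩ := h'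
  refine ⟨x + x', y + y', ?_, gc_add _ _ _ _⟩
  have := h1.add h2
  rw [G_add] at this
  exact this

theorem RC.neg {s : ℕ} {z : ℂ} (h : RC s z) : RC (Nat.mul NG1 s) (-z) := by
  obtain ⟨x, y, h1, rfl⟩ := h
  refine ⟨-1 * x, -1 * y, ?_, ?_⟩
  · have := rep_NG1.mul h1
    rw [G_smul] at this
    exact this
  · apply Complex.ext <;> simp [gc]

theorem RC.four {s : ℕ} {z : ℂ} (h : RC s z) : RC (Nat.mul (nat_lit 4) s) (4 * z) := by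
  obtain ⟨x, y, h1, rfl⟩ := h
  refine ⟨4 * x, 4 * y, ?_, ?_⟩
  · have := (PAK.Rep.nat MG 4).mul h1
    have e : ((4 : ℕ) : ℤ) = 4 := rfl
    rw [e, G_smul] at this
    exact this
  · apply Complex.ext <;> simp [gc]

theorem RC.me {s : ℕ} {z : ℂ} (h : RC s z) (hz : ‖z‖ < 2 ^ 208) :
    ‖dc (me s) - z / UU‖ ≤ 3 / 2 := by
  obtain ⟨x, y, h1, rfl⟩ := h
  have h2 := rnd (k := 48) h1 O8_eq (by norm_num) hz
  have e : (UU : ℂ) = 2 ^ 48 := by unfold UU; norm_num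
  rw [e]
  exact h2

theorem RC.mc {s e : ℕ} {z z' : ℂ} (h : RC s z) (h' : RC e z') (hz : ‖4 * z - z'‖ < 2 ^ 210) :
    ‖dc (mc s e) - (z - z' / 4) / UU‖ ≤ 3 / 2 := by
  obtain ⟨x, y, h1, h2⟩ := h.four.add h'.neg
  have e1 : 4 * z + -z' = 4 * z - z' := by ring
  rw [e1] at h2
  rw [h2] at hz
  have h3 := rnd (k := 50) h1 O10_eq (by norm_num) hz
  have e : (z - z' / 4) / UU = gc x y / 2 ^ 50 := by
    rw [← h2]
    unfold UU
    push_cast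
    ring
  rw [e]
  exact h3

/-! ### the radius -/

theorem rF_ge (p q s : ℕ) : ((p : ℝ) + q / 10 + s / 4) / UU ≤ rF p q s := by
  have e : ((rF p q s : ℕ) : ℝ) = (Nat.div (Nat.add (Nat.mul (nat_lit 20) p)
      (Nat.add (Nat.mul (nat_lit 2) q) (Nat.mul (nat_lit 5) s))) D20 : ℕ) + 1 := by
    unfold rF
    rw [c_add]
    norm_num
  have h := div_ub (Nat.add (Nat.mul (nat_lit 20) p)
      (Nat.add (Nat.mul (nat_lit 2) q) (Nat.mul (nat_lit 5) s))) (b := D20)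
      (by decide +kernel)
  rw [e]
  refine le_trans (le_of_eq ?_) h
  rw [c_add, c_add, c_mul, c_mul, c_mul]
  have e2 : ((D20 : ℕ) : ℝ) = 20 * 281474976710656 := by
    have : D20 = 20 * 281474976710656 := by decide +kernel
    rw [this]; norm_num
  rw [e2]
  unfold UU
  norm_num
  ring

/-- product of control values -/
def p3 (F H : Fin 3 → ℂ) : Fin 3 → ℂ := fun i =>
  if i = 1 then F i * H i - (F 2 - F 0) * (H 2 - H 0) / 4 else F i * H i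

theorem p3_0 (F H : Fin 3 → ℂ) : p3 F H 0 = F 0 * H 0 := if_neg (by decide)
theorem p3_1 (F H : Fin 3 → ℂ) : p3 F H 1 = F 1 * H 1 - (F 2 - F 0) * (H 2 - H 0) / 4 :=
  if_pos rfl
theorem p3_2 (F H : Fin 3 → ℂ) : p3 F H 2 = F 2 * H 2 := if_neg (by decide)

theorem p3_v (F H : Fin 3 → ℂ) (i : Fin 3) : p3 F H i =
    (![F 0 * H 0, F 1 * H 1 - (F 2 - F 0) * (H 2 - H 0) / 4, F 2 * H 2] : Fin 3 → ℂ) i := by
  fin_cases i
  · exact p3_0 _ _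
  · exact p3_1 _ _
  · exact p3_2 _ _

theorem p3_s (F H F' H' F'' H'' : Fin 3 → ℂ) (i : Fin 3) :
    p3 F H i + (p3 F' H' i + p3 F'' H'' i) =
    (![F 0 * H 0 + (F' 0 * H' 0 + F'' 0 * H'' 0),
      F 1 * H 1 + (F' 1 * H' 1 + F'' 1 * H'' 1) - ((F 2 - F 0) * (H 2 - H 0) +
        ((F' 2 - F' 0) * (H' 2 - H' 0) + (F'' 2 - F'' 0) * (H'' 2 - H'' 0))) / 4,
      F 2 * H 2 + (F' 2 * H' 2 + F'' 2 * H'' 2)] : Fin 3 → ℂ) i := by
  fin_cases i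
  · show p3 F H 0 + (p3 F' H' 0 + p3 F'' H'' 0) = F 0 * H 0 + (F' 0 * H' 0 + F'' 0 * H'' 0)
    rw [p3_0, p3_0, p3_0]
  · show p3 F H 1 + (p3 F' H' 1 + p3 F'' H'' 1) = F 1 * H 1 + (F' 1 * H' 1 + F'' 1 * H'' 1) -
      ((F 2 - F 0) * (H 2 - H 0) + ((F' 2 - F' 0) * (H' 2 - H' 0) +
        (F'' 2 - F'' 0) * (H'' 2 - H'' 0))) / 4
    rw [p3_1, p3_1, p3_1]
    ring
  · show p3 F H 2 + (p3 F' H' 2 + p3 F'' H'' 2) = F 2 * H 2 + (F' 2 * H' 2 + F'' 2 * H'' 2)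
    rw [p3_2, p3_2, p3_2]

def FP (P : MP) : Fin 3 → ℂ := F3 P.a P.c P.b

/-- radius of a product, real numbers -/
def rM (P Q : MP) : ℝ :=
  (rA P Q : ℕ) + (rB P Q : ℕ) / 10 + (rC P Q : ℕ) / 4

theorem PK.mod_mul (h0 : 0 ≤ t) (h1 : t ≤ 1) {f g : ℂ} {P Q : MP} (hf : PK t f P)
    (hg : PK t g Q) : Mod (bt t) (UU * f * (UU * g)) (p3 (FP P) (FP Q)) (rM P Q) := by
  have hb := Wts.bt h0 h1
  have h := hf.mod.mulE hb hg.mod hf.bd hg.bd (bt_err h0 h1 (FP P) (FP Q) hf.dif hg.dif hf.sec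
    hg.sec)
  have e : (P.r : ℝ) * Q.B + Q.r * P.B + P.r * Q.r + (((P.d : ℝ) * Q.f + P.f * Q.d) / 10 +
      P.f * Q.f / 4) = rM P Q := by
    unfold rM rA rB rC
    rw [c_add, c_add, c_mul, c_mul, c_add, c_mul, c_mul, c_mul]
    ring
  rw [e] at h
  exact h

theorem pow200 {a b : ℝ} (ha : a ≤ 2 ^ 100) (hb : b ≤ 2 ^ 100) (hb0 : 0 ≤ b) :
    a * b ≤ 2 ^ 200 := by
  calc a * b ≤ 2 ^ 100 * 2 ^ 100 := mul_le_mul ha hb hb0 (by positivity)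
    _ = 2 ^ 200 := by rw [← pow_add]

theorem PK.bd' {f : ℂ} {P : MP} (h : PK t f P) (i : Fin 3) : ‖FP P i‖ ≤ 2 ^ 100 :=
  (h.bd i).trans (by exact_mod_cast h.sm)

theorem le_MG {f g : ℂ} {P Q : MP} (h : PK t f P) (_ : PK t g Q) : P.a ≤ Q.b + MG := by
  have h1 := dg_add P.a
  obtain ⟨b1, b2, b3, b4⟩ := h.sa.dg
  rw [MG_eq]
  norm_num at *
  omega

/-- one product: residues -/
theorem PK.res {f g : ℂ} {P Q : MP} (hf : PK t f P) (hg : PK t g Q) :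
    RC (m1 P.a Q.a) (FP P 0 * FP Q 0) ∧ RC (m1 P.b Q.b) (FP P 2 * FP Q 2) ∧
      RC (m1 P.c Q.c) (FP P 1 * FP Q 1) ∧
      RC (Nat.mul (gd P.a P.b) (gd Q.a Q.b)) ((FP P 2 - FP P 0) * (FP Q 2 - FP Q 0)) :=
  ⟨(RC.gz _).mul (RC.gz _), (RC.gz _).mul (RC.gz _), (RC.gz _).mul (RC.gz _),
    (RC.gd (le_MG hf hf)).mul (RC.gd (le_MG hg hg))⟩

/-- one product: sizes -/
theorem PK.siz {f g : ℂ} {P Q : MP} (hf : PK t f P) (hg : PK t g Q) :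
    (∀ i, ‖FP P i * FP Q i‖ ≤ 2 ^ 200) ∧
      ‖(FP P 2 - FP P 0) * (FP Q 2 - FP Q 0)‖ ≤ 2 ^ 202 := by
  constructor
  · intro i
    rw [norm_mul]
    exact pow200 (hf.bd' i) (hg.bd' i) (norm_nonneg _)
  · rw [norm_mul]
    have a1 : ‖FP P 2 - FP P 0‖ ≤ 2 ^ 101 := by
      refine (norm_sub_le _ _).trans ?_
      have := hf.bd' 2
      have := hf.bd' 0
      have e : (2 : ℝ) ^ 101 = 2 ^ 100 + 2 ^ 100 := by norm_num
      rw [e]; linarith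
    have a2 : ‖FP Q 2 - FP Q 0‖ ≤ 2 ^ 101 := by
      refine (norm_sub_le _ _).trans ?_
      have := hg.bd' 2
      have := hg.bd' 0
      have e : (2 : ℝ) ^ 101 = 2 ^ 100 + 2 ^ 100 := by norm_num
      rw [e]; linarith
    calc ‖FP P 2 - FP P 0‖ * ‖FP Q 2 - FP Q 0‖ ≤ 2 ^ 101 * 2 ^ 101 :=
          mul_le_mul a1 a2 (norm_nonneg _) (by positivity)
      _ = 2 ^ 202 := by rw [← pow_add]

/-- the three rounded values -/
theorem me3 {sa sc sb sd : ℕ} {za zc zb zd : ℂ} (ha : RC sa za) (hc : RC sc zc) (hb : RC sb zb)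
    (hd : RC sd zd) (na : ‖za‖ ≤ 2 ^ 202) (nc : ‖zc‖ ≤ 2 ^ 202) (nb : ‖zb‖ ≤ 2 ^ 202)
    (nd : ‖zd‖ ≤ 2 ^ 204) (i : Fin 3) :
    ‖(UU : ℂ)⁻¹ * ((![za, zc - zd / 4, zb] : Fin 3 → ℂ) i) - F3 (me sa) (mc sc sd) (me sb) i‖ ≤
      3 / 2 := by
  have e : ∀ z : ℂ, (UU : ℂ)⁻¹ * z = z / UU := fun z => by rw [div_eq_inv_mul]
  fin_cases i
  · show ‖(UU : ℂ)⁻¹ * za - dc (me sa)‖ ≤ _
    rw [e, norm_sub_rev]
    exact ha.me (lt_of_le_of_lt na (by norm_num))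
  · show ‖(UU : ℂ)⁻¹ * (zc - zd / 4) - dc (mc sc sd)‖ ≤ _
    rw [e, norm_sub_rev]
    refine hc.mc hd ?_
    have h4 : ‖(4 : ℂ) * zc‖ = 4 * ‖zc‖ := by rw [norm_mul]; norm_num
    refine lt_of_le_of_lt (norm_sub_le _ _) ?_
    rw [h4]
    have e2 : (2 : ℝ) ^ 210 = 256 * 2 ^ 202 := by norm_num
    have e3 : (2 : ℝ) ^ 204 = 4 * 2 ^ 202 := by norm_num
    rw [e2]
    rw [e3] at nd
    have : (0 : ℝ) < 2 ^ 202 := by positivity
    linarith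
  · show ‖(UU : ℂ)⁻¹ * zb - dc (me sb)‖ ≤ _
    rw [e, norm_sub_rev]
    exact hb.me (lt_of_le_of_lt nb (by norm_num))

theorem two_c (n : ℕ) : ((Nat.add n (nat_lit 2) : ℕ) : ℝ) = n + 2 := by
  rw [c_add]; norm_num

/-- PRODUCT -/
theorem PK.mul (h0 : 0 ≤ t) (h1 : t ≤ 1) {f g : ℂ} {P Q : MP} (hf : PK t f P) (hg : PK t g Q) :
    PK t (f * g) (mulP P Q) := by
  apply PK.mkP h0 h1
  obtain ⟨r1, r2, r3, r4⟩ := hf.res hg
  obtain ⟨s1, s2⟩ := hf.siz hg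
  have h := (PK.mod_mul h0 h1 hf hg).cmul (UU : ℂ)⁻¹
  have h2 := h.round (F' := F3 (me (m1 P.a Q.a)) (mc (m1 P.c Q.c) (Nat.mul (gd P.a P.b)
    (gd Q.a Q.b))) (me (m1 P.b Q.b))) (δ := 3 / 2) (Wts.bt h0 h1) (by
      have h202 : (2 : ℝ) ^ 200 ≤ 2 ^ 202 := by norm_num
      have h204 : (2 : ℝ) ^ 202 ≤ 2 ^ 204 := by norm_num
      intro i
      have := me3 r1 r3 r2 r4 ((s1 0).trans h202) ((s1 1).trans h202) ((s1 2).trans h202)
        (s2.trans h204) i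
      rw [p3_v]
      exact this)
  have e1 : (UU : ℂ)⁻¹ * (UU * f * (UU * g)) = UU * (f * g) := by
    have := UUc_ne
    field_simp
  rw [e1] at h2
  refine le_trans h2 ?_
  rw [two_c]
  have h3 := rF_ge (rA P Q) (rB P Q) (rC P Q)
  have e2 : ‖(UU : ℂ)⁻¹‖ * rM P Q = rM P Q / UU := by
    rw [norm_inv, norm_UU, ← div_eq_inv_mul]
  rw [e2]
  unfold rM at *
  linarith

/-- THREE PRODUCTS -/
theorem PK.dot (h0 : 0 ≤ t) (h1 : t ≤ 1) {x y z a b c : ℂ} {X Y Z' A B C : MP} (hx : PK t x X)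
    (hy : PK t y Y) (hz : PK t z Z') (ha : PK t a A) (hb : PK t b B) (hc : PK t c C) :
    PK t (x * a + y * b + z * c) (dotP X Y Z' A B C) := by
  apply PK.mkP h0 h1
  obtain ⟨r1, r2, r3, r4⟩ := hx.res ha
  obtain ⟨s1, s2⟩ := hx.siz ha
  obtain ⟨r1', r2', r3', r4'⟩ := hy.res hb
  obtain ⟨s1', s2'⟩ := hy.siz hb
  obtain ⟨r1'', r2'', r3'', r4''⟩ := hz.res hc
  obtain ⟨s1'', s2''⟩ := hz.siz hc
  have h := ((PK.mod_mul h0 h1 hx ha).add ((PK.mod_mul h0 h1 hy hb).add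
    (PK.mod_mul h0 h1 hz hc))).cmul (UU : ℂ)⁻¹
  have n3 : ∀ u v w : ℂ, ‖u‖ ≤ 2 ^ 200 → ‖v‖ ≤ 2 ^ 200 → ‖w‖ ≤ 2 ^ 200 →
      ‖u + (v + w)‖ ≤ 2 ^ 202 := by
    intro u v w hu hv hw
    refine (norm_add_le _ _).trans ?_
    have := norm_add_le v w
    have e : (2 : ℝ) ^ 202 = 4 * 2 ^ 200 := by norm_num
    rw [e]; linarith [norm_nonneg u]
  have n4 : ∀ u v w : ℂ, ‖u‖ ≤ 2 ^ 202 → ‖v‖ ≤ 2 ^ 202 → ‖w‖ ≤ 2 ^ 202 →
      ‖u + (v + w)‖ ≤ 2 ^ 204 := by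
    intro u v w hu hv hw
    refine (norm_add_le _ _).trans ?_
    have := norm_add_le v w
    have e : (2 : ℝ) ^ 204 = 4 * 2 ^ 202 := by norm_num
    rw [e]; linarith [norm_nonneg u]
  have h2 := h.round (F' := F3 (me (d3 X.a Y.a Z'.a A.a B.a C.a))
    (mc (d3 X.c Y.c Z'.c A.c B.c C.c)
      (s3 (Nat.mul (gd X.a X.b) (gd A.a A.b)) (Nat.mul (gd Y.a Y.b) (gd B.a B.b))
        (Nat.mul (gd Z'.a Z'.b) (gd C.a C.b))))
    (me (d3 X.b Y.b Z'.b A.b B.b C.b))) (δ := 3 / 2) (Wts.bt h0 h1) (by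
      intro i
      have := me3 (r1.add (r1'.add r1'')) (r3.add (r3'.add r3'')) (r2.add (r2'.add r2''))
        (r4.add (r4'.add r4'')) (n3 _ _ _ (s1 0) (s1' 0) (s1'' 0)) (n3 _ _ _ (s1 1) (s1' 1) (s1'' 1))
        (n3 _ _ _ (s1 2) (s1' 2) (s1'' 2)) (n4 _ _ _ s2 s2' s2'') i
      rw [p3_s]
      exact this)
  have e1 : (UU : ℂ)⁻¹ * (UU * x * (UU * a) + (UU * y * (UU * b) + UU * z * (UU * c))) =
      UU * (x * a + y * b + z * c) := by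
    have := UUc_ne
    field_simp
    ring
  rw [e1] at h2
  refine le_trans h2 ?_
  rw [two_c]
  have h3 := rF_ge (s3 (rA X A) (rA Y B) (rA Z' C)) (s3 (rB X A) (rB Y B) (rB Z' C))
    (s3 (rC X A) (rC Y B) (rC Z' C))
  have es : ∀ u v w : ℕ, ((s3 u v w : ℕ) : ℝ) = u + (v + w) := by
    intro u v w
    unfold s3
    rw [c_add, c_add]
  rw [es, es, es] at h3
  have e2 : ‖(UU : ℂ)⁻¹‖ * (rM X A + (rM Y B + rM Z' C)) = (rM X A + (rM Y B + rM Z' C)) / UU := by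
    rw [norm_inv, norm_UU, ← div_eq_inv_mul]
  rw [e2]
  unfold rM at *
  have e3 : (((rA X A : ℕ) : ℝ) + (rB X A : ℕ) / 10 + (rC X A : ℕ) / 4 +
      ((rA Y B : ℕ) + (rB Y B : ℕ) / 10 + (rC Y B : ℕ) / 4 +
        ((rA Z' C : ℕ) + (rB Z' C : ℕ) / 10 + (rC Z' C : ℕ) / 4))) =
      (((rA X A : ℕ) : ℝ) + ((rA Y B : ℕ) + (rA Z' C : ℕ)) +
        ((rB X A : ℕ) + ((rB Y B : ℕ) + (rB Z' C : ℕ))) / 10 +
        ((rC X A : ℕ) + ((rC Y B : ℕ) + (rC Z' C : ℕ))) / 4) := by ring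
  rw [e3]
  linarith

end Pool.Agent.Helper84.KNP
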