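import Pool.Agent.Helper84.KNP.KS3

/-!
Row KNP, soundness, part 4: constants, conversion, reciprocal.
-/

set_option autoImplicit false
set_option exponentiation.threshold 4000
noncomputable section
namespace Pool.Agent.Helper84.KNP

open Pool.Agent.Helper86.C75 (Z)
open Pool.Agent.Helper86.CX
open Pool.Agent.Helper17
open Pool.Agent.Helper90.KMO (zv cz UU UU_pos nb2_le nb_le norm_le_of_comp c_add c_mul div_ub UUc_ne
  norm_UU ab_eq MOK Fv gv ct)
open Pool.Agent.Helper90.C75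

variable {t : ℝ}

/-! ### constants -/

theorem zo_eq {x : Z} (h : |zv x| ≤ 2 ^ 100) : ((zo x : ℕ) : ℤ) = zv x + 2 ^ 160 := by
  have h' := abs_le.1 h
  cases x with
  | p n =>
    show ((OO + n : ℕ) : ℤ) = (n : ℤ) + 2 ^ 160
    rw [OO_eq]; push_cast; ring
  | m n =>
    have hn : (n : ℤ) ≤ 2 ^ 100 := by
      have : zv (Z.m n) = -(n : ℤ) := rfl
      rw [this] at h'
      linarith [h'.1]
    have hn' : n ≤ 2 ^ 100 := by exact_mod_cast hn
    show ((OO - n : ℕ) : ℤ) = -(n : ℤ) + 2 ^ 160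
    rw [OO_eq, Nat.cast_sub (hn'.trans (by norm_num))]
    push_cast; ring

theorem cx_eq {x : Cx} (h : ‖cz x‖ ≤ 2 ^ 100) : dc (cx x) = cz x := by
  have h1 : |zv x.re| ≤ 2 ^ 100 := by
    have h1 : |((zv x.re : ℤ) : ℝ)| ≤ 2 ^ 100 := (Complex.abs_re_le_norm (cz x)).trans h
    exact_mod_cast h1
  have h2 : |zv x.im| ≤ 2 ^ 100 := by
    have h1 : |((zv x.im : ℤ) : ℝ)| ≤ 2 ^ 100 := (Complex.abs_im_le_norm (cz x)).trans h
    exact_mod_cast h1
  have e1 := zo_eq h1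
  have e2 := zo_eq h2
  have hp : zo x.re < 2 ^ 256 := by
    have h3 := abs_le.1 h1
    have h4 : ((zo x.re : ℕ) : ℤ) < 2 ^ 256 := by rw [e1]; norm_num at *; linarith
    exact_mod_cast h4
  obtain ⟨c1, c2⟩ := dc_mk hp e1 e2
  have e : cx x = zo x.re + 2 ^ 256 * zo x.im := by
    show zo x.re + X1 * zo x.im = _
    rw [X1_eq]
  rw [← e] at c1 c2
  apply Complex.ext
  · rw [dc_re, c1]; rfl
  · rw [dc_im, c2]; rfl

theorem PK.cs (h0 : 0 ≤ t) (h1 : t ≤ 1) (x : Cx) : PK t (cz x / UU) (csP x) := by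
  have e : (UU : ℂ) * (cz x / UU) = cz x := by
    rw [← mul_div_assoc, mul_div_cancel_left₀ _ UUc_ne]
  refine PK.mk4 h0 h1 (fun hB => ?_) (fun _ => ?_)
  · have hB' := ble100 hB
    have hn : ‖cz x‖ ≤ 2 ^ 100 := (nb_le x).trans (by exact_mod_cast hB')
    have e2 := cx_eq hn
    have e3 : F3 (cx x) (cx x) (cx x) = fun _ => cz x := by
      funext i
      fin_cases i
      · exact e2
      · exact e2
      · exact e2
    refine ⟨?_, fun i => ?_, ?_, ?_, hB'⟩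
    · show ‖(UU : ℂ) * (cz x / UU) - avg (bt t) (F3 (cx x) (cx x) (cx x))‖ ≤ _
      rw [e3, avg_const (Wts.bt h0 h1), e, sub_self, norm_zero]
      simp
    · show ‖F3 (cx x) (cx x) (cx x) i‖ ≤ _
      rw [e3]; exact nb_le x
    · show ‖dc (cx x) - dc (cx x)‖ ≤ _
      rw [sub_self, norm_zero]; simp
    · show ‖dc (cx x) - (dc (cx x) + dc (cx x)) / 2‖ ≤ _
      have : dc (cx x) - (dc (cx x) + dc (cx x)) / 2 = 0 := by ring
      rw [this, norm_zero]; simp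
  · rw [e, c_add]
    have := nb_le x
    norm_num
    exact this

/-! ### conversion -/

theorem avg_one {w1 : Fin 1 → ℝ} (hw : Wts w1) (F : Fin 1 × Fin 3 → ℂ) :
    avg (wq w1 t) F = avg (bt t) (fun i => F (0, i)) := by
  rw [avg_wq]
  have h1 : w1 0 = 1 := by
    have := hw.sum
    rwa [Fin.sum_univ_one] at this
  unfold avg
  rw [Fin.sum_univ_one, h1]
  simp

theorem PK.ofC (h0 : 0 ≤ t) (h1 : t ≤ 1) {f : ℂ} {x : C3} {r B : ℕ}
    (h : Mod (bt t) (UU * f) (ct x) r) (hB : ∀ i, ‖ct x i‖ ≤ B) : PK t f (KNP.ofC x r B) := by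
  unfold KNP.ofC
  cases hb : Nat.ble B B100 with
  | false =>
    apply PK.zero h0 h1
    rw [c_add]
    exact norm_of_mod h0 h1 h hB
  | true =>
    have hB' : (B : ℝ) ≤ 2 ^ 100 := by exact_mod_cast ble100 hb
    apply PK.mkP h0 h1
    have e : F3 (cx x.a) (cx x.c) (cx x.b) = ct x := by
      funext i
      fin_cases i
      · exact cx_eq ((hB 0).trans hB')
      · exact cx_eq ((hB 1).trans hB')
      · exact cx_eq ((hB 2).trans hB')
    rw [e]
    exact h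

theorem hdC_gv (l : List C3) : hdC l = gv l 0 := by
  cases l with
  | nil => rfl
  | cons x l => rfl

theorem PK.ofM (h0 : 0 ≤ t) (h1 : t ≤ 1) {w1 : Fin 1 → ℝ} (hw : Wts w1) {f : ℂ} {M : Mo}
    (h : MOK 1 w1 t f M) : PK t f (KNP.ofM M) := by
  unfold KNP.ofM
  rw [hdC_gv]
  refine PK.ofC h0 h1 ?_ (fun i => h.val.bd (0, i))
  have h2 : ‖(UU : ℂ) * f - avg (wq w1 t) (Fv 1 M.v)‖ ≤ M.r := h.mod
  rw [avg_one hw] at h2
  exact h2

/-! ### reciprocal -/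

theorem sub48 {v : ℕ} (h : ‖dc v‖ ≤ 2 ^ 159) : dc (Nat.sub v U48) = dc v - UU := by
  have h1 : |dr v| ≤ 2 ^ 159 := by
    have h1 : |((dr v : ℤ) : ℝ)| ≤ 2 ^ 159 := (Complex.abs_re_le_norm (dc v)).trans h
    exact_mod_cast h1
  have a1 := abs_le.1 h1
  have b1 : 2 ^ 159 ≤ pr v := by
    unfold dr at a1
    have : (2 : ℤ) ^ 159 ≤ (pr v : ℤ) := by norm_num at *; linarith [a1.1]
    exact_mod_cast this
  have e : Nat.sub v U48 = (pr v - 2 ^ 48) + 2 ^ 256 * pj v := by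
    have h2 := dg_add v
    show v - U48 = _
    rw [U48_eq]
    norm_num at *
    omega
  have b2 := dg_lt v
  obtain ⟨c1, c2⟩ := dc_mk (p := pr v - 2 ^ 48) (q := pj v) (x := dr v - 2 ^ 48) (y := dj v)
    (lt_of_le_of_lt (Nat.sub_le _ _) b2)
    (by
      have h3 : 2 ^ 48 ≤ pr v := le_trans (by norm_num) b1
      unfold dr
      rw [Nat.cast_sub h3]; push_cast; ring)
    (by unfold dj; ring)
  rw [← e] at c1 c2
  apply Complex.ext
  · rw [Complex.sub_re, dc_re, c1, dc_re, Complex.ofReal_re]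
    unfold UU
    push_cast; norm_num
  · rw [Complex.sub_im, dc_im, c2, dc_im, Complex.ofReal_im]; ring

theorem res1P_le {f g : ℂ} {P Q : MP} (hf : PK t f P) (hg : PK t g Q) (i : Fin 3) :
    ‖p3 (FP P) (FP Q) i / UU - UU‖ ≤ res1P P Q := by
  obtain ⟨r1, r2, r3, r4⟩ := hf.res hg
  obtain ⟨s1, s2⟩ := hf.siz hg
  have h202 : (2 : ℝ) ^ 200 ≤ 2 ^ 202 := by norm_num
  have h204 : (2 : ℝ) ^ 202 ≤ 2 ^ 204 := by norm_num
  have h := me3 r1 r3 r2 r4 ((s1 0).trans h202) ((s1 1).trans h202) ((s1 2).trans h202)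
        (s2.trans h204)
  set va := me (m1 P.a Q.a) with hva
  set vc := mc (m1 P.c Q.c) (Nat.mul (gd P.a P.b) (gd Q.a Q.b)) with hvc
  set vb := me (m1 P.b Q.b) with hvb
  have hp : ∀ i, ‖p3 (FP P) (FP Q) i‖ ≤ 2 ^ 202 := by
    intro i
    fin_cases i
    · show ‖p3 (FP P) (FP Q) 0‖ ≤ _
      rw [p3_0]; exact (s1 0).trans h202
    · show ‖p3 (FP P) (FP Q) 1‖ ≤ _
      rw [p3_1]
      refine (norm_sub_le _ _).trans ?_
      have e1 : ‖(FP P 2 - FP P 0) * (FP Q 2 - FP Q 0) / 4‖ =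
          ‖(FP P 2 - FP P 0) * (FP Q 2 - FP Q 0)‖ / 4 := by rw [norm_div]; norm_num
      rw [e1]
      have := s1 1
      have e2 : (2 : ℝ) ^ 202 = 4 * 2 ^ 200 := by norm_num
      rw [e2] at s2 ⊢
      linarith
    · show ‖p3 (FP P) (FP Q) 2‖ ≤ _
      rw [p3_2]; exact (s1 2).trans h202
  have hsz : ∀ i, ‖F3 va vc vb i‖ ≤ 2 ^ 159 := by
    intro i
    have h1 := h i
    rw [← p3_v] at h1
    have h2 := hp i
    have h3 : ‖(UU : ℂ)⁻¹ * p3 (FP P) (FP Q) i‖ ≤ 2 ^ 154 := by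
      rw [norm_mul, norm_inv, norm_UU]
      unfold UU
      rw [inv_mul_le_iff₀ (by norm_num)]
      refine h2.trans ?_
      norm_num
    have h4 := norm_sub_norm_le (F3 va vc vb i) ((UU : ℂ)⁻¹ * p3 (FP P) (FP Q) i)
    rw [norm_sub_rev] at h4
    have e5 : (2 : ℝ) ^ 154 + 3 / 2 ≤ 2 ^ 159 := by norm_num
    linarith
  have e3 : ∀ i, F3 (Nat.sub va U48) (Nat.sub vc U48) (Nat.sub vb U48) i = F3 va vc vb i - UU := by
    intro i
    fin_cases i
    · exact sub48 (hsz 0)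
    · exact sub48 (hsz 1)
    · exact sub48 (hsz 2)
  have h5 := bv_le (Nat.sub va U48) (Nat.sub vc U48) (Nat.sub vb U48) i
  rw [e3] at h5
  have h1 := h i
  rw [← p3_v] at h1
  have e6 : p3 (FP P) (FP Q) i / UU - UU = ((UU : ℂ)⁻¹ * p3 (FP P) (FP Q) i - F3 va vc vb i) +
      (F3 va vc vb i - UU) := by
    rw [div_eq_inv_mul]; ring
  have e7 : ((res1P P Q : ℕ) : ℝ) = (bv (Nat.sub va U48) (Nat.sub vc U48) (Nat.sub vb U48) : ℕ) + 2 := by
    unfold res1P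
    rw [two_c]
  rw [e6, e7]
  refine (norm_add_le _ _).trans ?_
  linarith

theorem resP_avg (h0 : 0 ≤ t) (h1 : t ≤ 1) {f g : ℂ} {P Q : MP} (hf : PK t f P) (hg : PK t g Q) :
    ‖avg (bt t) (FP P) * avg (bt t) (FP Q) / UU - UU‖ ≤
      res1P P Q + ((rB P Q : ℕ) / 10 + (rC P Q : ℕ) / 4) / UU := by
  have hU := UU_pos
  have hb := Wts.bt h0 h1
  have c : ‖avg (bt t) (p3 (FP P) (FP Q)) - avg (bt t) (FP P) * avg (bt t) (FP Q)‖ ≤
      (rB P Q : ℕ) / 10 + (rC P Q : ℕ) / 4 := by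
    refine (bt_err h0 h1 (FP P) (FP Q) hf.dif hg.dif hf.sec hg.sec).trans (le_of_eq ?_)
    unfold rB rC
    rw [c_add, c_mul, c_mul, c_mul]
  have r : ‖avg (bt t) (p3 (FP P) (FP Q)) / UU - UU‖ ≤ res1P P Q := by
    have e : avg (bt t) (p3 (FP P) (FP Q)) / UU - UU
        = avg (bt t) (fun v => p3 (FP P) (FP Q) v / UU - UU) := by
      have e1 : (fun v => p3 (FP P) (FP Q) v / UU - UU)
          = fun v => (UU : ℂ)⁻¹ * p3 (FP P) (FP Q) v - UU := by
        funext v; rw [div_eq_inv_mul]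
      rw [e1, avg_sub, avg_smul, avg_const hb, div_eq_inv_mul]
    rw [e]
    exact norm_avg_le hb fun v => res1P_le hf hg v
  have e2 : avg (bt t) (FP P) * avg (bt t) (FP Q) / UU - UU
      = (avg (bt t) (p3 (FP P) (FP Q)) / UU - UU)
        - (avg (bt t) (p3 (FP P) (FP Q)) - avg (bt t) (FP P) * avg (bt t) (FP Q)) / UU := by ring
  rw [e2]
  refine (norm_sub_le _ _).trans (add_le_add r ?_)
  rw [norm_div, norm_UU]
  exact div_le_div_of_nonneg_right c hU.le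

theorem etaP_le (P Q : MP) : (res1P P Q : ℝ) + ((P.r : ℝ) * Q.B + (rB P Q : ℕ) / 10 +
    (rC P Q : ℕ) / 4) / UU ≤ etaP P Q := by
  have h := rF_ge (Nat.mul P.r Q.B) (rB P Q) (rC P Q)
  unfold etaP
  rw [c_add]
  rw [c_mul] at h
  linarith

theorem PK.inv0 (h0 : 0 ≤ t) (h1 : t ≤ 1) (P : MP) :
    ∃ g : ℂ, PK t g (inv0P P) := by
  unfold inv0P inv0b
  set a := quo Z1 P.a
  set b := quo Z1 P.b
  set c := quo (Nat.add (q4 (gd P.a P.b) (gd a b)) U48) P.c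
  refine ⟨avg (bt t) (F3 a c b) / UU, PK.mkP h0 h1 ?_⟩
  show ‖(UU : ℂ) * (avg (bt t) (F3 a c b) / UU) - avg (bt t) (F3 a c b)‖ ≤ _
  rw [← mul_div_assoc, mul_div_cancel_left₀ _ UUc_ne, sub_self, norm_zero]
  exact Nat.cast_nonneg _

theorem PK.inv1 (h0 : 0 ≤ t) (h1 : t ≤ 1) {f g : ℂ} {P Q : MP} (hf : PK t f P)
    (hg : PK t g Q) (hη : etaP P Q ≤ 140737488355328) : f ≠ 0 ∧ PK t f⁻¹ (inv1P P Q) := by
  have hU := UU_pos
  have hb := Wts.bt h0 h1
  have hη' : ((etaP P Q : ℕ) : ℝ) ≤ UU / 2 := by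
    have : ((etaP P Q : ℕ) : ℝ) ≤ 140737488355328 := by exact_mod_cast hη
    unfold UU
    linarith
  set F := avg (bt t) (FP P)
  set G := avg (bt t) (FP Q)
  have hGB : ‖G‖ ≤ Q.B := norm_avg_le hb hg.bd
  have hm : ‖(UU : ℂ) * f - F‖ ≤ P.r := hf.mod
  have k1 : ‖f * G - UU‖ ≤ etaP P Q := by
    have h2 := resP_avg h0 h1 hf hg
    have e : f * G - UU = (F * G / UU - UU) + ((UU : ℂ) * f - F) * G / UU := by
      have := UUc_ne
      field_simp
      ring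
    rw [e]
    refine (norm_add_le _ _).trans ?_
    have h3 : ‖((UU : ℂ) * f - F) * G / UU‖ ≤ P.r * Q.B / UU := by
      rw [norm_div, norm_UU, norm_mul]
      exact div_le_div_of_nonneg_right (mul_le_mul hm hGB (norm_nonneg _) (Nat.cast_nonneg _))
        hU.le
    have h4 := etaP_le P Q
    have e5 : ((P.r : ℝ) * Q.B + (rB P Q : ℕ) / 10 + (rC P Q : ℕ) / 4) / UU =
        P.r * Q.B / UU + ((rB P Q : ℕ) / 10 + (rC P Q : ℕ) / 4) / UU := by ring
    rw [e5] at h4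
    linarith
  have hpos : 0 < UU - etaP P Q := by linarith
  have hfG : UU - etaP P Q ≤ ‖f * G‖ := by
    have h3 := norm_sub_norm_le (UU : ℂ) (f * G)
    rw [norm_sub_rev, norm_UU] at h3
    linarith
  have hf0 : f ≠ 0 := by
    rintro rfl
    rw [zero_mul, norm_zero] at hfG
    linarith
  refine ⟨hf0, ?_, hg.bd, hg.dif, hg.sec, hg.sm⟩
  show ‖(UU : ℂ) * f⁻¹ - G‖ ≤ ((Nat.add (Nat.div (Nat.mul (etaP P Q) Q.B)
    (Nat.sub U48 (etaP P Q))) (nat_lit 1) : ℕ) : ℝ)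
  have hG0 : G ≠ 0 := by
    intro h
    rw [h, mul_zero, norm_zero] at hfG
    linarith
  have e : (UU : ℂ) * f⁻¹ - G = -((f * G - UU) * G / (f * G)) := by
    field_simp
    ring
  have hU48 : U48 = 281474976710656 := by decide +kernel
  have hsub : ((Nat.sub U48 (etaP P Q) : ℕ) : ℝ) = UU - etaP P Q := by
    show ((U48 - etaP P Q : ℕ) : ℝ) = _
    rw [hU48, Nat.cast_sub (by omega)]
    unfold UU
    norm_num
  have hsubpos : 0 < Nat.sub U48 (etaP P Q) := by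
    show 0 < U48 - etaP P Q
    rw [hU48]
    omega
  have h6 := div_ub (Nat.mul (etaP P Q) Q.B) hsubpos
  rw [hsub, c_mul] at h6
  rw [e, norm_neg, c_add]
  have h7 : ‖(f * G - UU) * G / (f * G)‖ ≤ etaP P Q * Q.B / (UU - etaP P Q) := by
    rw [norm_div, norm_mul]
    exact div_le_div₀ (by positivity) (mul_le_mul k1 hGB (norm_nonneg _) (Nat.cast_nonneg _)) hpos
      hfG
  have g1 : ((nat_lit 1 : ℕ) : ℝ) = 1 := by norm_num
  rw [g1]
  exact h7.trans h6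

/-- RECIPROCAL -/
theorem PK.inv (h0 : 0 ≤ t) (h1 : t ≤ 1) {f : ℂ} {P : MP} (hf : PK t f P)
    (hok : okP P = true) : f ≠ 0 ∧ PK t f⁻¹ (invP P) := by
  obtain ⟨g, hg⟩ := PK.inv0 h0 h1 P
  exact PK.inv1 h0 h1 hf hg (Nat.le_of_ble_eq_true hok)

end Pool.Agent.Helper84.KNP
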