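import Pool.Agent.Helper84.KNP.KS4
import Pool.Agent.Helper17.C75.Kp5

/-!
Row KNP, soundness, part 5: packed Hermitian forms.
-/

set_option autoImplicit false
set_option exponentiation.threshold 4000
noncomputable section
namespace Pool.Agent.Helper84.KNP

open Pool.Agent.Helper86.C75 (Z)
open Pool.Agent.Helper86.CX
open Pool.Agent.Helper17
open Pool.Agent.Helper17.PAK (pk9 addH smulH idH cstH Bd rep_NG MM_eq)
open Pool.Agent.Helper90.KMO (zv cz UU UU_pos nb2_le nb_le norm_le_of_comp c_add c_mul div_ub UUc_ne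
  norm_UU)
open Pool.Agent.Helper90.C75

variable {t : ℝ}

/-! ### entries -/

/-- six complex entries of an integer form -/
def ent (N : Hm ℤ) : Fin 6 → ℂ := ![gc N.a 0, gc N.b 0, gc N.c 0, gc N.d N.e, gc N.f N.g, gc N.h N.i]
/-- six complex entries of a real form -/
def enR (K : Hm ℝ) : Fin 6 → ℂ := ![(K.a : ℂ), (K.b : ℂ), (K.c : ℂ), K.x, K.y, K.w]

theorem fin6 {P : Fin 6 → Prop} (a : P 0) (b : P 1) (c : P 2) (d : P 3) (e : P 4) (f : P 5) :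
    ∀ i, P i := by
  intro i
  fin_cases i
  · exact a
  · exact b
  · exact c
  · exact d
  · exact e
  · exact f

theorem gc_add0 (x y : ℤ) : gc (x + y) 0 = gc x 0 + gc y 0 := by
  rw [gc_add, add_zero]

theorem ent_add (M N : Hm ℤ) (e : Fin 6) : ent (addH M N) e = ent M e + ent N e := by
  revert e
  refine fin6 ?_ ?_ ?_ ?_ ?_ ?_
  · exact gc_add0 _ _
  · exact gc_add0 _ _
  · exact gc_add0 _ _
  · exact (gc_add _ _ _ _).symm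
  · exact (gc_add _ _ _ _).symm
  · exact (gc_add _ _ _ _).symm

theorem gc_smul (r x y : ℤ) : gc (r * x) (r * y) = (r : ℂ) * gc x y := by
  apply Complex.ext <;> simp [gc]

theorem ent_smul (r : ℤ) (N : Hm ℤ) (e : Fin 6) : ent (smulH r N) e = (r : ℂ) * ent N e := by
  revert e
  refine fin6 ?_ ?_ ?_ ?_ ?_ ?_
  · have := gc_smul r N.a 0
    rw [mul_zero] at this
    exact this
  · have := gc_smul r N.b 0
    rw [mul_zero] at this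
    exact this
  · have := gc_smul r N.c 0
    rw [mul_zero] at this
    exact this
  · exact gc_smul _ _ _
  · exact gc_smul _ _ _
  · exact gc_smul _ _ _

/-- bound of the entries -/
theorem ent_bd {N : Hm ℤ} {b : ℤ} (h : ∀ e, ‖ent N e‖ ≤ (b : ℝ)) : Bd b N := by
  have k : ∀ {x y : ℤ}, ‖gc x y‖ ≤ (b : ℝ) → |x| ≤ b ∧ |y| ≤ b := by
    intro x y h
    constructor
    · have h1 : |(x : ℝ)| ≤ b := (Complex.abs_re_le_norm (gc x y)).trans h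
      exact_mod_cast h1
    · have h1 : |(y : ℝ)| ≤ b := (Complex.abs_im_le_norm (gc x y)).trans h
      exact_mod_cast h1
  exact ⟨(k (h 0)).1, (k (h 1)).1, (k (h 2)).1, (k (h 3)).1, (k (h 3)).2, (k (h 4)).1, (k (h 4)).2,
    (k (h 5)).1, (k (h 5)).2⟩

/-! ### vectors of six numbers -/

def v6f (u : Fin 6 → ℕ) : ℕ := v6 (u 0) (u 1) (u 2) (u 3) (u 4) (u 5)

theorem hx_eq (x y : ℕ) : hx x y = x + 2 ^ 256 * y := by
  show x + X1 * y = _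
  rw [X1_eq]

theorem hy_eq (x y : ℕ) : hy x y = x + 2 ^ 512 * y := by
  show x + NG1 * y = _
  rw [NG1_eq]

theorem v6f_eq (u : Fin 6 → ℕ) : v6f u = u 0 + 2 ^ 256 * (u 1 + 2 ^ 256 * (u 2 + 2 ^ 256 *
    (u 3 + 2 ^ 256 * (u 4 + 2 ^ 256 * u 5)))) := by
  unfold v6f v6
  rw [hx_eq, hx_eq, hx_eq, hx_eq, hx_eq]

theorem v6f_add (u w : Fin 6 → ℕ) : v6f u + v6f w = v6f (fun e => u e + w e) := by
  rw [v6f_eq, v6f_eq, v6f_eq]; ring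

theorem v6f_smul (c : ℕ) (u : Fin 6 → ℕ) : c * v6f u = v6f (fun e => c * u e) := by
  rw [v6f_eq, v6f_eq]; ring

/-- digits -/
theorem v6f_dig {u : Fin 6 → ℕ} (h : ∀ e, u e < 2 ^ 256) (e : Fin 6) :
    Nat.mod (Nat.shiftRight (v6f u) (256 * e)) X1 = u e := by
  have e0 : ∀ n k : ℕ, Nat.mod (Nat.shiftRight n k) X1 = n / 2 ^ k % 2 ^ 256 := by
    intro n k
    show (n >>> k) % X1 = _
    rw [Nat.shiftRight_eq_div_pow, X1_eq]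
  rw [e0, v6f_eq]
  have dm : ∀ a T : ℕ, a < 2 ^ 256 → (a + 2 ^ 256 * T) / 2 ^ 256 = T := fun a T ha => by
    rw [Nat.add_mul_div_left _ _ (by norm_num), Nat.div_eq_of_lt ha, zero_add]
  have mm : ∀ a T : ℕ, a < 2 ^ 256 → (a + 2 ^ 256 * T) % 2 ^ 256 = a := fun a T ha => by
    rw [Nat.add_mul_mod_self_left, Nat.mod_eq_of_lt ha]
  have p : ∀ k : ℕ, (2 : ℕ) ^ (256 * (k + 1)) = 2 ^ 256 * 2 ^ (256 * k) := fun k => by
    rw [← pow_add]; congr 1; ring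
  have dd : ∀ a T k : ℕ, a < 2 ^ 256 → (a + 2 ^ 256 * T) / 2 ^ (256 * (k + 1)) =
      T / 2 ^ (256 * k) := fun a T k ha => by
    rw [p, ← Nat.div_div_eq_div_mul, dm a T ha]
  revert e
  refine fin6 ?_ ?_ ?_ ?_ ?_ ?_
  · show _ / 2 ^ (256 * 0) % _ = _
    rw [mul_zero, pow_zero, Nat.div_one, mm _ _ (h 0)]
  · show _ / 2 ^ (256 * (0 + 1)) % _ = _
    rw [dd _ _ _ (h 0), mul_zero, pow_zero, Nat.div_one, mm _ _ (h 1)]
  · show _ / 2 ^ (256 * ((0 + 1) + 1)) % _ = _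
    rw [dd _ _ _ (h 0), dd _ _ _ (h 1), mul_zero, pow_zero, Nat.div_one, mm _ _ (h 2)]
  · show _ / 2 ^ (256 * (((0 + 1) + 1) + 1)) % _ = _
    rw [dd _ _ _ (h 0), dd _ _ _ (h 1), dd _ _ _ (h 2), mul_zero, pow_zero, Nat.div_one,
      mm _ _ (h 3)]
  · show _ / 2 ^ (256 * ((((0 + 1) + 1) + 1) + 1)) % _ = _
    rw [dd _ _ _ (h 0), dd _ _ _ (h 1), dd _ _ _ (h 2), dd _ _ _ (h 3), mul_zero, pow_zero,
      Nat.div_one, mm _ _ (h 4)]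
  · show _ / 2 ^ (256 * (((((0 + 1) + 1) + 1) + 1) + 1)) % _ = _
    rw [dd _ _ _ (h 0), dd _ _ _ (h 1), dd _ _ _ (h 2), dd _ _ _ (h 3), dd _ _ _ (h 4), mul_zero,
      pow_zero, Nat.div_one, Nat.mod_eq_of_lt (h 5)]

/-! ### packing -/

theorem CP_rep : PAK.Rep MM CP (pk9 (2 ^ 256) (cstH (-2 ^ 160))) := by
  unfold PAK.Rep Int.ModEq
  decide +kernel

theorem pc_rep {a b c x y w : ℕ} :
    PAK.Rep MM (pc (pr a) (pr b) (pr c) x y w)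
      (pk9 (2 ^ 256) ⟨dr a, dr b, dr c, dr x, dj x, dr y, dj y, dr w, dj w⟩) := by
  have h := (PAK.Rep.nat MM (hx (pr a) (hx (pr b) (hx (pr c) (hy x (hy y w)))))).add CP_rep
  have e : ((hx (pr a) (hx (pr b) (hx (pr c) (hy x (hy y w)))) : ℕ) : ℤ) +
      pk9 (2 ^ 256) (cstH (-2 ^ 160)) =
      pk9 (2 ^ 256) ⟨dr a, dr b, dr c, dr x, dj x, dr y, dj y, dr w, dj w⟩ := by
    rw [hx_eq, hx_eq, hx_eq, hy_eq, hy_eq]
    have h1 : (pr x : ℤ) + 2 ^ 256 * pj x = x := by exact_mod_cast dg_add x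
    have h2 : (pr y : ℤ) + 2 ^ 256 * pj y = y := by exact_mod_cast dg_add y
    have h3 : (pr w : ℤ) + 2 ^ 256 * pj w = w := by exact_mod_cast dg_add w
    simp only [Nat.cast_add, Nat.cast_mul, Nat.cast_pow, Nat.cast_ofNat]
    rw [← h1, ← h2, ← h3]
    simp only [pk9, cstH, dr, dj]
    ring
  rw [e] at h
  exact h

/-- control values of an entry -/
def F6 (Ha Hc Hb : Hm ℤ) (e : Fin 6) : Fin 3 → ℂ := ![ent Ha e, ent Hc e, ent Hb e]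

/-- a packed form -/
def HKp (t : ℝ) (K : Hm ℝ) (H : HP) : Prop :=
  ∃ (Ha Hc Hb : Hm ℤ) (B r f d : Fin 6 → ℕ),
    (PAK.Rep MM H.a (pk9 (2 ^ 256) Ha) ∧ PAK.Rep MM H.c (pk9 (2 ^ 256) (smulH 4 Hc)) ∧
      PAK.Rep MM H.b (pk9 (2 ^ 256) Hb) ∧
      PAK.Rep MM H.d (pk9 (2 ^ 256) (addH Hb (smulH (-1) Ha)))) ∧
    (H.VB = v6f B ∧ H.Vr = v6f r ∧ H.Vf = v6f f ∧ H.Vd = v6f d) ∧
    (∀ e, Mod (bt t) (UU * enR K e) (F6 Ha Hc Hb e) (r e)) ∧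
    (∀ e i, ‖F6 Ha Hc Hb e i‖ ≤ B e) ∧ (∀ e, ‖ent Hb e - ent Ha e‖ ≤ d e) ∧
    (∀ e, ‖ent Hc e - (ent Ha e + ent Hb e) / 2‖ ≤ f e) ∧ (∀ e, B e ≤ 2 ^ 100) ∧
    (H.ok = true → ∀ e, r e ≤ 2 ^ 110 ∧ f e ≤ 2 ^ 110 ∧ d e ≤ 2 ^ 110)

/-- six models of a Hermitian form -/
structure HQK (t : ℝ) (K : Hm ℝ) (h : HQ) : Prop where
  a : PK t (K.a : ℂ) h.a
  b : PK t (K.b : ℂ) h.b
  c : PK t (K.c : ℂ) h.c
  x : PK t K.x h.x
  y : PK t K.y h.y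
  w : PK t K.w h.w

theorem gc_re (v : ℕ) : gc (dr v) 0 = ((dc v).re : ℂ) := by
  apply Complex.ext
  · rfl
  · show ((0 : ℤ) : ℝ) = 0
    norm_num

/-- a diagonal entry: real parts -/
theorem PK.diag {P : MP} {k : ℝ} (h : PK t (k : ℂ) P) :
    Mod (bt t) (UU * (k : ℂ)) ![gc (dr P.a) 0, gc (dr P.c) 0, gc (dr P.b) 0] P.r ∧
      (∀ i, ‖(![gc (dr P.a) 0, gc (dr P.c) 0, gc (dr P.b) 0] : Fin 3 → ℂ) i‖ ≤ P.B) ∧
      ‖gc (dr P.b) 0 - gc (dr P.a) 0‖ ≤ P.d ∧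
      ‖gc (dr P.c) 0 - (gc (dr P.a) 0 + gc (dr P.b) 0) / 2‖ ≤ P.f := by
  have h2 := h.re
  rw [Complex.ofReal_re] at h2
  have e : F3 (rv P.a) (rv P.c) (rv P.b) = ![gc (dr P.a) 0, gc (dr P.c) 0, gc (dr P.b) 0] := by
    funext i
    fin_cases i
    · exact (rv_eq _).trans (gc_re _).symm
    · exact (rv_eq _).trans (gc_re _).symm
    · exact (rv_eq _).trans (gc_re _).symm
  have m1 := h2.mod
  have m2 := h2.bd
  have m3 := h2.dif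
  have m4 := h2.sec
  change Mod (bt t) _ (F3 (rv P.a) (rv P.c) (rv P.b)) P.r at m1
  change ∀ i, ‖F3 (rv P.a) (rv P.c) (rv P.b) i‖ ≤ P.B at m2
  change ‖dc (rv P.b) - dc (rv P.a)‖ ≤ P.d at m3
  change ‖dc (rv P.c) - (dc (rv P.a) + dc (rv P.b)) / 2‖ ≤ P.f at m4
  rw [e] at m1 m2
  rw [rv_eq, rv_eq, ← gc_re, ← gc_re] at m3
  rw [rv_eq, rv_eq, rv_eq, ← gc_re, ← gc_re, ← gc_re] at m4
  exact ⟨m1, m2, m3, m4⟩

theorem s6_le {a b c x y w n : ℕ} (h : s6 a b c x y w ≤ n) :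
    a ≤ n ∧ b ≤ n ∧ c ≤ n ∧ x ≤ n ∧ y ≤ n ∧ w ≤ n := by
  have h' : (a + b + c) + ((x + y) + w) ≤ n := h
  omega

theorem B110_eq : B110 = 2 ^ 110 := by decide +kernel

/-- PACKING -/
theorem HKp.pk {K : Hm ℝ} {h : HQ} (hK : HQK t K h) : HKp t K (pkP h) := by
  have ra := pc_rep (a := h.a.a) (b := h.b.a) (c := h.c.a) (x := h.x.a) (y := h.y.a) (w := h.w.a)
  have rc := pc_rep (a := h.a.c) (b := h.b.c) (c := h.c.c) (x := h.x.c) (y := h.y.c) (w := h.w.c)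
  have rb := pc_rep (a := h.a.b) (b := h.b.b) (c := h.c.b) (x := h.x.b) (y := h.y.b) (w := h.w.b)
  obtain ⟨a1, a2, a3, a4⟩ := hK.a.diag
  obtain ⟨b1, b2, b3, b4⟩ := hK.b.diag
  obtain ⟨c1, c2, c3, c4⟩ := hK.c.diag
  refine ⟨_, ⟨dr h.a.c, dr h.b.c, dr h.c.c, dr h.x.c, dj h.x.c, dr h.y.c, dj h.y.c, dr h.w.c,
    dj h.w.c⟩, _, ![h.a.B, h.b.B, h.c.B, h.x.B, h.y.B, h.w.B],
    ![h.a.r, h.b.r, h.c.r, h.x.r, h.y.r, h.w.r], ![h.a.f, h.b.f, h.c.f, h.x.f, h.y.f, h.w.f],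
    ![h.a.d, h.b.d, h.c.d, h.x.d, h.y.d, h.w.d], ⟨ra, ?_, rb, ?_⟩, ⟨rfl, rfl, rfl, rfl⟩,
    ?_, ?_, ?_, ?_, ?_, ?_⟩
  · have h4 := (PAK.Rep.nat MM 4).mul rc
    have e4 : ((4 : ℕ) : ℤ) = 4 := rfl
    rw [e4, PAK.pk9_smul] at h4
    exact h4
  · have h5 := (rb.add (rep_NG.mul ra)).mod
    rw [PAK.pk9_smul, PAK.pk9_add] at h5
    exact h5
  · exact fin6 a1 b1 c1 hK.x.mod hK.y.mod hK.w.mod
  · exact fin6 a2 b2 c2 hK.x.bd hK.y.bd hK.w.bd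
  · exact fin6 a3 b3 c3 hK.x.dif hK.y.dif hK.w.dif
  · exact fin6 a4 b4 c4 hK.x.sec hK.y.sec hK.w.sec
  · exact fin6 hK.a.sm hK.b.sm hK.c.sm hK.x.sm hK.y.sm hK.w.sm
  · intro hok
    have h6 : s6 h.a.r h.b.r h.c.r h.x.r h.y.r h.w.r +
      (s6 h.a.f h.b.f h.c.f h.x.f h.y.f h.w.f + s6 h.a.d h.b.d h.c.d h.x.d h.y.d h.w.d) ≤ B110 :=
      Nat.le_of_ble_eq_true hok
    rw [B110_eq] at h6
    obtain ⟨p1, p2, p3, p4, p5, p6⟩ := s6_le (n := 2 ^ 110)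
      (a := h.a.r) (b := h.b.r) (c := h.c.r) (x := h.x.r) (y := h.y.r) (w := h.w.r) (by omega)
    obtain ⟨q1, q2, q3, q4, q5, q6⟩ := s6_le (n := 2 ^ 110)
      (a := h.a.f) (b := h.b.f) (c := h.c.f) (x := h.x.f) (y := h.y.f) (w := h.w.f) (by omega)
    obtain ⟨s1, s2, s3, s4, s5, s6⟩ := s6_le (n := 2 ^ 110)
      (a := h.a.d) (b := h.b.d) (c := h.c.d) (x := h.x.d) (y := h.y.d) (w := h.w.d) (by omega)
    exact fin6 ⟨p1, q1, s1⟩ ⟨p2, q2, s2⟩ ⟨p3, q3, s3⟩ ⟨p4, q4, s4⟩ ⟨p5, q5, s5⟩ ⟨p6, q6, s6⟩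

end Pool.Agent.Helper84.KNP
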