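import Pool.Agent.Helper84.KNP.KS5

/-!
Row KNP, soundness, part 6: sums of scalars times forms.
-/

set_option autoImplicit false
set_option exponentiation.threshold 4000
noncomputable section
namespace Pool.Agent.Helper84.KNP

open Pool.Agent.Helper86.C75 (Z)
open Pool.Agent.Helper86.CX
open Pool.Agent.Helper17
open Pool.Agent.Helper17.PAK (pk9 addH smulH idH cstH Bd rep_NG MM_eq)
open Pool.Agent.Helper90.KMO (zv cz UU UU_pos nb2_le nb_le norm_le_of_comp c_add c_mul div_ub UUc_ne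
  norm_UU)
open Pool.Agent.Helper90.C75
open Complex ComplexConjugate

variable {t : ℝ}

/-! ### forms as sums over the entries -/

def ph (v : Fin 3 → ℂ) : Fin 6 → ℂ :=
  ![((normSq (v 0) : ℝ) : ℂ), ((normSq (v 1) : ℝ) : ℂ), ((normSq (v 2) : ℝ) : ℂ),
    2 * (conj (v 0) * v 1), 2 * (conj (v 0) * v 2), 2 * (conj (v 1) * v 2)]

def qe (U : Fin 6 → ℂ) (v : Fin 3 → ℂ) : ℝ := ∑ e, (U e * ph v e).re

theorem qe_add (U W : Fin 6 → ℂ) (v : Fin 3 → ℂ) :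
    qe (fun e => U e + W e) v = qe U v + qe W v := by
  unfold qe
  rw [← Finset.sum_add_distrib]
  refine Finset.sum_congr rfl fun e _ => ?_
  rw [add_mul, Complex.add_re]

theorem qe_smul (c : ℝ) (U : Fin 6 → ℂ) (v : Fin 3 → ℂ) :
    qe (fun e => (c : ℂ) * U e) v = c * qe U v := by
  unfold qe
  rw [Finset.mul_sum]
  refine Finset.sum_congr rfl fun e _ => ?_
  rw [mul_assoc, Complex.re_ofReal_mul]

theorem qe_six (U : Fin 6 → ℂ) (v : Fin 3 → ℂ) : qe U v =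
    (U 0).re * normSq (v 0) + (U 1).re * normSq (v 1) + (U 2).re * normSq (v 2) +
    2 * (conj (v 0) * U 3 * v 1).re + 2 * (conj (v 0) * U 4 * v 2).re +
    2 * (conj (v 1) * U 5 * v 2).re := by
  have e1 : ∀ (u : ℂ) (r : ℝ), (u * (r : ℂ)).re = u.re * r := fun u r => by simp
  have e2 : ∀ u p q : ℂ, (u * (2 * (p * q))).re = 2 * (p * u * q).re := by
    intro u p q
    have : u * (2 * (p * q)) = ((2 : ℝ) : ℂ) * (p * u * q) := by push_cast; ring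
    rw [this, Complex.re_ofReal_mul]
  unfold qe
  rw [Fin.sum_univ_six]
  show (U 0 * ((normSq (v 0) : ℝ) : ℂ)).re + (U 1 * ((normSq (v 1) : ℝ) : ℂ)).re +
    (U 2 * ((normSq (v 2) : ℝ) : ℂ)).re + (U 3 * (2 * (conj (v 0) * v 1))).re +
    (U 4 * (2 * (conj (v 0) * v 2))).re + (U 5 * (2 * (conj (v 1) * v 2))).re = _
  rw [e1, e1, e1, e2, e2, e2]

theorem ev_qe (K : Hm ℝ) (v : Fin 3 → ℂ) : ev K v = qe (enR K) v := by
  rw [qe_six]
  rfl

theorem gc_I (x y : ℤ) : gc x y = (x : ℂ) + (y : ℂ) * I := by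
  apply Complex.ext <;> simp [gc]

theorem ev_qz (N : Hm ℤ) (v : Fin 3 → ℂ) : ev (PAK.sc 1 N) v = qe (ent N) v := by
  rw [ev_qe]
  have e : enR (PAK.sc 1 N) = ent N := by
    funext e
    revert e
    have d : ∀ x : ℤ, (((x : ℝ) / 1 : ℝ) : ℂ) = gc x 0 := by
      intro x
      apply Complex.ext <;> simp [gc]
    have c : ∀ x y : ℤ, (((x : ℝ) / 1 : ℝ) : ℂ) + (((y : ℝ) / 1 : ℝ) : ℂ) * I = gc x y := by
      intro x y
      rw [gc_I]; push_cast; rw [div_one, div_one]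
    exact fin6 (d _) (d _) (d _) (c _ _) (c _ _) (c _ _)
  rw [e]

/-! ### real scalars -/

/-- the real parts of the controls -/
def FR (P : MP) : Fin 3 → ℂ := ![gc (dr P.a) 0, gc (dr P.c) 0, gc (dr P.b) 0]

theorem gc0_norm (x : ℤ) : ‖gc x 0‖ = |(x : ℝ)| := by
  have : gc x 0 = ((x : ℝ) : ℂ) := by apply Complex.ext <;> simp [gc]
  rw [this, Complex.norm_real, Real.norm_eq_abs]

/-- bounds of the real scalar, as computed by `st2` -/
def bR (P : MP) : ℕ := mx3 (absd (pr P.a) OO) (absd (pr P.c) OO) (absd (pr P.b) OO)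
def dR (P : MP) : ℕ := absd (pr P.b) (pr P.a)
def fR (P : MP) : ℕ := Nat.add (Nat.div (absd (Nat.add (pr P.c) (pr P.c))
  (Nat.add (pr P.a) (pr P.b))) (nat_lit 2)) (nat_lit 1)

theorem FR_d (P : MP) : ‖FR P 2 - FR P 0‖ ≤ dR P := by
  show ‖gc (dr P.b) 0 - gc (dr P.a) 0‖ ≤ _
  rw [gc_sub, sub_self, gc0_norm]
  unfold dR
  rw [absd_eq]
  push_cast
  rw [dr_c, dr_c]
  apply le_of_eq
  congr 1
  ring

theorem FR_f (P : MP) : ‖FR P 1 - (FR P 0 + FR P 2) / 2‖ ≤ fR P := by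
  show ‖gc (dr P.c) 0 - (gc (dr P.a) 0 + gc (dr P.b) 0) / 2‖ ≤ _
  have e : gc (dr P.c) 0 - (gc (dr P.a) 0 + gc (dr P.b) 0) / 2 =
      (gc (dr P.c + dr P.c - (dr P.a + dr P.b)) 0) / 2 := by
    have : gc (dr P.c + dr P.c - (dr P.a + dr P.b)) 0 = gc (dr P.c) 0 + gc (dr P.c) 0 -
      (gc (dr P.a) 0 + gc (dr P.b) 0) := by
      rw [← gc_add0, ← gc_add0, gc_sub, sub_self]
    rw [this]; ring
  rw [e, norm_div, gc0_norm]
  have e2 : ‖(2 : ℂ)‖ = 2 := by norm_num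
  rw [e2]
  unfold fR
  refine le_trans (le_of_eq ?_) (half_ub _)
  rw [absd_eq, c_add, c_add]
  push_cast
  rw [dr_c, dr_c, dr_c]
  congr 2
  ring

theorem FR_m (v : ℕ) : ‖gc (dr v) 0‖ ≤ (absd (pr v) OO : ℕ) := by
  rw [gc0_norm, absd_eq, dr_c, OO_eq, Nat.cast_pow, Nat.cast_ofNat]

theorem FR_B (P : MP) (i : Fin 3) : ‖FR P i‖ ≤ bR P := by
  unfold bR
  fin_cases i
  · exact (FR_m P.a).trans (mx3_1 _ _ _)
  · exact (FR_m P.c).trans (mx3_2 _ _ _)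
  · exact (FR_m P.b).trans (mx3_3 _ _ _)

theorem st1_eq (x : SP) (z : AC) : st1 x z = st4 (pr x.s.a) (pr x.s.c) (pr x.s.b) x.s.r (bR x.s)
    (dR x.s) (fR x.s) x.h z := rfl

/-! ### the sums -/

structure AK (t : ℝ) (V : Fin 6 → ℂ) (z : AC) (Na Nc Nb : Hm ℤ) (R : Fin 6 → ℕ) : Prop where
  ra : PAK.Rep MM z.a (pk9 (2 ^ 256) Na)
  rc : PAK.Rep MM z.c (pk9 (2 ^ 256) Nc)
  rb : PAK.Rep MM z.b (pk9 (2 ^ 256) Nb)
  rR : z.R = v6f R
  md : ∀ e, Mod (bt t) (UU * UU * V e) ![ent Na e, ent Nc e / 4, ent Nb e] ((R e : ℝ) / 20)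
  ba : ∀ e, ‖ent Na e‖ ≤ 2 ^ 103 * (z.S : ℝ)
  bc : ∀ e, ‖ent Nc e‖ ≤ 2 ^ 103 * (z.S : ℝ)
  bb : ∀ e, ‖ent Nb e‖ ≤ 2 ^ 103 * (z.S : ℝ)
  bR : ∀ e, R e ≤ 2 ^ 116 * z.S

theorem ent_0 (e : Fin 6) : ent (cstH 0) e = 0 := by
  have h : gc 0 0 = 0 := by apply Complex.ext <;> simp [gc]
  revert e
  exact fin6 h h h h h h

theorem AK.zero : AK t (fun _ => 0) ac0 (cstH 0) (cstH 0) (cstH 0) (fun _ => 0) := by
  have r0 : PAK.Rep MM 0 (pk9 (2 ^ 256) (cstH 0)) := by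
    unfold PAK.Rep Int.ModEq
    decide +kernel
  refine ⟨r0, r0, r0, ?_, fun e => ?_, fun e => ?_, fun e => ?_, fun e => ?_, fun e => ?_⟩
  · show 0 = v6f (fun _ => 0)
    rw [v6f_eq]
    norm_num
  · show ‖(UU : ℂ) * UU * 0 - avg (bt t) ![ent (cstH 0) e, ent (cstH 0) e / 4, ent (cstH 0) e]‖ ≤ _
    rw [ent_0]
    have : avg (bt t) ![(0 : ℂ), 0 / 4, 0] = 0 := by
      rw [avg_bt]; simp
    rw [this]
    simp
  · rw [ent_0, norm_zero]; exact mul_nonneg (by norm_num) (Nat.cast_nonneg _)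
  · rw [ent_0, norm_zero]; exact mul_nonneg (by norm_num) (Nat.cast_nonneg _)
  · rw [ent_0, norm_zero]; exact mul_nonneg (by norm_num) (Nat.cast_nonneg _)
  · exact Nat.zero_le _

theorem CO_rep (n : ℕ) : PAK.Rep MM (Nat.add n CO) ((n : ℤ) - 2 ^ 160) := by
  have h : PAK.Rep MM CO (-2 ^ 160) := by
    unfold PAK.Rep Int.ModEq
    decide +kernel
  have h2 := (PAK.Rep.nat MM n).add h
  have e : (n : ℤ) + -2 ^ 160 = (n : ℤ) - 2 ^ 160 := by ring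
  rw [e] at h2
  exact h2

theorem dif_rep {a b : ℕ} (h : b ≤ a + MM) : PAK.Rep MM (Nat.sub (Nat.add a MM) b) ((a : ℤ) - b) := by
  unfold PAK.Rep
  have e : ((Nat.sub (Nat.add a MM) b : ℕ) : ℤ) = (a : ℤ) - b + MM := by
    show ((a + MM - b : ℕ) : ℤ) = _
    rw [Nat.cast_sub h]; push_cast; ring
  rw [e]
  exact Int.add_modEq_right

theorem X_le_MM : 2 ^ 256 ≤ MM := by rw [MM_eq]; exact Nat.pow_le_pow_right (by norm_num) (by norm_num)

/-- radii of a term -/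
def tR (P : MP) (B r f d : Fin 6 → ℕ) (e : Fin 6) : ℕ :=
  20 * P.r * B e + 20 * (bR P + P.r) * r e + ((2 * dR P + 5 * fR P) * f e + 2 * fR P * d e)

theorem rt_eq {P : MP} {H : HP} {B r f d : Fin 6 → ℕ} (h1 : H.VB = v6f B) (h2 : H.Vr = v6f r)
    (h3 : H.Vf = v6f f) (h4 : H.Vd = v6f d) :
    rt P.r (bR P) (dR P) (fR P) H = v6f (tR P B r f d) := by
  show (20 * P.r * H.VB + 20 * (bR P + P.r) * H.Vr) + ((2 * dR P + 5 * fR P) * H.Vf +
    2 * fR P * H.Vd) = _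
  rw [h1, h2, h3, h4, v6f_smul, v6f_smul, v6f_smul, v6f_smul, v6f_add, v6f_add, v6f_add]
  rfl

theorem AK.step (h0 : 0 ≤ t) (h1 : t ≤ 1) {V : Fin 6 → ℂ} {z : AC} {Na Nc Nb : Hm ℤ}
    {R : Fin 6 → ℕ} (hz : AK t V z Na Nc Nb R) {x : SP} {s : ℝ} {K : Hm ℝ}
    (hs : PK t (s : ℂ) x.s) (hK : HKp t K x.h) (hok : x.h.ok = true) :
    ∃ Na' Nc' Nb' R', AK t (fun e => (s : ℂ) * enR K e + V e) (st1 x z) Na' Nc' Nb' R' := by
  obtain ⟨Ha, Hc, Hb, B, r, f, d, ⟨ra, rc, rb, rd⟩, ⟨vB, vr, vf, vd⟩, md, bd, dd, ff, b100, h110⟩ :=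
    hK
  have h110' := h110 hok
  have hb := Wts.bt h0 h1
  refine ⟨addH (smulH (dr x.s.a) Ha) Na,
    addH (addH (smulH (dr x.s.c) (smulH 4 Hc)) (smulH (dr x.s.a - dr x.s.b)
      (addH Hb (smulH (-1) Ha)))) Nc, addH (smulH (dr x.s.b) Hb) Nb,
    fun e => tR x.s B r f d e + R e, ?_⟩
  rw [st1_eq]
  have eS : (((st4 (pr x.s.a) (pr x.s.c) (pr x.s.b) x.s.r (KNP.bR x.s) (dR x.s) (fR x.s) x.h z).S : ℕ) : ℝ)
      = (x.s.r + KNP.bR x.s) + (dR x.s + fR x.s) + z.S := by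
    show ((Nat.add (Nat.add (Nat.add x.s.r (KNP.bR x.s)) (Nat.add (dR x.s) (fR x.s))) z.S : ℕ) : ℝ) = _
    rw [c_add, c_add, c_add, c_add]
  have nr : (0 : ℝ) ≤ x.s.r := Nat.cast_nonneg _
  have nB : (0 : ℝ) ≤ KNP.bR x.s := Nat.cast_nonneg _
  have nd : (0 : ℝ) ≤ dR x.s := Nat.cast_nonneg _
  have nf : (0 : ℝ) ≤ fR x.s := Nat.cast_nonneg _
  have sB : ∀ i, ‖FR x.s i‖ ≤ KNP.bR x.s := FR_B x.s
  have sa : |(dr x.s.a : ℝ)| ≤ KNP.bR x.s := by rw [← gc0_norm]; exact sB 0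
  have sc : |(dr x.s.c : ℝ)| ≤ KNP.bR x.s := by rw [← gc0_norm]; exact sB 1
  have sb : |(dr x.s.b : ℝ)| ≤ KNP.bR x.s := by rw [← gc0_norm]; exact sB 2
  have hB : ∀ e i, ‖F6 Ha Hc Hb e i‖ ≤ 2 ^ 100 := fun e i =>
    (bd e i).trans (by exact_mod_cast b100 e)
  have k1 : ∀ (r : ℤ) (N : Hm ℤ) (e : Fin 6), |(r : ℝ)| ≤ KNP.bR x.s → ‖ent N e‖ ≤ 2 ^ 100 →
      ‖ent (smulH r N) e‖ ≤ 2 ^ 100 * KNP.bR x.s := by
    intro r N e hr hN
    rw [ent_smul, norm_mul]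
    have : ‖(r : ℂ)‖ = |(r : ℝ)| := by
      have : (r : ℂ) = ((r : ℝ) : ℂ) := by push_cast; rfl
      rw [this, Complex.norm_real, Real.norm_eq_abs]
    rw [this, mul_comm]
    exact mul_le_mul hN hr (abs_nonneg _) (by positivity)
  refine ⟨?_, ?_, ?_, ?_, fun e => ?_, fun e => ?_, fun e => ?_, fun e => ?_, fun e => ?_⟩
  · have h2 := ((CO_rep (pr x.s.a)).mul ra).add hz.ra
    rw [PAK.pk9_smul, PAK.pk9_add] at h2
    exact h2
  · have h2 := (((CO_rep (pr x.s.c)).mul rc).add ((dif_rep (a := pr x.s.a) (b := pr x.s.b)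
      (((dg_lt _).le.trans X_le_MM).trans (Nat.le_add_left _ _))).mul rd)).add hz.rc
    rw [PAK.pk9_smul, PAK.pk9_smul, PAK.pk9_add, PAK.pk9_add] at h2
    have e2 : (pr x.s.a : ℤ) - pr x.s.b = dr x.s.a - dr x.s.b := by unfold dr; ring
    rw [e2] at h2
    exact h2
  · have h2 := ((CO_rep (pr x.s.b)).mul rb).add hz.rb
    rw [PAK.pk9_smul, PAK.pk9_add] at h2
    exact h2
  · show rt x.s.r (KNP.bR x.s) (dR x.s) (fR x.s) x.h + z.R = _
    rw [rt_eq vB vr vf vd, hz.rR, v6f_add]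
  · have m1 : Mod (bt t) (UU * (s : ℂ)) (FR x.s) x.s.r := hs.diag.1
    have m2 := m1.mulE hb (md e) sB (bd e) (bt_err h0 h1 (FR x.s) (F6 Ha Hc Hb e) (FR_d x.s)
      (dd e) (FR_f x.s) (ff e))
    have m3 := m2.add (hz.md e)
    have e1 : UU * (s : ℂ) * (UU * enR K e) + UU * UU * V e =
        UU * UU * ((s : ℂ) * enR K e + V e) := by ring
    rw [e1] at m3
    have e2 : ((x.s.r : ℝ) * B e + r e * KNP.bR x.s + x.s.r * r e + (((dR x.s : ℝ) * f e +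
        fR x.s * d e) / 10 + fR x.s * f e / 4)) + (R e : ℝ) / 20 =
        ((tR x.s B r f d e + R e : ℕ) : ℝ) / 20 := by
      unfold tR
      push_cast
      ring
    rw [e2] at m3
    have e3 : (fun v => (if v = 1 then FR x.s v * F6 Ha Hc Hb e v - (FR x.s 2 - FR x.s 0) *
        (F6 Ha Hc Hb e 2 - F6 Ha Hc Hb e 0) / 4 else FR x.s v * F6 Ha Hc Hb e v) +
        (![ent Na e, ent Nc e / 4, ent Nb e] : Fin 3 → ℂ) v) =
        ![ent (addH (smulH (dr x.s.a) Ha) Na) e,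
          ent (addH (addH (smulH (dr x.s.c) (smulH 4 Hc)) (smulH (dr x.s.a - dr x.s.b)
            (addH Hb (smulH (-1) Ha)))) Nc) e / 4, ent (addH (smulH (dr x.s.b) Hb) Nb) e] := by
      have g0 : ∀ x : ℤ, gc x 0 = (x : ℂ) := fun x => by rw [gc_I]; simp
      funext v
      fin_cases v
      · show FR x.s 0 * F6 Ha Hc Hb e 0 + ent Na e = ent (addH (smulH (dr x.s.a) Ha) Na) e
        rw [ent_add, ent_smul]
        show gc (dr x.s.a) 0 * ent Ha e + ent Na e = _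
        rw [g0]
      · show (FR x.s 1 * F6 Ha Hc Hb e 1 - (FR x.s 2 - FR x.s 0) *
          (F6 Ha Hc Hb e 2 - F6 Ha Hc Hb e 0) / 4) + ent Nc e / 4 = ent (addH (addH (smulH (dr x.s.c)
          (smulH 4 Hc)) (smulH (dr x.s.a - dr x.s.b) (addH Hb (smulH (-1) Ha)))) Nc) e / 4
        rw [ent_add, ent_add, ent_smul, ent_smul, ent_smul, ent_add, ent_smul]
        show (gc (dr x.s.c) 0 * ent Hc e - (gc (dr x.s.b) 0 - gc (dr x.s.a) 0) *
          (ent Hb e - ent Ha e) / 4) + ent Nc e / 4 = _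
        rw [g0, g0, g0]
        push_cast
        ring
      · show FR x.s 2 * F6 Ha Hc Hb e 2 + ent Nb e = ent (addH (smulH (dr x.s.b) Hb) Nb) e
        rw [ent_add, ent_smul]
        show gc (dr x.s.b) 0 * ent Hb e + ent Nb e = _
        rw [g0]
    rw [e3] at m3
    exact m3
  · rw [eS, ent_add]
    refine (norm_add_le _ _).trans ?_
    have h2 := k1 _ Ha e sa (hB e 0)
    have h3 := hz.ba e
    have e4 : (2 : ℝ) ^ 103 = 8 * 2 ^ 100 := by norm_num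
    rw [e4] at h3 ⊢
    nlinarith [h2, h3]
  · rw [eS, ent_add, ent_add]
    refine (norm_add_le _ _).trans (le_trans (add_le_add (norm_add_le _ _) le_rfl) ?_)
    have h2 : ‖ent (smulH (dr x.s.c) (smulH 4 Hc)) e‖ ≤ 4 * (2 ^ 100 * KNP.bR x.s) := by
      have h5 := k1 _ Hc e sc (hB e 1)
      have : ent (smulH (dr x.s.c) (smulH 4 Hc)) e = 4 * ent (smulH (dr x.s.c) Hc) e := by
        rw [ent_smul, ent_smul, ent_smul]; push_cast; ring
      rw [this, norm_mul]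
      have e5 : ‖(4 : ℂ)‖ = 4 := by norm_num
      rw [e5]
      linarith
    have h2' : ‖ent (smulH (dr x.s.a - dr x.s.b) (addH Hb (smulH (-1) Ha))) e‖ ≤
        dR x.s * (2 * 2 ^ 100) := by
      rw [ent_smul, norm_mul]
      have h6 : ‖((dr x.s.a - dr x.s.b : ℤ) : ℂ)‖ ≤ dR x.s := by
        have h7 := FR_d x.s
        have : FR x.s 2 - FR x.s 0 = -((dr x.s.a - dr x.s.b : ℤ) : ℂ) := by
          show gc (dr x.s.b) 0 - gc (dr x.s.a) 0 = _
          rw [gc_I, gc_I]; push_cast; ring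
        rw [this, norm_neg] at h7
        exact h7
      have h8 : ‖ent (addH Hb (smulH (-1) Ha)) e‖ ≤ 2 * 2 ^ 100 := by
        have : ent (addH Hb (smulH (-1) Ha)) e = F6 Ha Hc Hb e 2 - F6 Ha Hc Hb e 0 := by
          rw [ent_add, ent_smul]
          show _ = ent Hb e - ent Ha e
          push_cast; ring
        rw [this]
        have := hB e 2
        have := hB e 0
        exact (norm_sub_le _ _).trans (by linarith)
      exact mul_le_mul h6 h8 (norm_nonneg _) nd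
    have h3 := hz.bc e
    have e4 : (2 : ℝ) ^ 103 = 8 * 2 ^ 100 := by norm_num
    rw [e4] at h3 ⊢
    nlinarith [h2, h3, h2']
  · rw [eS, ent_add]
    refine (norm_add_le _ _).trans ?_
    have h2 := k1 _ Hb e sb (hB e 2)
    have h3 := hz.bb e
    have e4 : (2 : ℝ) ^ 103 = 8 * 2 ^ 100 := by norm_num
    rw [e4] at h3 ⊢
    nlinarith [h2, h3]
  · have eN : (st4 (pr x.s.a) (pr x.s.c) (pr x.s.b) x.s.r (KNP.bR x.s) (dR x.s) (fR x.s) x.h z).S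
      = (x.s.r + KNP.bR x.s) + (dR x.s + fR x.s) + z.S := rfl
    rw [eN]
    have h3 := hz.bR e
    obtain ⟨q1, q2, q3⟩ := h110' e
    have q0 : B e ≤ 2 ^ 110 := (b100 e).trans (by norm_num)
    show tR x.s B r f d e + R e ≤ _
    unfold tR
    have e4 : 2 ^ 116 = 64 * 2 ^ 110 := by norm_num
    rw [e4] at h3 ⊢
    have g1 : 20 * x.s.r * B e ≤ 20 * x.s.r * 2 ^ 110 := Nat.mul_le_mul_left _ q0
    have g2 : 20 * (KNP.bR x.s + x.s.r) * r e ≤ 20 * (KNP.bR x.s + x.s.r) * 2 ^ 110 :=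
      Nat.mul_le_mul_left _ q1
    have g3 : (2 * dR x.s + 5 * fR x.s) * f e ≤ (2 * dR x.s + 5 * fR x.s) * 2 ^ 110 :=
      Nat.mul_le_mul_left _ q2
    have g4 : 2 * fR x.s * d e ≤ 2 * fR x.s * 2 ^ 110 := Nat.mul_le_mul_left _ q3
    generalize (2 : ℕ) ^ 110 = T at *
    nlinarith [g1, g2, g3, g4, h3]

/-- the sum over a list -/
theorem AK.sum (h0 : 0 ≤ t) (h1 : t ≤ 1) : ∀ {p : List (ℝ × Hm ℝ)} {l : List SP},
    List.Forall₂ (fun p q => PK t (p.1 : ℂ) q.s ∧ HKp t p.2 q.h) p l → (sumT l).ok = true →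
    ∃ V Na Nc Nb R, AK t V (sumT l) Na Nc Nb R ∧
      ∀ v, qe V v = (p.map fun x => x.1 * ev x.2 v).sum := by
  intro p l h
  induction h with
  | nil =>
    intro _
    refine ⟨_, _, _, _, _, AK.zero, fun v => ?_⟩
    unfold qe
    simp
  | @cons a b p l hab _ ih =>
    intro hok
    have hok' : andB b.h.ok (sumT l).ok = true := hok
    obtain ⟨k1, k2⟩ := PAK.andB_iff.1 hok'
    obtain ⟨V, Na, Nc, Nb, R, hz, hv⟩ := ih k2
    obtain ⟨Na', Nc', Nb', R', hz'⟩ := hz.step h0 h1 hab.1 hab.2 k1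
    refine ⟨_, _, _, _, _, hz', fun v => ?_⟩
    rw [qe_add, qe_smul, ← ev_qe, hv, List.map_cons, List.sum_cons]

end Pool.Agent.Helper84.KNP
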