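import Pool.Agent.Helper84.KNP.KS6

/-!
Row KNP, soundness, part 7: the test.
-/

set_option autoImplicit false
set_option exponentiation.threshold 4000
noncomputable section
namespace Pool.Agent.Helper84.KNP

open Pool.Agent.Helper86.C75 (Z)
open Pool.Agent.Helper86.CX
open Pool.Agent.Helper17
open Pool.Agent.Helper17.PAK (pk9 addH smulH idH cstH Bd rep_NG MM_eq PDz PDz_ev andB_iff)
open Pool.Agent.Helper90.KMO (zv cz UU UU_pos nb2_le nb_le norm_le_of_comp c_add c_mul div_ub UUc_ne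
  norm_UU)
open Pool.Agent.Helper90.C75
open Complex ComplexConjugate

variable {t : ℝ}

def dgH (x y z : ℤ) : Hm ℤ := ⟨x, y, z, 0, 0, 0, 0, 0, 0⟩

theorem gc00 : gc 0 0 = 0 := by apply Complex.ext <;> simp [gc]

theorem qe_dgH (x y z : ℤ) (v : Fin 3 → ℂ) :
    qe (ent (dgH x y z)) v = x * normSq (v 0) + y * normSq (v 1) + z * normSq (v 2) := by
  rw [qe_six]
  show (gc x 0).re * normSq (v 0) + (gc y 0).re * normSq (v 1) + (gc z 0).re * normSq (v 2) +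
    2 * (conj (v 0) * gc 0 0 * v 1).re + 2 * (conj (v 0) * gc 0 0 * v 2).re +
    2 * (conj (v 1) * gc 0 0 * v 2).re = _
  rw [gc00]
  simp [gc]

theorem qe_sub_dg (N : Hm ℤ) (c x y z : ℤ) (v : Fin 3 → ℂ) :
    qe (ent (addH N (smulH (-c) (dgH x y z)))) v = qe (ent N) v -
      c * (x * normSq (v 0) + y * normSq (v 1) + z * normSq (v 2)) := by
  have e : ent (addH N (smulH (-c) (dgH x y z))) = fun e => ent N e + ((-(c : ℝ) : ℝ) : ℂ) *
      ent (dgH x y z) e := by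
    funext e
    rw [ent_add, ent_smul]
    push_cast
    ring
  rw [e, qe_add, qe_smul, qe_dgH]
  ring

theorem SC1_rep : PAK.Rep MM SC1 (pk9 (2 ^ 256) (cstH (2 ^ 255))) := by
  unfold PAK.Rep Int.ModEq
  decide +kernel

theorem hR_rep (x y z : ℕ) : PAK.Rep MM (hx x (hx y z)) (pk9 (2 ^ 256) (dgH x y z)) := by
  have h := PAK.Rep.nat MM (hx x (hx y z))
  have e : ((hx x (hx y z) : ℕ) : ℤ) = pk9 (2 ^ 256) (dgH x y z) := by
    rw [hx_eq, hx_eq]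
    simp only [pk9, dgH]
    simp only [Nat.cast_add, Nat.cast_mul, Nat.cast_pow, Nat.cast_ofNat]
    ring
  rw [e] at h
  exact h

/-- one control -/
theorem ctl_ev {A x y z c : ℕ} {N : Hm ℤ} (hA : PAK.Rep MM A (pk9 (2 ^ 256) N))
    (hN : ∀ e, ‖ent N e‖ ≤ 2 ^ 103 * 2 ^ 100) (hx' : x + y + z ≤ 2 ^ 200) (hc : c ≤ 4) {M : ℕ}
    (hM : PAK.Rep MM M (c * pk9 (2 ^ 256) (dgH x y z)))
    (h : psd (md (Nat.add (Nat.add A SC1) (Nat.mul NG M))) = true) (v : Fin 3 → ℂ) :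
    (c : ℝ) * (x * normSq (v 0) + y * normSq (v 1) + z * normSq (v 2)) ≤ qe (ent N) v := by
  have r := (hA.add SC1_rep).add (rep_NG.mul hM)
  have e : pk9 (2 ^ 256) N + pk9 (2 ^ 256) (cstH (2 ^ 255)) +
      -1 * ((c : ℤ) * pk9 (2 ^ 256) (dgH x y z)) = pk9 (2 ^ 256) (addH (addH N
        (smulH (-(c : ℤ)) (dgH x y z))) (cstH (2 ^ 255))) := by
    rw [← PAK.pk9_add, ← PAK.pk9_add, ← PAK.pk9_smul]
    ring
  rw [e] at r
  have b1 : Bd (2 ^ 203) N := by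
    apply ent_bd
    intro e
    refine (hN e).trans ?_
    push_cast
    norm_num
  have b2 : Bd (2 ^ 200) (dgH x y z) := by
    have k : ∀ n : ℕ, n ≤ x + y + z → |(n : ℤ)| ≤ 2 ^ 200 := by
      intro n hn
      rw [abs_of_nonneg (Int.natCast_nonneg _)]
      exact_mod_cast hn.trans hx'
    have k0 : |(0 : ℤ)| ≤ 2 ^ 200 := by norm_num
    exact ⟨k x (by omega), k y (by omega), k z (by omega), k0, k0, k0, k0, k0, k0⟩
  have b3 : Bd (2 ^ 255 - 1) (addH N (smulH (-(c : ℤ)) (dgH x y z))) := by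
    have hc' : |(-(c : ℤ))| ≤ 4 := by
      rw [abs_neg, abs_of_nonneg (Int.natCast_nonneg _)]
      exact_mod_cast hc
    exact (b1.add (b2.smul hc')).mono (by norm_num)
  have h1 := PAK.psd_sound r b3 h
  have h2 := PDz_ev h1 v
  rw [ev_qz, qe_sub_dg] at h2
  push_cast at h2
  linarith

theorem wr_ge (r d d' : ℕ) (hd' : 0 < d') : (r : ℝ) * (d / d') ≤ wr r d d' := by
  have h := div_ub (Nat.mul r d) hd'
  unfold wr
  rw [c_add]
  rw [c_mul] at h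
  norm_num at h ⊢
  rw [mul_div_assoc] at h
  exact h

theorem amgm {p q : ℂ} {r : ℝ} (hr : 0 ≤ r) {d e : ℕ} (hd : 0 < d) (he : 0 < e) :
    r * ‖2 * (conj p * q)‖ ≤ r * (d / e) * normSq p + r * (e / d) * normSq q := by
  have hd' : (0 : ℝ) < d := by exact_mod_cast hd
  have he' : (0 : ℝ) < e := by exact_mod_cast he
  have h3 : 2 * (‖p‖ * ‖q‖) ≤ (d / e) * ‖p‖ ^ 2 + (e / d) * ‖q‖ ^ 2 := by
    have h4 : 0 ≤ (d * ‖p‖ - e * ‖q‖) ^ 2 / (d * e) := by positivity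
    have e4 : (d * ‖p‖ - e * ‖q‖) ^ 2 / (d * e) =
        (d / e) * ‖p‖ ^ 2 + (e / d) * ‖q‖ ^ 2 - 2 * (‖p‖ * ‖q‖) := by
      field_simp
      ring
    rw [e4] at h4
    linarith
  rw [Complex.normSq_eq_norm_sq, Complex.normSq_eq_norm_sq, norm_mul, norm_mul,
    RCLike.norm_conj]
  have e2 : ‖(2 : ℂ)‖ = 2 := by norm_num
  rw [e2]
  nlinarith [mul_le_mul_of_nonneg_left h3 hr]

/-- the total error -/
theorem err_le {d : D3} (dx : 0 < d.x) (dy : 0 < d.y) (dz : 0 < d.z) {g : Fin 6 → ℕ}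
    {ρ : Fin 6 → ℝ} (hg : ∀ e, ρ e ≤ g e) (h0 : ∀ e, 0 ≤ ρ e) (v : Fin 3 → ℂ) :
    ∑ e, ρ e * ‖ph v e‖ ≤
      (((Nat.add (Nat.add (g 0) (wr (g 3) d.x d.y)) (wr (g 4) d.x d.z) : ℕ) : ℝ) * normSq (v 0) +
      ((Nat.add (Nat.add (g 1) (wr (g 3) d.y d.x)) (wr (g 5) d.y d.z) : ℕ) : ℝ) * normSq (v 1) +
      ((Nat.add (Nat.add (g 2) (wr (g 4) d.z d.x)) (wr (g 5) d.z d.y) : ℕ) : ℝ) * normSq (v 2)) := by
  have n0 := normSq_nonneg (v 0)
  have n1 := normSq_nonneg (v 1)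
  have n2 := normSq_nonneg (v 2)
  rw [Fin.sum_univ_six]
  show ρ 0 * ‖((normSq (v 0) : ℝ) : ℂ)‖ + ρ 1 * ‖((normSq (v 1) : ℝ) : ℂ)‖ +
    ρ 2 * ‖((normSq (v 2) : ℝ) : ℂ)‖ + ρ 3 * ‖2 * (conj (v 0) * v 1)‖ +
    ρ 4 * ‖2 * (conj (v 0) * v 2)‖ + ρ 5 * ‖2 * (conj (v 1) * v 2)‖ ≤ _
  have m3 := amgm (p := v 0) (q := v 1) (h0 3) dx dy
  have m4 := amgm (p := v 0) (q := v 2) (h0 4) dx dz
  have m5 := amgm (p := v 1) (q := v 2) (h0 5) dy dz
  have ab : ∀ r : ℝ, 0 ≤ r → ‖(r : ℂ)‖ = r := fun r hr => by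
    rw [Complex.norm_real, Real.norm_of_nonneg hr]
  rw [ab _ n0, ab _ n1, ab _ n2]
  have k : ∀ (e : Fin 6) (a b : ℕ), 0 < b → ρ e * ((a : ℝ) / b) ≤ wr (g e) a b := by
    intro e a b hb
    refine le_trans (mul_le_mul_of_nonneg_right (hg e) (by positivity)) (wr_ge _ _ _ hb)
  have a0 := mul_le_mul_of_nonneg_right (hg 0) n0
  have a1 := mul_le_mul_of_nonneg_right (hg 1) n1
  have a2 := mul_le_mul_of_nonneg_right (hg 2) n2
  have c1 := mul_le_mul_of_nonneg_right (k 3 d.x d.y dy) n0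
  have c2 := mul_le_mul_of_nonneg_right (k 3 d.y d.x dx) n1
  have c3 := mul_le_mul_of_nonneg_right (k 4 d.x d.z dz) n0
  have c4 := mul_le_mul_of_nonneg_right (k 4 d.z d.x dx) n2
  have c5 := mul_le_mul_of_nonneg_right (k 5 d.y d.z dz) n1
  have c6 := mul_le_mul_of_nonneg_right (k 5 d.z d.y dy) n2
  rw [c_add, c_add, c_add, c_add, c_add, c_add]
  linarith

theorem dg_ge {R : Fin 6 → ℕ} (h : ∀ e, R e < 2 ^ 256) (e : Fin 6) :
    (R e : ℝ) / 20 ≤ dg (v6f R) (256 * e) := by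
  unfold dg
  rw [v6f_dig h e, c_add]
  have := div_ub (R e) (b := 20) (by norm_num)
  norm_num at this ⊢
  exact this

/-- SOUNDNESS OF THE LAST STEP OF THE TEST -/
theorem ltz_sound (h0 : 0 ≤ t) (h1 : t ≤ 1) {d : D3} {V : Fin 6 → ℂ} {z : AC} {Na Nc Nb : Hm ℤ}
    {R : Fin 6 → ℕ} (hz : AK t V z Na Nc Nb R) (ht : ltz d z = true) (v : Fin 3 → ℂ) :
    0 ≤ qe V v := by
  have hb := Wts.bt h0 h1
  unfold ltz at ht
  obtain ⟨t1, ht⟩ := andB_iff.1 ht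
  obtain ⟨t2, ht⟩ := andB_iff.1 ht
  obtain ⟨t3, t4⟩ := andB_iff.1 ht
  have hS : z.S ≤ 2 ^ 100 := ble100 t2
  have hS' : (z.S : ℝ) ≤ 2 ^ 100 := by exact_mod_cast hS
  unfold dOK at t3
  obtain ⟨d1, t3⟩ := andB_iff.1 t3
  obtain ⟨d2, d3⟩ := andB_iff.1 t3
  have dx : 0 < d.x := Nat.le_of_ble_eq_true d1
  have dy : 0 < d.y := Nat.le_of_ble_eq_true d2
  have dz : 0 < d.z := Nat.le_of_ble_eq_true d3
  have hR : ∀ e, R e < 2 ^ 256 := by
    intro e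
    have h2 := hz.bR e
    have h3 : 2 ^ 116 * z.S ≤ 2 ^ 116 * 2 ^ 100 := Nat.mul_le_mul_left _ hS
    have h4 : 2 ^ 116 * 2 ^ 100 < 2 ^ 256 := by norm_num
    omega
  unfold tq1 at t4
  rw [hz.rR] at t4
  set g : Fin 6 → ℕ := fun e => dg (v6f R) (256 * e) with hg
  have t5 : tq2 d z.a z.c z.b (g 0) (g 1) (g 2) (g 3) (g 4) (g 5) = true := t4
  unfold tq2 tq3 at t5
  obtain ⟨t6, t7⟩ := andB_iff.1 t5
  set x := Nat.add (Nat.add (g 0) (wr (g 3) d.x d.y)) (wr (g 4) d.x d.z) with hx0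
  set y := Nat.add (Nat.add (g 1) (wr (g 3) d.y d.x)) (wr (g 5) d.y d.z) with hy0
  set w := Nat.add (Nat.add (g 2) (wr (g 4) d.z d.x)) (wr (g 5) d.z d.y) with hw0
  have t8 : x + y + w ≤ 2 ^ 200 := by
    have h3 := Nat.le_of_ble_eq_true t6
    have : B200 = 2 ^ 200 := by decide +kernel
    rw [this] at h3
    exact h3
  unfold tp at t7
  obtain ⟨p1, t7⟩ := andB_iff.1 t7
  obtain ⟨p2, p3⟩ := andB_iff.1 t7
  have bb : ∀ {N : Hm ℤ}, (∀ e, ‖ent N e‖ ≤ 2 ^ 103 * (z.S : ℝ)) →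
      ∀ e, ‖ent N e‖ ≤ 2 ^ 103 * 2 ^ 100 := fun hN e =>
    (hN e).trans (mul_le_mul_of_nonneg_left hS' (by positivity))
  have hM := hR_rep x y w
  have q1 := ctl_ev (c := 1) hz.ra (bb hz.ba) t8 (by norm_num) (M := hx x (hx y w))
    (by rw [Nat.cast_one, one_mul]; exact hM) p1 v
  have q2 := ctl_ev (c := 1) hz.rb (bb hz.bb) t8 (by norm_num) (M := hx x (hx y w))
    (by rw [Nat.cast_one, one_mul]; exact hM) p2 v
  have q3 := ctl_ev (c := 4) hz.rc (bb hz.bc) t8 (by norm_num)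
    (M := Nat.mul (nat_lit 4) (hx x (hx y w))) ((PAK.Rep.nat MM 4).mul hM) p3 v
  have q4 := err_le dx dy dz (g := g) (ρ := fun e => (R e : ℝ) / 20) (fun e => dg_ge hR e)
    (fun e => by positivity) v
  set Rf : ℝ := x * normSq (v 0) + y * normSq (v 1) + w * normSq (v 2) with hRf
  -- the average of the controls
  have e1 : qe (fun e => avg (bt t) ![ent Na e, ent Nc e / 4, ent Nb e]) v =
      (1 - t) ^ 2 * qe (ent Na) v + 2 * t * (1 - t) * (qe (ent Nc) v / 4) +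
        t ^ 2 * qe (ent Nb) v := by
    have e2 : (fun e => avg (bt t) ![ent Na e, ent Nc e / 4, ent Nb e]) = fun e =>
        ((((1 - t) ^ 2 : ℝ) : ℂ) * ent Na e + ((2 * t * (1 - t) / 4 : ℝ) : ℂ) * ent Nc e) +
          ((t ^ 2 : ℝ) : ℂ) * ent Nb e := by
      funext e
      simp [avg, bt, Fin.sum_univ_three]
      ring
    rw [e2, qe_add, qe_add, qe_smul, qe_smul, qe_smul]
    ring
  have h5 : Rf ≤ qe (fun e => avg (bt t) ![ent Na e, ent Nc e / 4, ent Nb e]) v := by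
    rw [e1]
    have a1 : (0 : ℝ) ≤ (1 - t) ^ 2 := sq_nonneg _
    have a2 : (0 : ℝ) ≤ 2 * t * (1 - t) := mul_nonneg (mul_nonneg two_pos.le h0) (by linarith)
    have a3 : (0 : ℝ) ≤ t ^ 2 := sq_nonneg _
    push_cast at q1 q2 q3
    have b1 := mul_le_mul_of_nonneg_left q1 a1
    have b2 := mul_le_mul_of_nonneg_left q3 a2
    have b3 := mul_le_mul_of_nonneg_left q2 a3
    have e3 : Rf = (1 - t) ^ 2 * (1 * Rf) + 2 * t * (1 - t) * (4 * Rf) / 4 + t ^ 2 * (1 * Rf) := by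
      ring
    rw [e3]
    linarith
  -- the error
  have h6 : -Rf ≤ qe (fun e => UU * UU * V e - avg (bt t) ![ent Na e, ent Nc e / 4, ent Nb e]) v := by
    refine (neg_le_neg q4).trans ?_
    unfold qe
    rw [← Finset.sum_neg_distrib]
    refine Finset.sum_le_sum fun e _ => ?_
    have h7 := (Complex.abs_re_le_norm ((UU * UU * V e -
      avg (bt t) ![ent Na e, ent Nc e / 4, ent Nb e]) * ph v e))
    rw [norm_mul] at h7
    have h8 : ‖UU * UU * V e - avg (bt t) ![ent Na e, ent Nc e / 4, ent Nb e]‖ ≤ (R e : ℝ) / 20 :=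
      hz.md e
    have h9 := mul_le_mul_of_nonneg_right h8 (norm_nonneg (ph v e))
    have h10 := neg_abs_le ((UU * UU * V e -
      avg (bt t) ![ent Na e, ent Nc e / 4, ent Nb e]) * ph v e).re
    linarith
  have e4 : qe (fun e => UU * UU * V e - avg (bt t) ![ent Na e, ent Nc e / 4, ent Nb e]) v =
      UU * UU * qe V v - qe (fun e => avg (bt t) ![ent Na e, ent Nc e / 4, ent Nb e]) v := by
    have e5 : (fun e => (UU : ℂ) * UU * V e - avg (bt t) ![ent Na e, ent Nc e / 4, ent Nb e]) =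
        fun e => ((UU * UU : ℝ) : ℂ) * V e + ((-1 : ℝ) : ℂ) *
          avg (bt t) ![ent Na e, ent Nc e / 4, ent Nb e] := by
      funext e
      push_cast
      ring
    rw [e5, qe_add, qe_smul, qe_smul]
    ring
  rw [e4] at h6
  have h11 : 0 ≤ UU * UU * qe V v := by linarith
  have hU := UU_pos
  by_contra h12
  push Not at h12
  have h13 : UU * UU * qe V v < 0 := mul_neg_of_pos_of_neg (mul_pos hU hU) h12
  linarith

/-- SOUNDNESS OF THE TEST -/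
theorem ltP_sound (h0 : 0 ≤ t) (h1 : t ≤ 1) {d : D3} {p : List (ℝ × Hm ℝ)} {l : List SP}
    (h : List.Forall₂ (fun p q => PK t (p.1 : ℂ) q.s ∧ HKp t p.2 q.h) p l)
    (ht : ltP d l = true) (v : Fin 3 → ℂ) : 0 ≤ (p.map fun x => x.1 * ev x.2 v).sum := by
  have ht' : ltz d (sumT l) = true := ht
  obtain ⟨V, Na, Nc, Nb, R, hz, hv⟩ := AK.sum h0 h1 h (andB_iff.1 ht').1
  rw [← hv]
  exact ltz_sound h0 h1 hz ht' v

end Pool.Agent.Helper84.KNP
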